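import Mathlib

/-! A lower bound for integer combinations of real algebraic numbers. -/

set_option autoImplicit false

namespace Pool.Agent.H46.Sc

theorem exists_lower {ι : Type} [Fintype ι] (v : ι → ℝ) (hv : ∀ j, IsAlgebraic ℚ (v j)) :
    ∃ C : ℕ, 1 ≤ C ∧ ∀ (c : ι → ℤ) (H : ℕ), 1 ≤ H → (∀ j, (c j).natAbs ≤ H) → ∑ j, (c j : ℝ) * v j ≠ 0 →
      1 ≤ ((C : ℝ) * H) ^ C * |∑ j, (c j : ℝ) * v j| := by
  classical
  set K := IntermediateField.adjoin ℚ (Set.range v) with hK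
  have hfd : FiniteDimensional ℚ K := IntermediateField.finiteDimensional_adjoin (by
    rintro _ ⟨j, rfl⟩; exact (hv j).isIntegral)
  have hmem : ∀ j, v j ∈ K := fun j => IntermediateField.subset_adjoin _ _ ⟨j, rfl⟩
  let v' : ι → K := fun j => ⟨v j, hmem j⟩
  have halg : Algebra.IsAlgebraic ℤ K := by
    have : Algebra.IsAlgebraic ℚ K := inferInstance
    exact ⟨fun x => (IsFractionRing.isAlgebraic_iff ℤ ℚ K).2 (this.isAlgebraic x)⟩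
  obtain ⟨D, hD, hint⟩ := Algebra.IsAlgebraic.exists_integral_multiples ℤ (Finset.univ.image v')
  have hint' : ∀ j, IsIntegral ℤ (D • v' j) := fun j => hint _ (Finset.mem_image_of_mem _ (Finset.mem_univ j))
  let T : ℝ := 1 + ∑ σ : K →ₐ[ℚ] ℂ, ∑ j, ‖σ (v' j)‖
  have hT1 : 1 ≤ T := by
    have : 0 ≤ ∑ σ : K →ₐ[ℚ] ℂ, ∑ j, ‖σ (v' j)‖ := Finset.sum_nonneg fun σ _ => Finset.sum_nonneg fun j _ => norm_nonneg _
    linarith
  obtain ⟨C0, hC0⟩ := exists_nat_ge (|(D : ℝ)| * T)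
  let n := Fintype.card (K →ₐ[ℚ] ℂ)
  refine ⟨C0 + n + 1, by omega, fun c H hH hc hne => ?_⟩
  let x : K := ∑ j, (c j : K) * v' j
  have hx : (x : ℝ) = ∑ j, (c j : ℝ) * v j := by
    simp [x, v']
  rw [← hx] at hne ⊢
  have hx0 : x ≠ 0 := fun h => hne (by rw [h]; rfl)
  let y : K := D • x
  have hy0 : y ≠ 0 := smul_ne_zero hD hx0
  have hyint : IsIntegral ℤ y := by
    have : y = ∑ j, c j • (D • v' j) := by
      simp only [y, x, Finset.smul_sum]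
      refine Finset.sum_congr rfl fun j _ => ?_
      rw [zsmul_eq_mul, zsmul_eq_mul, zsmul_eq_mul]; ring
    rw [this]
    exact IsIntegral.sum _ fun j _ => (hint' j).smul _
  obtain ⟨z, hz⟩ := IsIntegrallyClosed.isIntegral_iff.1 (Algebra.isIntegral_norm (K := ℚ) hyint)
  have hnorm0 : Algebra.norm ℚ y ≠ 0 := Algebra.norm_ne_zero_iff.2 hy0
  have hz0 : z ≠ 0 := by rintro rfl; exact hnorm0 (by rw [← hz]; simp)
  have hprod := Algebra.norm_eq_prod_embeddings ℚ ℂ y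
  have h1 : (1 : ℝ) ≤ ∏ σ : K →ₐ[ℚ] ℂ, ‖σ y‖ := by
    rw [← norm_prod, ← hprod, ← hz]
    have e : (algebraMap ℚ ℂ) ((algebraMap ℤ ℚ) z) = (z : ℂ) := by simp
    rw [e, Complex.norm_intCast]
    exact_mod_cast Int.one_le_abs hz0
  let σ0 : K →ₐ[ℚ] ℂ := (Complex.ofRealAm.restrictScalars ℚ).comp K.val
  have hσ0 : ‖σ0 y‖ = |(D : ℝ)| * |(x : ℝ)| := by
    have : σ0 y = (((D : ℝ) * (x : ℝ) : ℝ) : ℂ) := by
      simp [σ0, y, zsmul_eq_mul]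
      exact Or.inl rfl
    rw [this, Complex.norm_real, Real.norm_eq_abs, abs_mul]
  have hσ : ∀ σ : K →ₐ[ℚ] ℂ, ‖σ y‖ ≤ (C0 : ℝ) * H := fun σ => by
    have e : σ y = (D : ℂ) * ∑ j, (c j : ℂ) * σ (v' j) := by
      simp [y, x, zsmul_eq_mul, map_sum]
    have h2 : ‖∑ j, (c j : ℂ) * σ (v' j)‖ ≤ H * T := by
      refine (norm_sum_le _ _).trans ?_
      have h3 : ∀ j, ‖(c j : ℂ) * σ (v' j)‖ ≤ H * ‖σ (v' j)‖ := fun j => by
        rw [norm_mul, Complex.norm_intCast]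
        refine mul_le_mul_of_nonneg_right ?_ (norm_nonneg _)
        have := hc j
        rw [← Int.cast_abs, Int.abs_eq_natAbs]
        exact_mod_cast this
      refine (Finset.sum_le_sum fun j _ => h3 j).trans ?_
      rw [← Finset.mul_sum]
      refine mul_le_mul_of_nonneg_left ?_ (by positivity)
      have := Finset.single_le_sum (f := fun σ : K →ₐ[ℚ] ℂ => ∑ j, ‖σ (v' j)‖)
        (fun σ _ => Finset.sum_nonneg fun j _ => norm_nonneg _) (Finset.mem_univ σ)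
      have hTd : T = 1 + ∑ σ : K →ₐ[ℚ] ℂ, ∑ j, ‖σ (v' j)‖ := rfl
      linarith
    rw [e, norm_mul, Complex.norm_intCast]
    calc |(D : ℝ)| * ‖∑ j, (c j : ℂ) * σ (v' j)‖ ≤ |(D : ℝ)| * (H * T) := mul_le_mul_of_nonneg_left h2 (abs_nonneg _)
      _ = (|(D : ℝ)| * T) * H := by ring
      _ ≤ C0 * H := mul_le_mul_of_nonneg_right hC0 (by positivity)
  have hDC : |(D : ℝ)| ≤ C0 := le_trans (by
    have := mul_le_mul_of_nonneg_left hT1 (abs_nonneg (D : ℝ)); linarith) hC0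
  have hH' : (1 : ℝ) ≤ H := by exact_mod_cast hH
  rw [← Finset.mul_prod_erase _ _ (Finset.mem_univ σ0), hσ0] at h1
  have hC1 : (1 : ℝ) ≤ ((C0 + n + 1 : ℕ) : ℝ) := by exact_mod_cast (by omega : 1 ≤ C0 + n + 1)
  have hC0C' : (C0 : ℝ) ≤ ((C0 + n + 1 : ℕ) : ℝ) := by exact_mod_cast (by omega : C0 ≤ C0 + n + 1)
  have hCH : (1 : ℝ) ≤ ((C0 + n + 1 : ℕ) : ℝ) * H := one_le_mul_of_one_le_of_one_le hC1 hH'
  have hC0C : (C0 : ℝ) * H ≤ ((C0 + n + 1 : ℕ) : ℝ) * H := mul_le_mul_of_nonneg_right hC0C' (by positivity)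
  have h2 : ∏ σ ∈ Finset.univ.erase σ0, ‖σ y‖ ≤ (((C0 + n + 1 : ℕ) : ℝ) * H) ^ (n - 1) := by
    have : (Finset.univ.erase σ0).card = n - 1 := by rw [Finset.card_erase_of_mem (Finset.mem_univ _), Finset.card_univ]
    rw [← this, ← Finset.prod_const]
    exact Finset.prod_le_prod (fun σ _ => norm_nonneg _) fun σ _ => (hσ σ).trans hC0C
  have hn : 0 < n := Fintype.card_pos_iff.2 ⟨σ0⟩
  have hDH : |(D : ℝ)| ≤ ((C0 + n + 1 : ℕ) : ℝ) * H :=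
    hDC.trans (hC0C'.trans (le_mul_of_one_le_right (by positivity) hH'))
  have h3 : |(D : ℝ)| * ∏ σ ∈ Finset.univ.erase σ0, ‖σ y‖ ≤ (((C0 + n + 1 : ℕ) : ℝ) * H) ^ (C0 + n + 1) := by
    calc |(D : ℝ)| * ∏ σ ∈ Finset.univ.erase σ0, ‖σ y‖
        ≤ (((C0 + n + 1 : ℕ) : ℝ) * H) * (((C0 + n + 1 : ℕ) : ℝ) * H) ^ (n - 1) :=
          mul_le_mul hDH h2 (Finset.prod_nonneg fun σ _ => norm_nonneg _) (by positivity)
      _ = (((C0 + n + 1 : ℕ) : ℝ) * H) ^ (n - 1 + 1) := by rw [pow_succ]; ring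
      _ ≤ _ := pow_le_pow_right₀ hCH (by omega)
  calc (1 : ℝ) ≤ |(D : ℝ)| * |(x : ℝ)| * ∏ σ ∈ Finset.univ.erase σ0, ‖σ y‖ := h1
    _ = (|(D : ℝ)| * ∏ σ ∈ Finset.univ.erase σ0, ‖σ y‖) * |(x : ℝ)| := by ring
    _ ≤ _ := mul_le_mul_of_nonneg_right h3 (abs_nonneg _)

end Pool.Agent.H46.Sc
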