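import Pool.Agent.H46.Sc.Geo
import Pool.Agent.H46.Sc.Alg1

/-! Real algebraic numbers can be approximated in polynomial time. -/

set_option autoImplicit false

namespace Pool.Agent.H46.Sc

open Function
open Pool.Agent.H46.CX

variable {α : Type} [Enc α]

theorem pt_qpow {x : α → ℚ} (hx : PT x) (k : ℕ) : PT fun a => x a ^ k := by
  induction k with
  | zero => exact (PT.const 1).congr fun a => pow_zero _
  | succ k ih => exact (pt_mul ih hx).congr fun a => pow_succ _ _

theorem pt_qeval (q : Polynomial ℚ) {x : α → ℚ} (hx : PT x) : PT fun a => q.eval (x a) :=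
  (pt_sum (F := fun (i : ℕ) a => q.coeff i * x a ^ i) (fun i => pt_mul (PT.const _) (pt_qpow hx i))
    (Finset.range (q.natDegree + 1))).congr fun a => Polynomial.eval_eq_sum_range _

/-- near a real algebraic number, comparison with it is a polynomial inequality -/
theorem exists_local (β : ℝ) (hβ : IsAlgebraic ℚ β) : ∃ (q : Polynomial ℚ) (l w : ℚ), 0 < w ∧ (l : ℝ) ≤ β ∧ β ≤ l + w ∧
    ∀ x : ℚ, l ≤ x → x ≤ l + w → (q.eval x ≤ 0 ↔ (x : ℝ) ≤ β) := by
  obtain ⟨q, hq0, hq1⟩ : ∃ q : Polynomial ℚ, Polynomial.aeval β q = 0 ∧ 0 < Polynomial.aeval β (Polynomial.derivative q) := by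
    have h1 := (minpoly.irreducible hβ.isIntegral).separable.aeval_derivative_ne_zero (minpoly.aeval ℚ β)
    rcases lt_or_gt_of_ne h1 with h | h
    · exact ⟨-minpoly ℚ β, by simp, by simpa using h⟩
    · exact ⟨minpoly ℚ β, minpoly.aeval _ _, h⟩
  have hcont : Continuous fun x : ℝ => Polynomial.aeval x (Polynomial.derivative q) :=
    Polynomial.continuous_aeval _
  have hnear : ∀ᶠ x in nhds β, 0 < Polynomial.aeval x (Polynomial.derivative q) :=
    hcont.continuousAt.eventually (lt_mem_nhds hq1)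
  obtain ⟨ε, hε, hball⟩ := Metric.eventually_nhds_iff.1 hnear
  obtain ⟨l, hl1, hl2⟩ := exists_rat_btwn (show β - ε < β by linarith)
  obtain ⟨r, hr1, hr2⟩ := exists_rat_btwn (show β < β + ε by linarith)
  have hlr : l < r := by exact_mod_cast hl2.trans hr1
  refine ⟨q, l, r - l, by linarith, hl2.le, by push_cast; linarith, fun x hx1 hx2 => ?_⟩
  have hmono : StrictMonoOn (fun x : ℝ => Polynomial.aeval x q) (Set.Icc (l : ℝ) r) := by
    refine strictMonoOn_of_deriv_pos (convex_Icc _ _) (Polynomial.continuous_aeval _).continuousOn fun x hx => ?_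
    rw [interior_Icc] at hx
    have hd : deriv (fun x : ℝ => Polynomial.aeval x q) x = Polynomial.aeval x (Polynomial.derivative q) :=
      Polynomial.deriv_aeval (q := q)
    rw [hd]
    refine hball ?_
    rw [Real.dist_eq, abs_lt]
    exact ⟨by linarith [hx.1], by linarith [hx.2]⟩
  have hx' : (x : ℝ) ∈ Set.Icc (l : ℝ) r := ⟨by exact_mod_cast hx1, by
    have : x ≤ r := by linarith
    exact_mod_cast this⟩
  have hb : β ∈ Set.Icc (l : ℝ) r := ⟨hl2.le, hr1.le⟩
  have := hmono.le_iff_le hx' hb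
  rw [← this, hq0]
  have e : Polynomial.aeval (x : ℝ) q = ((q.eval x : ℚ) : ℝ) := by
    have := Polynomial.aeval_algebraMap_apply (A := ℚ) ℝ x q
    simpa using this
  rw [e]
  exact ⟨fun h => by exact_mod_cast h, fun h => by exact_mod_cast h⟩

/-- bisection -/
noncomputable def bis (q : Polynomial ℚ) (l w : ℚ) (s : ℕ × ℕ) : ℕ × ℕ :=
  (2 * s.1, if q.eval (l + ((2 * s.2 + 1 : ℕ) : ℚ) * w / ((2 * s.1 : ℕ) : ℚ)) ≤ 0 then 2 * s.2 + 1 else 2 * s.2)

noncomputable def apx (q : Polynomial ℚ) (l w : ℚ) (k : ℕ) : ℚ :=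
  l + (((bis q l w)^[k] (1, 0)).2 : ℚ) * w / (((bis q l w)^[k] (1, 0)).1 : ℚ)

theorem exists_apx (β : ℝ) (hβ : IsAlgebraic ℚ β) : ∃ (r : ℕ → ℚ) (w : ℕ), (∀ k, |β - r k| ≤ w / 2 ^ k) ∧
    ∀ (α : Type) [Enc α] (k : α → ℕ), PT k → PB k → PT fun a => r (k a) := by
  obtain ⟨q, l, w, hw, hl, hr, hq⟩ := exists_local β hβ
  obtain ⟨W, hW⟩ := exists_nat_ge (w : ℝ)
  have hinv : ∀ k, ((bis q l w)^[k] (1, 0)).1 = 2 ^ k ∧ ((bis q l w)^[k] (1, 0)).2 < 2 ^ k ∧
      (l : ℝ) + (((bis q l w)^[k] (1, 0)).2 : ℝ) * w / 2 ^ k ≤ β ∧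
      β ≤ (l : ℝ) + ((((bis q l w)^[k] (1, 0)).2 : ℝ) + 1) * w / 2 ^ k := fun k => by
    induction k with
    | zero => simp; exact ⟨hl, hr⟩
    | succ k ih =>
      rw [iterate_succ_apply']
      obtain ⟨h1, h2, h3, h4⟩ := ih
      generalize (bis q l w)^[k] (1, 0) = s at *
      obtain ⟨D, a⟩ := s
      simp only at h1 h2 h3 h4
      subst h1
      unfold bis
      simp only
      have hp : (0 : ℚ) < 2 ^ k := by positivity
      have hm := hq (l + ((2 * a + 1 : ℕ) : ℚ) * w / ((2 * 2 ^ k : ℕ) : ℚ)) (by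
        have : (0 : ℚ) ≤ ((2 * a + 1 : ℕ) : ℚ) * w / ((2 * 2 ^ k : ℕ) : ℚ) := by positivity
        linarith) (by
        have : ((2 * a + 1 : ℕ) : ℚ) * w / ((2 * 2 ^ k : ℕ) : ℚ) ≤ w := by
          rw [div_le_iff₀ (by positivity), mul_comm w]
          refine mul_le_mul_of_nonneg_right ?_ hw.le
          exact_mod_cast (by omega : 2 * a + 1 ≤ 2 * 2 ^ k)
        linarith)
      have hp' : (0 : ℝ) < 2 ^ k := by positivity
      refine ⟨by rw [pow_succ]; ring, ?_, ?_⟩
      · rw [pow_succ]; split_ifs <;> omega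
      · split_ifs with hc
        · have := hm.1 hc
          push_cast at this ⊢
          refine ⟨?_, ?_⟩
          · convert this using 2
            rw [pow_succ]; ring
          · refine h4.trans (le_of_eq ?_)
            rw [pow_succ]; field_simp; ring
        · have := not_le.1 (fun h' => hc (hm.2 h'))
          push_cast at this ⊢
          refine ⟨?_, ?_⟩
          · refine le_trans (le_of_eq ?_) h3
            rw [pow_succ]; field_simp
          · refine this.le.trans (le_of_eq ?_)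
            rw [pow_succ]; field_simp
  refine ⟨apx q l w, W, fun k => ?_, fun α _ k hk hb => ?_⟩
  · obtain ⟨h1, h2, h3, h4⟩ := hinv k
    unfold apx
    have hp' : (0 : ℝ) < 2 ^ k := by positivity
    rw [h1]
    push_cast
    rw [abs_le]
    have e : (l : ℝ) + ((((bis q l w)^[k] (1, 0)).2 : ℝ) + 1) * w / 2 ^ k =
      (l : ℝ) + (((bis q l w)^[k] (1, 0)).2 : ℝ) * w / 2 ^ k + w / 2 ^ k := by ring
    rw [e] at h4
    have h5 : (w : ℝ) / 2 ^ k ≤ W / 2 ^ k := div_le_div_of_nonneg_right hW hp'.le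
    have h6 : (0 : ℝ) ≤ (W : ℝ) / 2 ^ k := by positivity
    exact ⟨by linarith, by linarith⟩
  · have h1 : PT fun s : ℕ × ℕ => bis q l w s := by
      unfold bis
      have h2 : PT fun s : ℕ × ℕ => q.eval (l + ((2 * s.2 + 1 : ℕ) : ℚ) * w / ((2 * s.1 : ℕ) : ℚ)) :=
        pt_qeval q (by fun_prop)
      exact PT.pair (by fun_prop) (PT.ite (pt_le (k := fun _ => inferInstance) h2 (PT.const _)) (by fun_prop) (by fun_prop))
    have h3 : PT fun a => (bis q l w)^[k a] (1, 0) :=
      PT.iterate (F := fun (_ : α) => bis q l w) (i := fun _ => ((1, 0) : ℕ × ℕ)) (n := k)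
        (B := fun a => 6 * k a + 20) (h1.comp PT.snd') (PT.const _) hk hb (by fun_prop) fun a j hj => by
          obtain ⟨h1, h2, -, -⟩ := hinv j
          have e1 : CX.size ((bis q l w)^[j] (1, 0)).1 ≤ 3 * (k a + 1) + 2 := by
            rw [h1]
            exact size_nat_of_lt (Nat.pow_lt_pow_right (by norm_num) (by omega))
          have e2 : CX.size ((bis q l w)^[j] (1, 0)).2 ≤ 3 * k a + 2 :=
            size_nat_of_lt (h2.trans_le (Nat.pow_le_pow_right (by norm_num) hj))
          rw [← Prod.mk.eta (p := (bis q l w)^[j] (1, 0)), size_pair]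
          omega
    unfold apx
    fun_prop

end Pool.Agent.H46.Sc
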