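import Pool.Agent.H46.Sc.Alg2

/-! The sign of a rational combination of fixed real algebraic numbers is decidable in polynomial time. -/

set_option autoImplicit false

namespace Pool.Agent.H46.Sc

open Function
open Pool.Agent.H46.CX
open Pool.Agent.H46.MS

variable {α ι : Type} [Enc α] [Fintype ι]

theorem size_rat (q : ℚ) : q.num.natAbs < 2 ^ CX.size q ∧ q.den < 2 ^ CX.size q := by
  have e : CX.size q = CX.size (q.num, q.den) := rfl
  have e2 : CX.size q.num = CX.size (decide (q.num < 0), q.num.natAbs) := rfl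
  rw [size_pair] at e
  rw [size_pair] at e2
  refine ⟨(lt_two_pow_size _).trans_le (Nat.pow_le_pow_right (by norm_num) (by omega)),
    (lt_two_pow_size _).trans_le (Nat.pow_le_pow_right (by norm_num) (by omega))⟩

theorem pt_nsum {F : ι → α → ℕ} (h : ∀ j, PT (F j)) (S : Finset ι) : PT fun a => ∑ j ∈ S, F j a := by
  classical
  induction S using Finset.induction_on with
  | empty => exact (PT.const 0).congr fun a => by simp
  | insert j S hj ih => exact (PT.add (h j) ih).congr fun a => Finset.sum_insert hj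

theorem pb_nsum {F : ι → α → ℕ} (h : ∀ j, PB (F j)) (S : Finset ι) : PB fun a => ∑ j ∈ S, F j a := by
  classical
  induction S using Finset.induction_on with
  | empty => exact (PB.const 0).mono fun a => by simp
  | insert j S hj ih => exact ((h j).add ih).mono fun a => (Finset.sum_insert hj).le

/-- the lower bound for rational combinations, in terms of the encoding length -/
theorem exists_lower_rat (v : ι → ℝ) (hv : ∀ j, IsAlgebraic ℚ (v j)) : ∃ C : ℕ, ∀ c : ι → ℚ,
    ∑ j, (c j : ℝ) * v j ≠ 0 →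
    1 ≤ 2 ^ ((C + ∑ j, CX.size (c j)) * C + ∑ j, CX.size (c j)) * |∑ j, (c j : ℝ) * v j| := by
  classical
  obtain ⟨C, hC1, hC⟩ := exists_lower v hv
  refine ⟨C, fun c hc => ?_⟩
  set S := ∑ j, CX.size (c j) with hS
  let Q : ℕ := ∏ j, (c j).den
  let A : ι → ℤ := fun j => (c j).num * ∏ i ∈ Finset.univ.erase j, ((c i).den : ℤ)
  have hQ0 : 0 < Q := Finset.prod_pos fun j _ => (c j).den_pos
  have hAQ : ∀ j, (A j : ℝ) = (c j : ℝ) * Q := fun j => by
    have h1 : (Q : ℝ) = ((c j).den : ℝ) * ∏ i ∈ Finset.univ.erase j, ((c i).den : ℝ) := by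
      simp only [Q]
      rw [← Finset.mul_prod_erase _ _ (Finset.mem_univ j)]
      push_cast; rfl
    have h2 : (c j : ℝ) * (c j).den = (c j).num := by
      exact_mod_cast Rat.mul_den_eq_num (c j)
    simp only [A]
    push_cast
    rw [h1, ← mul_assoc, h2]
  have hQ : Q ≤ 2 ^ S := by
    rw [hS, ← Finset.prod_pow_eq_pow_sum]
    exact Finset.prod_le_prod' fun j _ => (size_rat (c j)).2.le
  have hA : ∀ j, (A j).natAbs ≤ 2 ^ S := fun j => by
    have h1 : (A j).natAbs = (c j).num.natAbs * ∏ i ∈ Finset.univ.erase j, (c i).den := by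
      simp only [A]
      rw [Int.natAbs_mul]
      congr 1
      rw [← Nat.cast_prod, Int.natAbs_natCast]
    rw [h1, hS, ← Finset.prod_pow_eq_pow_sum, ← Finset.mul_prod_erase _ _ (Finset.mem_univ j)]
    exact Nat.mul_le_mul (size_rat (c j)).1.le (Finset.prod_le_prod' fun i _ => (size_rat (c i)).2.le)
  have hsum : ∑ j, (A j : ℝ) * v j = (∑ j, (c j : ℝ) * v j) * Q := by
    rw [Finset.sum_mul]
    exact Finset.sum_congr rfl fun j _ => by rw [hAQ j]; ring
  have hQr : (0 : ℝ) < Q := by exact_mod_cast hQ0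
  have h1 := hC A (2 ^ S) Nat.one_le_two_pow hA (by rw [hsum]; exact mul_ne_zero hc hQr.ne')
  rw [hsum, abs_mul, abs_of_pos hQr] at h1
  have h2 : ((C : ℝ) * ((2 ^ S : ℕ) : ℝ)) ^ C ≤ 2 ^ ((C + S) * C) := by
    rw [pow_mul]
    refine pow_le_pow_left₀ (by positivity) ?_ _
    rw [pow_add]
    push_cast
    refine mul_le_mul_of_nonneg_right ?_ (by positivity)
    exact_mod_cast Nat.lt_two_pow_self.le
  have hQ' : (Q : ℝ) ≤ 2 ^ S := by exact_mod_cast hQ
  calc (1 : ℝ) ≤ ((C : ℝ) * ((2 ^ S : ℕ) : ℝ)) ^ C * (|∑ j, (c j : ℝ) * v j| * Q) := h1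
    _ ≤ 2 ^ ((C + S) * C) * (|∑ j, (c j : ℝ) * v j| * 2 ^ S) :=
      mul_le_mul h2 (mul_le_mul_of_nonneg_left hQ' (abs_nonneg _)) (by positivity) (by positivity)
    _ = _ := by rw [pow_add]; ring

open Classical in
theorem pt_sign (v : ι → ℝ) (hv : ∀ j, IsAlgebraic ℚ (v j)) {c : ι → α → ℚ} (hc : ∀ j, PT (c j)) :
    PT fun a => decide (0 ≤ ∑ j, (c j a : ℝ) * v j) := by
  obtain ⟨C, hC⟩ := exists_lower_rat v hv
  choose r w hr hpt using fun j => exists_apx (v j) (hv j)
  set W := ∑ j, w j with hW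
  let S : α → ℕ := fun a => ∑ j, CX.size (c j a)
  let K : α → ℕ := fun a => (C + S a) * C + S a
  let K' : α → ℕ := fun a => K a + S a + W + 2
  have hSpt : PT S := pt_nsum (F := fun j a => CX.size (c j a)) (fun j => PT.size (hc j)) _
  have hSpb : PB S := pb_nsum (F := fun j a => CX.size (c j a)) (fun j => PB.size (hc j)) _
  have hKpt : PT K := by simp only [K]; fun_prop
  have hKpb : PB K := by simp only [K]; fun_prop
  have hK'pt : PT K' := by simp only [K']; fun_prop
  have hK'pb : PB K' := by simp only [K']; fun_prop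
  have hR : PT fun a => ∑ j, c j a * r j (K' a) :=
    pt_sum (F := fun j a => c j a * r j (K' a)) (fun j => pt_mul (hc j) (hpt j α K' hK'pt hK'pb)) _
  have hP : PT fun a => (-1 : ℚ) / ((2 ^ (K a + 1) : ℕ) : ℚ) :=
    pt_div (PT.const _) (pt_natCast (PT.pow (PT.const _) (by fun_prop) (by fun_prop)))
  refine (pt_le (k := fun _ => inferInstance) hP hR).congr fun a => ?_
  rw [Bool.eq_iff_iff, decide_eq_true_eq, decide_eq_true_eq]
  -- the approximation error
  have hcb : ∀ j, |(c j a : ℝ)| ≤ 2 ^ S a := fun j => by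
    have h1 : |(c j a : ℝ)| ≤ ((c j a).num.natAbs : ℝ) := by
      rw [Rat.cast_def, abs_div, Nat.abs_cast]
      have hd : (1 : ℝ) ≤ (c j a).den := by exact_mod_cast (c j a).den_pos
      have e : |((c j a).num : ℝ)| = ((c j a).num.natAbs : ℝ) := by
        rw [← Int.cast_abs, Int.abs_eq_natAbs]; rfl
      rw [e]
      exact div_le_self (by positivity) hd
    have h2 : CX.size (c j a) ≤ S a := Finset.single_le_sum (f := fun j => CX.size (c j a)) (fun _ _ => Nat.zero_le _)
      (Finset.mem_univ j)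
    refine h1.trans ?_
    have h3 : (c j a).num.natAbs ≤ 2 ^ S a := (size_rat (c j a)).1.le.trans (Nat.pow_le_pow_right (by norm_num) h2)
    exact_mod_cast h3
  have herr : |∑ j, (c j a : ℝ) * v j - ∑ j, (c j a : ℝ) * (r j (K' a) : ℝ)| ≤ 1 / 2 ^ (K a + 2) := by
    rw [← Finset.sum_sub_distrib]
    refine (Finset.abs_sum_le_sum_abs _ _).trans ?_
    have h1 : ∀ j, |(c j a : ℝ) * v j - (c j a : ℝ) * (r j (K' a) : ℝ)| ≤ 2 ^ S a * (w j / 2 ^ K' a) := fun j => by
      rw [← mul_sub, abs_mul]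
      exact mul_le_mul (hcb j) (hr j _) (abs_nonneg _) (by positivity)
    refine (Finset.sum_le_sum fun j _ => h1 j).trans ?_
    rw [← Finset.mul_sum, ← Finset.sum_div]
    have h2 : ∑ j, (w j : ℝ) ≤ 2 ^ W := by
      rw [← Nat.cast_sum, ← hW]
      exact_mod_cast Nat.lt_two_pow_self.le
    have h3 : (2 : ℝ) ^ K' a = 2 ^ (K a + 2) * (2 ^ S a * 2 ^ W) := by
      simp only [K']; rw [← pow_add, ← pow_add]; congr 1; ring
    rw [h3]
    calc (2 : ℝ) ^ S a * ((∑ j, (w j : ℝ)) / (2 ^ (K a + 2) * (2 ^ S a * 2 ^ W)))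
        ≤ (2 : ℝ) ^ S a * (2 ^ W / (2 ^ (K a + 2) * (2 ^ S a * 2 ^ W))) :=
          mul_le_mul_of_nonneg_left (div_le_div_of_nonneg_right h2 (by positivity)) (by positivity)
      _ = 1 / 2 ^ (K a + 2) := by field_simp
  have hcast : (-1 : ℚ) / ((2 ^ (K a + 1) : ℕ) : ℚ) ≤ ∑ j, c j a * r j (K' a) ↔
      -(1 / 2 ^ (K a + 1) : ℝ) ≤ ∑ j, (c j a : ℝ) * (r j (K' a) : ℝ) := by
    rw [← Rat.cast_le (K := ℝ)]
    push_cast
    rw [neg_div]
  rw [hcast]
  rw [abs_le] at herr
  have hp1 : (1 : ℝ) / 2 ^ (K a + 1) = 2 * (1 / 2 ^ (K a + 2)) := by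
    rw [pow_succ, pow_succ, pow_succ]; field_simp
  have hp2 : (1 : ℝ) / 2 ^ K a = 4 * (1 / 2 ^ (K a + 2)) := by
    rw [pow_succ, pow_succ]; field_simp; norm_num
  have hp0 : (0 : ℝ) < 1 / 2 ^ (K a + 2) := by positivity
  constructor
  · intro h
    rw [hp1]; linarith [herr.1, herr.2]
  · intro h
    by_contra hneg
    rw [not_le] at hneg
    have h1 := hC (fun j => c j a) hneg.ne
    rw [abs_of_neg hneg] at h1
    have h2 : (1 : ℝ) / 2 ^ K a ≤ -∑ j, (c j a : ℝ) * v j := by
      rw [div_le_iff₀ (by positivity)]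
      have : (2 : ℝ) ^ ((C + ∑ j, CX.size (c j a)) * C + ∑ j, CX.size (c j a)) = 2 ^ K a := rfl
      rw [this] at h1
      linarith
    rw [hp1] at h
    rw [hp2] at h2
    linarith [herr.1, herr.2]

theorem comparable_of_alg {s f : ℕ} {g : Fin f → Fin s → ℝ} (hg : ∀ i j, IsAlgebraic ℚ (g i j)) : Comparable g := by
  classical
  refine ⟨fun i => ⟨fun z => decide (0 ≤ ∑ j : Option (Fin s), ((j.elim (-z.2) z.1 : ℚ) : ℝ) * j.elim 1 (g i)), ?_, fun z => ?_⟩,
    fun i k => ⟨fun z => decide (0 ≤ ∑ j : Fin s ⊕ Fin s, ((Sum.elim z.2 (fun j => -z.1 j) j : ℚ) : ℝ) *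
      Sum.elim (g k) (g i) j), ?_, fun z => ?_⟩⟩
  · refine pt_sign (ι := Option (Fin s)) (fun j => j.elim 1 (g i)) (fun j => ?_)
      (c := fun j (z : (Fin s → ℚ) × ℚ) => j.elim (-z.2) z.1) fun j => ?_
    · rcases j with _ | j
      · exact isAlgebraic_one
      · exact hg i j
    · rcases j with _ | j
      · exact pt_neg PT.snd'
      · exact pt_coord PT.fst' j
  · rw [decide_eq_true_eq, Fintype.sum_option]
    simp only [Option.elim_none, Option.elim_some, mul_one, Rat.cast_neg]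
    have : ∑ j, (z.1 j : ℝ) * g i j = ∑ j, g i j * (z.1 j : ℝ) := Finset.sum_congr rfl fun j _ => mul_comm _ _
    rw [this]
    constructor <;> intro h <;> linarith
  · refine pt_sign (ι := Fin s ⊕ Fin s) (fun j => Sum.elim (g k) (g i) j) (fun j => ?_)
      (c := fun j (z : (Fin s → ℚ) × (Fin s → ℚ)) => Sum.elim z.2 (fun j => -z.1 j) j) fun j => ?_
    · rcases j with j | j
      · exact hg k j
      · exact hg i j
    · rcases j with j | j
      · exact pt_coord PT.snd' j
      · exact pt_neg (pt_coord PT.fst' j)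
  · rw [decide_eq_true_eq, Fintype.sum_sum_type]
    simp only [Sum.elim_inl, Sum.elim_inr, Rat.cast_neg]
    have h1 : ∑ j, (z.2 j : ℝ) * g k j = ∑ j, g k j * (z.2 j : ℝ) := Finset.sum_congr rfl fun j _ => mul_comm _ _
    have h2 : ∑ j, -(z.1 j : ℝ) * g i j = -∑ j, g i j * (z.1 j : ℝ) := by
      rw [← Finset.sum_neg_distrib]; exact Finset.sum_congr rfl fun j _ => by ring
    rw [h1, h2]
    constructor <;> intro h <;> linarith

end Pool.Agent.H46.Sc
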