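import Pool.Agent.H46.Sc.PTm

/-! Interval orders given as Boolean relations: positions by counting. -/

set_option autoImplicit false
set_option linter.unusedSectionVars false

namespace Pool.Agent.H46.Sc

open Function Relation
open Pool.Agent.H46.CX
open Pos (code code_inj)

theorem countP_lt {α : Type} {p q : α → Bool} {l : List α} (h : ∀ z ∈ l, p z = true → q z = true) {x : α} (hx : x ∈ l)
    (hp : p x = false) (hq : q x = true) : l.countP p < l.countP q := by
  induction l with
  | nil => simp at hx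
  | cons y l ih =>
    have hm := List.countP_mono_left fun z hz => h z (List.mem_cons_of_mem _ hz)
    rw [List.countP_cons, List.countP_cons]
    rcases List.mem_cons.1 hx with rfl | hx
    · simp [hp, hq]; omega
    · have := ih (fun z hz => h z (List.mem_cons_of_mem _ hz)) hx
      have hy := h y List.mem_cons_self
      cases h1 : p y <;> cases h2 : q y <;> simp_all

/-- an interval order on `0, …, n - 1` -/
structure Val (A : ℕ → ℕ → Bool) (n : ℕ) : Prop where
  irr : ∀ p < n, A p p = false
  fer : ∀ p < n, ∀ q < n, ∀ p' < n, ∀ q' < n, A p q = true → A p' q' = true → A p q' = true ∨ A p' q = true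

def dg (A : ℕ → ℕ → Bool) (n p : ℕ) : ℕ := (List.range n).countP fun q => A p q
def ug (A : ℕ → ℕ → Bool) (n q : ℕ) : ℕ := (List.range n).countP fun p => A p q

variable {A : ℕ → ℕ → Bool} {n : ℕ}

theorem Val.dg_lt (h : Val A n) {p p' q : ℕ} (hp : p < n) (hp' : p' < n) (hq : q < n) (h1 : A p q = true)
    (h2 : A p' q = false) : dg A n p' < dg A n p :=
  countP_lt (fun z hz hz' => (h.fer p hp q hq p' hp' z (List.mem_range.1 hz) h1 hz').resolve_right (by simp [h2]))
    (List.mem_range.2 hq) h2 h1

theorem Val.ug_lt (h : Val A n) {p q q' : ℕ} (hp : p < n) (hq : q < n) (hq' : q' < n) (h1 : A p q = true)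
    (h2 : A p q' = false) : ug A n q' < ug A n q :=
  countP_lt (fun z hz hz' => (h.fer z (List.mem_range.1 hz) q' hq' p hp q hq hz' h1).resolve_right (by simp [h2]))
    (List.mem_range.2 hp) h2 h1

/-- the order of the `2 n` items of a line -/
def slt (A : ℕ → ℕ → Bool) (n : ℕ) (x y : ℕ × Bool) : Prop :=
  if x.2 then (if y.2 then dg A n x.1 < dg A n y.1 ∨ (dg A n x.1 = dg A n y.1 ∧ x.1 < y.1) else A x.1 y.1 = false)
  else (if y.2 then A y.1 x.1 = true else ug A n y.1 < ug A n x.1 ∨ (ug A n x.1 = ug A n y.1 ∧ x.1 < y.1))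

theorem slt_irr (x : ℕ × Bool) : ¬ slt A n x x := by
  obtain ⟨p, b⟩ := x
  cases b <;> simp [slt]

theorem Val.slt_trans (h : Val A n) {x y z : ℕ × Bool} (hx : x.1 < n) (hy : y.1 < n) (hz : z.1 < n)
    (h1 : slt A n x y) (h2 : slt A n y z) : slt A n x z := by
  obtain ⟨p, a⟩ := x; obtain ⟨q, b⟩ := y; obtain ⟨r, c⟩ := z
  have d1 := fun u v w hu hv hw => h.dg_lt (p := u) (p' := v) (q := w) hu hv hw
  have u1 := fun u v w hu hv hw => h.ug_lt (p := u) (q := v) (q' := w) hu hv hw
  dsimp only at hx hy hz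
  cases a <;> cases b <;> cases c <;> simp only [slt, if_true, Bool.false_eq_true, if_false] at h1 h2 ⊢
  · omega
  · by_contra h3
    have := u1 r q p hz hy hx h2 (by simpa using h3)
    omega
  · have := u1 q p r hy hx hz h1 h2
    omega
  · by_contra h3
    have := d1 q r p hy hz hx h1 (by simpa using h3)
    omega
  · by_contra h3
    have := u1 p r q hx hz hy (by simpa using h3) h1
    omega
  · have := d1 r p q hz hx hy h2 h1
    omega
  · by_contra h3
    have := d1 p q r hx hy hz (by simpa using h3) h2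
    omega
  · omega

theorem slt_total {x y : ℕ × Bool} (h : x ≠ y) : slt A n x y ∨ slt A n y x := by
  obtain ⟨p, a⟩ := x; obtain ⟨q, b⟩ := y
  cases a <;> cases b <;> simp only [slt, if_true, Bool.false_eq_true, if_false]
  · have : p ≠ q := fun e => h (by rw [e])
    omega
  · cases A q p <;> simp
  · cases A p q <;> simp
  · have : p ≠ q := fun e => h (by rw [e])
    omega

def items (n : ℕ) : List (ℕ × Bool) := List.range n ×ˢ [true, false]

theorem mem_items {x : ℕ × Bool} : x ∈ items n ↔ x.1 < n := by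
  obtain ⟨p, b⟩ := x
  simp only [items, List.mem_product, List.mem_range]
  cases b <;> simp

theorem length_items : (items n).length = 2 * n := by
  rw [items, List.length_product, List.length_range]; simp [mul_comm]

open Classical in
noncomputable def rank (A : ℕ → ℕ → Bool) (n : ℕ) (x : ℕ × Bool) : ℕ := (items n).countP fun z => decide (slt A n z x)

theorem Val.rank_lt (h : Val A n) {x y : ℕ × Bool} (hx : x.1 < n) (hy : y.1 < n) (h1 : slt A n x y) :
    rank A n x < rank A n y := by
  classical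
  refine countP_lt (fun z hz hz' => ?_) (mem_items.2 hx) ?_ ?_
  · simp only [decide_eq_true_eq] at hz' ⊢
    exact h.slt_trans (mem_items.1 hz) hx hy hz' h1
  · simpa using slt_irr x
  · simpa using h1

theorem Val.rank_lt_iff (h : Val A n) {x y : ℕ × Bool} (hx : x.1 < n) (hy : y.1 < n) :
    rank A n x < rank A n y ↔ slt A n x y := by
  refine ⟨fun h1 => ?_, h.rank_lt hx hy⟩
  by_contra h2
  rcases eq_or_ne x y with rfl | h3
  · exact lt_irrefl _ h1
  · exact absurd (h.rank_lt hy hx ((slt_total h3).resolve_left h2)) (by omega)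

theorem Val.rank_inj (h : Val A n) {x y : ℕ × Bool} (hx : x.1 < n) (hy : y.1 < n) (e : rank A n x = rank A n y) :
    x = y := by
  by_contra h3
  rcases slt_total (A := A) (n := n) h3 with h4 | h4
  · exact absurd (h.rank_lt hx hy h4) (by omega)
  · exact absurd (h.rank_lt hy hx h4) (by omega)

theorem rank_lt' {x : ℕ × Bool} (hx : x.1 < n) : rank A n x < 2 * n := by
  classical
  have h1 : rank A n x < (items n).countP fun _ => true :=
    countP_lt (fun _ _ _ => rfl) (mem_items.2 hx) (by simpa using slt_irr x) rfl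
  rw [List.countP_true, length_items] at h1
  exact h1

noncomputable def dpt (A : ℕ → ℕ → Bool) (n : ℕ) (b : Bool) (p : ℕ) : ℕ :=
  if b then 2 * n - 1 - rank A n (p, true) else rank A n (p, false)

variable {f : ℕ}

noncomputable def mkPos (A : Fin f → ℕ → ℕ → Bool) (h : ∀ i, Val (A i) n) : Pos (Fin n) f where
  T := 2 * n
  d r p := dpt (A r.1) n r.2 p
  lt r p := by
    have := rank_lt' (A := A r.1) (x := (p.1, false)) p.2
    have := p.2
    unfold dpt; split_ifs <;> omega
  inj r p q e := by
    have h1 := rank_lt' (A := A r.1) (x := (p.1, true)) p.2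
    have h2 := rank_lt' (A := A r.1) (x := (q.1, true)) q.2
    unfold dpt at e
    split_ifs at e
    · exact Fin.ext (congrArg Prod.fst ((h r.1).rank_inj (x := (p.1, true)) (y := (q.1, true)) p.2 q.2 (by omega)))
    · exact Fin.ext (congrArg Prod.fst ((h r.1).rank_inj (x := (p.1, false)) (y := (q.1, false)) p.2 q.2 e))
  ne r p q e := by
    obtain ⟨i, b⟩ := r
    have h1 := rank_lt' (A := A i) (x := (p.1, true)) p.2
    have h2 := rank_lt' (A := A i) (x := (q.1, true)) q.2
    cases b <;> simp only [dpt, bar, Bool.not_false, Bool.not_true, if_true, Bool.false_eq_true, if_false] at e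
    · have := (h i).rank_inj (x := (p.1, false)) (y := (q.1, true)) p.2 q.2 (by omega)
      simp at this
    · have := (h i).rank_inj (x := (p.1, true)) (y := (q.1, false)) p.2 q.2 (by omega)
      simp at this
  self r p := by
    obtain ⟨i, b⟩ := r
    have h1 := rank_lt' (A := A i) (x := (p.1, true)) p.2
    have h2 : rank (A i) n (p.1, true) < rank (A i) n (p.1, false) := by
      refine (h i).rank_lt p.2 p.2 ?_
      simp [slt, (h i).irr p.1 p.2]
    cases b <;> simp only [dpt, bar, Bool.not_false, Bool.not_true, if_true, Bool.false_eq_true, if_false] <;> omega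

theorem mkPos_adj {A : Fin f → ℕ → ℕ → Bool} (h : ∀ i, Val (A i) n) (p q : Fin n) :
    (mkPos A h).Adj p q ↔ ∃ i, A i p q = true ∨ A i q p = true := by
  have key : ∀ (i : Fin f) (p q : Fin n), dpt (A i) n true p + dpt (A i) n false q < 2 * n ↔ A i p q = true := by
    intro i p q
    have h1 := rank_lt' (A := A i) (x := (p.1, true)) p.2
    have h2 := (h i).rank_lt_iff (x := (q.1, false)) (y := (p.1, true)) q.2 p.2
    have h3 : rank (A i) n (q.1, false) ≠ rank (A i) n (p.1, true) := fun e => by
      have := (h i).rank_inj (x := (q.1, false)) (y := (p.1, true)) q.2 p.2 e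
      simp at this
    have h4 : slt (A i) n (q.1, false) (p.1, true) ↔ A i p q = true := by simp [slt]
    rw [← h4, ← h2]
    simp only [dpt, if_true, Bool.false_eq_true, if_false]
    omega
  unfold Pos.Adj
  show (∃ r : Role f, dpt (A r.1) n r.2 p + dpt (A (bar r).1) n (bar r).2 q < 2 * n) ↔ _
  constructor
  · rintro ⟨⟨i, b⟩, hr⟩
    cases b <;> simp only [bar, Bool.not_false, Bool.not_true] at hr
    · exact ⟨i, Or.inr ((key i q p).1 (by omega))⟩
    · exact ⟨i, Or.inl ((key i p q).1 hr)⟩
  · rintro ⟨i, hi | hi⟩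
    · exact ⟨(i, true), (key i p q).2 hi⟩
    · refine ⟨(i, false), ?_⟩
      have := (key i q p).2 hi
      simp only [bar, Bool.not_false]
      omega

def dec (f : ℕ) (c : Fin (2 * f)) : Role f := (⟨c.1 / 2, by omega⟩, decide (c.1 % 2 = 1))

theorem dec_code (X : Role f) (h : code X < 2 * f) : dec f ⟨code X, h⟩ = X := by
  apply code_inj
  show 2 * (code X / 2) + (decide (code X % 2 = 1)).toNat = code X
  by_cases e : code X % 2 = 1
  · simp [e]; omega
  · simp [e]; omega

noncomputable def tabOf (A : Fin f → ℕ → ℕ → Bool) (n : ℕ) : List (List ℕ) :=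
  List.ofFn fun c : Fin (2 * f) => (List.range n).map fun p => dpt (A (dec f c).1) n (dec f c).2 p

theorem ok_mkPos {A : Fin f → ℕ → ℕ → Bool} (h : ∀ i, Val (A i) n) : Ok (mkPos A h) (tabOf A n) := by
  refine ⟨rfl, fun X p => ?_⟩
  unfold dd tabOf
  rw [List.getD_eq_getElem?_getD (i := code X), List.getElem?_ofFn, dif_pos (code_lt X), Option.getD_some, dec_code,
    List.getD_eq_getElem?_getD, List.getElem?_map, List.getElem?_range p.2]
  rfl

/-- deciding Hamiltonicity of a union of comparability graphs of interval orders -/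
theorem acc_tabOf {A : Fin f → ℕ → ℕ → Bool} (h : ∀ i, Val (A i) n) (hn : 0 < n) (hf : 0 < f) :
    Acc f (tabOf A n) n ↔ Ham fun p q : Fin n => ∃ i, A i p q = true ∨ A i q p = true := by
  rw [acc_iff (ok_mkPos h) hn (⟨0, hf⟩, true)]
  have : (mkPos A h).Adj = fun p q : Fin n => ∃ i, A i p q = true ∨ A i q p = true := by
    funext p q; exact propext (mkPos_adj h p q)
  rw [this]

/-! ### polynomial time -/

variable {α β : Type} [Enc α] [Enc β]

theorem pt_ofFn : ∀ {k : ℕ} {F : Fin k → α → β}, (∀ c, PT (F c)) → PT fun a => List.ofFn fun c => F c a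
  | 0, _, _ => (PT.const []).congr fun a => by simp
  | k + 1, F, h => ((h 0).cons (pt_ofFn fun c => h c.succ)).congr fun a => by rw [List.ofFn_succ]

section
open Classical
variable {A : α → ℕ → ℕ → Bool} {n : α → ℕ} (hA : PT fun p : α × ℕ × ℕ => A p.1 p.2.1 p.2.2) (hn : PT n) (hb : PB n)
include hA hn hb

theorem pt_rank {x : α → ℕ × Bool} (hx : PT x) : PT fun a => rank (A a) (n a) (x a) := by
  have hA' : ∀ {γ : Type} [Enc γ] {u : γ → α} {p q : γ → ℕ}, PT u → PT p → PT q → PT fun c => A (u c) (p c) (q c) :=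
    fun hu hp hq => hA.comp (hu.pair (hp.pair hq))
  have hdg : ∀ {γ : Type} [Enc γ] {u : γ → α} {p : γ → ℕ}, PT u → PT p → PT fun c => dg (A (u c)) (n (u c)) (p c) :=
    fun hu hp => by
      unfold dg
      exact PT.countP (hA' (by fun_prop) (by fun_prop) (by fun_prop)) (PT.range (hn.comp hu) (hb.comp hu))
  have hug : ∀ {γ : Type} [Enc γ] {u : γ → α} {p : γ → ℕ}, PT u → PT p → PT fun c => ug (A (u c)) (n (u c)) (p c) :=
    fun hu hp => by
      unfold ug
      exact PT.countP (hA' (by fun_prop) (by fun_prop) (by fun_prop)) (PT.range (hn.comp hu) (hb.comp hu))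
  have hs : PT fun p : α × (ℕ × Bool) × (ℕ × Bool) => decide (slt (A p.1) (n p.1) p.2.1 p.2.2) := by
    have e1 := hA' (γ := α × (ℕ × Bool) × (ℕ × Bool)) (u := fun p => p.1) (p := fun p => p.2.1.1) (q := fun p => p.2.2.1)
      (by fun_prop) (by fun_prop) (by fun_prop)
    have e2 := hA' (γ := α × (ℕ × Bool) × (ℕ × Bool)) (u := fun p => p.1) (p := fun p => p.2.2.1) (q := fun p => p.2.1.1)
      (by fun_prop) (by fun_prop) (by fun_prop)
    have e3 := hdg (γ := α × (ℕ × Bool) × (ℕ × Bool)) (u := fun p => p.1) (p := fun p => p.2.1.1) (by fun_prop) (by fun_prop)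
    have e4 := hdg (γ := α × (ℕ × Bool) × (ℕ × Bool)) (u := fun p => p.1) (p := fun p => p.2.2.1) (by fun_prop) (by fun_prop)
    have e5 := hug (γ := α × (ℕ × Bool) × (ℕ × Bool)) (u := fun p => p.1) (p := fun p => p.2.1.1) (by fun_prop) (by fun_prop)
    have e6 := hug (γ := α × (ℕ × Bool) × (ℕ × Bool)) (u := fun p => p.1) (p := fun p => p.2.2.1) (by fun_prop) (by fun_prop)
    have : PT fun p : α × (ℕ × Bool) × (ℕ × Bool) => if p.2.1.2 = true then
        (if p.2.2.2 = true then decide (dg (A p.1) (n p.1) p.2.1.1 < dg (A p.1) (n p.1) p.2.2.1 ∨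
          (dg (A p.1) (n p.1) p.2.1.1 = dg (A p.1) (n p.1) p.2.2.1 ∧ p.2.1.1 < p.2.2.1)) else
          decide (A p.1 p.2.1.1 p.2.2.1 = false))
        else (if p.2.2.2 = true then decide (A p.1 p.2.2.1 p.2.1.1 = true) else
          decide (ug (A p.1) (n p.1) p.2.2.1 < ug (A p.1) (n p.1) p.2.1.1 ∨
          (ug (A p.1) (n p.1) p.2.1.1 = ug (A p.1) (n p.1) p.2.2.1 ∧ p.2.1.1 < p.2.2.1))) := by
      fun_prop
    refine this.congr fun p => ?_
    rw [Bool.eq_iff_iff, decide_eq_true_eq]
    unfold slt
    split_ifs <;> simp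
  unfold rank
  refine PT.countP (F := fun a z => decide (slt (A a) (n a) z (x a))) (hs.comp (g := fun p : α × ℕ × Bool => (p.1, p.2, x p.1)) (by fun_prop)) ?_
  unfold items; fun_prop

theorem pt_dpt {p : α → ℕ} (hp : PT p) (b : Bool) : PT fun a => dpt (A a) (n a) b (p a) := by
  have h1 := pt_rank hA hn hb (x := fun a => (p a, true)) (by fun_prop)
  have h2 := pt_rank hA hn hb (x := fun a => (p a, false)) (by fun_prop)
  cases b
  · exact h2.congr fun a => rfl
  · have : PT fun a => 2 * n a - 1 - rank (A a) (n a) (p a, true) := by fun_prop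
    exact this.congr fun a => rfl

end

theorem pt_tabOf {A : Fin f → α → ℕ → ℕ → Bool} {n : α → ℕ} (hA : ∀ i, PT fun p : α × ℕ × ℕ => A i p.1 p.2.1 p.2.2)
    (hn : PT n) (hb : PB n) : PT fun a => tabOf (fun i => A i a) (n a) := by
  unfold tabOf
  refine pt_ofFn (F := fun c a => (List.range (n a)).map fun p => dpt (A (dec f c).1 a) (n a) (dec f c).2 p) fun c => ?_
  refine PT.map (F := fun a p => dpt (A (dec f c).1 a) (n a) (dec f c).2 p) ?_ (by fun_prop)
  exact pt_dpt (α := α × ℕ) (A := fun x => A (dec f c).1 x.1) (n := fun x => n x.1)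
    ((hA _).comp (g := fun p : (α × ℕ) × ℕ × ℕ => (p.1.1, p.2)) (by fun_prop)) (by fun_prop) (hb.comp PT.fst')
    PT.snd' _

open Classical in
theorem pt_accA {A : Fin f → α → ℕ → ℕ → Bool} {n : α → ℕ} (hA : ∀ i, PT fun p : α × ℕ × ℕ => A i p.1 p.2.1 p.2.2)
    (hn : PT n) (hb : PB n) : PT fun a => decide (Acc f (tabOf (fun i => A i a) (n a)) (n a)) :=
  pt_Acc (pt_tabOf hA hn hb) hn hb

end Pool.Agent.H46.Sc
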