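import Pool.Agent.H46.Sc.HamList
import Pool.Agent.H46.Sc.Rank

/-! Hamiltonian paths with prescribed ends, via one extra vertex and one extra line. -/

set_option autoImplicit false
set_option linter.unusedSectionVars false

namespace Pool.Agent.H46.Sc

open Function
open Pool.Agent.H46.CX

theorem chain_imp_mem {α : Type} {R S : α → α → Prop} : ∀ {l : List α}, List.IsChain R l →
    (∀ x ∈ l, ∀ y ∈ l, R x y → S x y) → List.IsChain S l
  | [], _, _ => List.IsChain.nil
  | [_], _, _ => List.IsChain.singleton _
  | a :: b :: l, h, hi => by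
    rw [List.isChain_cons_cons] at h ⊢
    exact ⟨hi _ (by simp) _ (by simp) h.1, chain_imp_mem h.2 fun x hx y hy => hi x (List.mem_cons_of_mem _ hx) y
      (List.mem_cons_of_mem _ hy)⟩

variable {f : ℕ}

/-- one extra vertex, joined exactly to the first two vertices of the list `l` -/
def aug (A : Fin f → ℕ → ℕ → Bool) (l : List ℕ) (i : Fin (f + 1)) (x y : ℕ) : Bool :=
  if h : i.1 < f then decide (x < l.length) && decide (y < l.length) && A ⟨i.1, h⟩ (l.getD x 0) (l.getD y 0)
  else decide (x = l.length) && decide (y < 2)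

def AdjA (A : Fin f → ℕ → ℕ → Bool) (x y : ℕ) : Prop := ∃ i, A i x y = true ∨ A i y x = true

/-- there is a Hamiltonian path from `u` to `v` through all of `S` -/
def HP (R : ℕ → ℕ → Prop) (u v : ℕ) (S : List ℕ) : Prop := ∃ p : List ℕ, p.Perm S ∧ List.IsChain R (u :: (p ++ [v]))

variable {A : Fin f → ℕ → ℕ → Bool} {n : ℕ}

theorem val_aug (h : ∀ i, Val (A i) n) {l : List ℕ} (hl : ∀ x ∈ l, x < n) (hl2 : 2 ≤ l.length) (i : Fin (f + 1)) :
    Val (aug A l i) (l.length + 1) := by
  have hg : ∀ x < l.length, l.getD x 0 < n := fun x hx => by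
    rw [List.getD_eq_getElem _ _ hx]; exact hl _ (List.getElem_mem hx)
  unfold aug
  by_cases hi : i.1 < f
  · simp only [hi, dif_pos]
    refine ⟨fun p hp => ?_, fun p _ q _ p' _ q' _ h1 h2 => ?_⟩
    · by_cases hp' : p < l.length
      · simp only [hp', decide_true, Bool.true_and]; exact (h _).irr _ (hg p hp')
      · simp [hp']
    · simp only [Bool.and_eq_true, decide_eq_true_eq] at h1 h2 ⊢
      rcases (h _).fer _ (hg p h1.1.1) _ (hg q h1.1.2) _ (hg p' h2.1.1) _ (hg q' h2.1.2) h1.2 h2.2 with h3 | h3
      · exact Or.inl ⟨⟨h1.1.1, h2.1.2⟩, h3⟩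
      · exact Or.inr ⟨⟨h2.1.1, h1.1.2⟩, h3⟩
  · simp only [hi, dif_neg, not_false_eq_true]
    refine ⟨fun p hp => ?_, fun p _ q _ p' _ q' _ h1 h2 => ?_⟩
    · simp; omega
    · simp only [Bool.and_eq_true, decide_eq_true_eq] at h1 h2 ⊢
      exact Or.inl ⟨h1.1, h2.2⟩

theorem adjA_symm {x y : ℕ} : AdjA A x y ↔ AdjA A y x := exists_congr fun _ => or_comm

theorem aug_inner {l : List ℕ} {x y : ℕ} (hx : x < l.length) (hy : y < l.length) :
    AdjA (aug A l) x y ↔ AdjA A (l.getD x 0) (l.getD y 0) := by
  unfold AdjA aug
  constructor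
  · rintro ⟨i, hi⟩
    by_cases h : i.1 < f
    · simp only [h, dif_pos, hx, hy, decide_true, Bool.true_and] at hi
      exact ⟨_, hi⟩
    · simp only [h, dif_neg, not_false_eq_true, Bool.and_eq_true, decide_eq_true_eq] at hi
      omega
  · rintro ⟨i, hi⟩
    refine ⟨i.castSucc, ?_⟩
    have h : (i.castSucc).1 < f := i.2
    simp only [h, dif_pos, hx, hy, decide_true, Bool.true_and]
    exact hi

theorem aug_outer {l : List ℕ} {x : ℕ} (hx : x < l.length) :
    AdjA (aug A l) l.length x ↔ x < 2 := by
  unfold AdjA aug
  constructor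
  · rintro ⟨i, hi⟩
    by_cases h : i.1 < f
    · simp [h] at hi
    · simp only [h, dif_neg, not_false_eq_true, Bool.and_eq_true, decide_eq_true_eq] at hi
      omega
  · intro h
    exact ⟨Fin.last f, by simp [h]⟩

theorem ham_aug_iff {u v : ℕ} {S : List ℕ} (hnd : (u :: v :: S).Nodup) :
    (Ham fun p q : Fin ((u :: v :: S).length + 1) => AdjA (aug A (u :: v :: S)) p q) ↔ HP (AdjA A) u v S := by
  classical
  set l := u :: v :: S with hl
  have hm : 2 ≤ l.length := by simp [hl]
  let w : Fin (l.length + 1) := Fin.last _
  have hlast : ∀ x : Fin (l.length + 1), x ≠ w → x.1 < l.length := fun x hx => by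
    have : x.1 ≠ l.length := fun e => hx (Fin.ext e)
    have := x.2
    omega
  rw [ham_iff_list _ w]
  constructor
  · rintro ⟨c, h1, h2, h3⟩
    have hcw : ∀ x ∈ c, x ≠ w := fun x hx e => (List.nodup_cons.1 h1).1 (e ▸ hx)
    have hclt : ∀ x ∈ c, x.1 < l.length := fun x hx => hlast x (hcw x hx)
    have hperm : c.Perm ((List.finRange l.length).map Fin.castSucc) := by
      refine (List.perm_ext_iff_of_nodup (List.nodup_cons.1 h1).2 ?_).2 fun x => ?_
      · exact (List.nodup_finRange _).map (Fin.castSucc_injective _)
      · constructor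
        · intro hx
          exact List.mem_map.2 ⟨⟨x.1, hclt x hx⟩, List.mem_finRange _, rfl⟩
        · intro hx
          obtain ⟨y, -, rfl⟩ := List.mem_map.1 hx
          refine (List.mem_cons.1 (h2 _)).resolve_left fun e => ?_
          have := congrArg Fin.val e
          simp [w] at this
          have := y.2
          omega
    have hmap : (c.map fun x => l.getD x.1 0).Perm l := by
      refine (hperm.map _).trans ?_
      rw [List.map_map]
      refine List.Perm.of_eq ?_
      refine List.ext_getElem (by simp) fun i h1 h2 => ?_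
      simp [List.getElem?_eq_getElem h2]
    have hlen : c.length = l.length := by simpa using hmap.length_eq
    obtain ⟨a, c1, rfl⟩ : ∃ a c1, c = a :: c1 := List.exists_cons_of_ne_nil (by rintro rfl; rw [← hlen] at hm; simp at hm)
    obtain ⟨mid, b, rfl⟩ : ∃ mid b, c1 = mid ++ [b] := by
      rcases List.eq_nil_or_concat c1 with rfl | ⟨mid, b, rfl⟩
      · rw [← hlen] at hm; simp at hm
      · exact ⟨mid, b, by simp⟩
    have h4 : AdjA (aug A l) l.length a.1 := by
      have := h3
      simp only [List.cons_append, List.isChain_cons_cons] at this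
      exact this.1
    have h5 : AdjA (aug A l) b.1 l.length := by
      have : List.IsChain (fun p q : Fin (l.length + 1) => AdjA (aug A l) p q) ((w :: a :: mid) ++ ([b] ++ [w])) := by
        simpa using h3
      have := this.right_of_append
      rw [List.singleton_append, List.isChain_cons_cons] at this
      exact this.1
    have h6 : List.IsChain (fun p q : Fin (l.length + 1) => AdjA (aug A l) p q) (a :: (mid ++ [b])) := by
      have : List.IsChain (fun p q : Fin (l.length + 1) => AdjA (aug A l) p q) ([w] ++ (a :: (mid ++ [b])) ++ [w]) := by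
        simpa using h3
      exact this.left_of_append.right_of_append
    have ha := hclt a (by simp)
    have hb := hclt b (by simp)
    rw [aug_outer ha] at h4
    rw [adjA_symm, aug_outer hb] at h5
    have hab : a.1 ≠ b.1 := fun e => by
      have : a = b := Fin.ext e
      subst this
      simp at h1
    have h7 : List.IsChain (AdjA A) ((a :: (mid ++ [b])).map fun x => l.getD x.1 0) := by
      rw [List.isChain_map]
      exact chain_imp_mem h6 fun x hx y hy h => (aug_inner (hclt x hx) (hclt y hy)).1 h
    have g0 : l.getD 0 0 = u := by simp [hl]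
    have g1 : l.getD 1 0 = v := by simp [hl]
    rcases (by omega : a.1 = 0 ∧ b.1 = 1 ∨ a.1 = 1 ∧ b.1 = 0) with ⟨e1, e2⟩ | ⟨e1, e2⟩
    · refine ⟨mid.map fun x => l.getD x.1 0, ?_, ?_⟩
      · simp only [List.map_cons, List.map_append, List.map_nil, e1, e2, hl] at hmap
        have h8 := (List.perm_cons _).1 hmap
        have h9 := (List.perm_append_singleton v (mid.map fun x : Fin (l.length + 1) => (u :: v :: S).getD x.1 0)).symm.trans h8
        exact (List.perm_cons _).1 h9
      · simpa only [List.map_cons, List.map_append, List.map_nil, e1, e2, g0, g1] using h7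
    · refine ⟨(mid.map fun x => l.getD x.1 0).reverse, (List.reverse_perm _).trans ?_, ?_⟩
      · simp only [List.map_cons, List.map_append, List.map_nil, e1, e2, hl] at hmap
        have h8 : (v :: u :: (mid.map fun x : Fin (l.length + 1) => (u :: v :: S).getD x.1 0)).Perm (u :: v :: S) :=
          ((List.perm_append_singleton u _).symm.cons v).trans hmap
        have h9 := (List.Perm.swap v u _).trans h8
        exact (List.perm_cons _).1 ((List.perm_cons _).1 h9)
      · have h8 : List.IsChain (AdjA A) ((a :: (mid ++ [b])).map fun x => l.getD x.1 0).reverse := by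
          rw [List.isChain_reverse]
          exact h7.imp fun x y h => adjA_symm.1 h
        simpa only [List.map_cons, List.map_append, List.map_nil, e1, e2, g0, g1, List.reverse_cons,
          List.reverse_append, List.reverse_nil, List.nil_append, List.cons_append] using h8
  · rintro ⟨p, h1, h2⟩
    have hp : (u :: (p ++ [v])).Perm l := by
      rw [hl]
      exact ((List.perm_append_singleton v p).trans (h1.cons v)).cons u
    let ψ : ℕ → Fin (l.length + 1) := fun x => ⟨l.idxOf x, by have := List.idxOf_le_length (a := x) (l := l); omega⟩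
    have hψ : ∀ x ∈ l, (ψ x).1 < l.length ∧ l.getD (ψ x).1 0 = x := fun x hx => by
      have : l.idxOf x < l.length := List.idxOf_lt_length_iff.2 hx
      exact ⟨this, by rw [List.getD_eq_getElem _ _ this]; exact List.getElem_idxOf this⟩
    refine ⟨(u :: (p ++ [v])).map ψ, ?_, fun y => ?_, ?_⟩
    · rw [List.nodup_cons]
      refine ⟨fun h => ?_, ?_⟩
      · obtain ⟨x, hx, e⟩ := List.mem_map.1 h
        have := (hψ x (hp.mem_iff.1 hx)).1
        rw [e] at this
        simp [w] at this
      · refine List.Nodup.map_on (fun x hx y hy e => ?_) (hp.nodup_iff.2 hnd)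
        rw [← (hψ x (hp.mem_iff.1 hx)).2, ← (hψ y (hp.mem_iff.1 hy)).2, e]
    · by_cases e : y = w
      · simp [e]
      · have hy := hlast y e
        refine List.mem_cons_of_mem _ (List.mem_map.2 ⟨l[y.1], hp.mem_iff.2 (List.getElem_mem hy), ?_⟩)
        exact Fin.ext (List.Nodup.idxOf_getElem hnd _ hy)
    · have e0 : (ψ u).1 = 0 := by simp [ψ, hl]
      have e1 : (ψ v).1 = 1 := by
        have : u ≠ v := fun e => by simp [e, hl] at hnd
        simp [ψ, hl, List.idxOf_cons_ne, this]
      have hc : List.IsChain (fun p q : Fin (l.length + 1) => AdjA (aug A l) p q) ((u :: (p ++ [v])).map ψ) := by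
        rw [List.isChain_map]
        refine chain_imp_mem h2 fun x hx y hy h => ?_
        obtain ⟨h3, h4⟩ := hψ x (hp.mem_iff.1 hx)
        obtain ⟨h5, h6⟩ := hψ y (hp.mem_iff.1 hy)
        rw [aug_inner h3 h5, h4, h6]; exact h
      have hwu : AdjA (aug A l) w.1 (ψ u).1 := (aug_outer (by omega)).2 (by omega)
      have hvw : AdjA (aug A l) (ψ v).1 w.1 := adjA_symm.1 ((aug_outer (by omega)).2 (by omega))
      rw [List.cons_append, List.isChain_cons]
      refine ⟨fun y hy => ?_, ?_⟩
      · simp at hy; subst hy; exact hwu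
      · rw [List.isChain_append]
        refine ⟨hc, List.IsChain.singleton _, fun x hx y hy => ?_⟩
        have hgl : ((u :: (p ++ [v])).map ψ).getLast? = some (ψ v) := by
          rw [← List.cons_append, List.map_append]
          exact List.getLast?_concat
        rw [hgl, Option.mem_def, Option.some.injEq] at hx
        simp at hy
        subst hx hy
        exact hvw

end Pool.Agent.H46.Sc
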