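import Pool.Agent.H46.Sc.Exch

/-! A sweep with few exceptional points. -/

set_option autoImplicit false
set_option linter.unusedSectionVars false

namespace Pool.Agent.H46.Sc

open Finset Function

variable {V : Type} {f : ℕ}

namespace Pos

section
variable (D : Pos V f)

def own (a : Role f → ℕ) (r : Role f) (p : V) : Prop := D.d r p < a r
def opp (a : Role f → ℕ) (r : Role f) (p : V) : Prop := D.T ≤ D.d r p + a (bar r)
def prc (a : Role f → ℕ) (r : Role f) (p : V) : Prop := D.own a r p ∨ D.opp a r p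
def dne (a : Role f → ℕ) (p : V) : Prop := (∃ r, D.own a r p) ∨ ∀ r, D.prc a r p

/-- the point `p` with roles `r`, `s` is exceptional -/
def Exc (a : Role f → ℕ) (p : V) (r s : Role f) : Prop :=
  ¬((D.dne a p ∧ D.prc a r p ∧ D.prc a s p) ∨ (¬D.dne a p ∧ ¬D.prc a r p ∧ ¬D.prc a s p))

def Src (a : Role f → ℕ) (κ : V × Bool → Role f) (X : Role f) (p : V) : Prop :=
  D.own a X p ∨ (D.opp a (bar X) p ∧ ∃ b, κ (p, b) = bar X)

end

def code (X : Role f) : ℕ := 2 * X.1 + X.2.toNat

theorem code_inj {X Y : Role f} (h : code X = code Y) : X = Y := by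
  obtain ⟨i, b⟩ := X; obtain ⟨j, c⟩ := Y
  simp only [code] at h
  have := Bool.toNat_lt b; have := Bool.toNat_lt c
  have h1 : i = j := by ext; omega
  subst h1
  cases b <;> cases c <;> simp at h ⊢

section
variable (D : Pos V f)
def IsSrc (a : Role f → ℕ) (κ : V × Bool → Role f) (X : Role f) (p : V) : Prop :=
  D.Src a κ X p ∧ ∀ Y, D.Src a κ Y p → code X ≤ code Y
end

variable {D : Pos V f} {a : Role f → ℕ} {κ : V × Bool → Role f}

theorem IsSrc.eq {X Y : Role f} {p : V} (h : D.IsSrc a κ X p) (h' : D.IsSrc a κ Y p) : X = Y :=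
  code_inj (le_antisymm (h.2 _ h'.1) (h'.2 _ h.1))

theorem Src.exists_isSrc {X : Role f} {p : V} (h : D.Src a κ X p) : ∃ Y, D.IsSrc a κ Y p := by
  classical
  obtain ⟨Y, h1, h2⟩ := exists_min_image (univ.filter fun Y => D.Src a κ Y p) code ⟨X, by simpa using h⟩
  simp only [mem_filter, mem_univ, true_and] at h1 h2
  exact ⟨Y, h1, h2⟩

theorem Exc.exists_src {p : V} (h : D.Exc a p (κ (p, false)) (κ (p, true))) : ∃ Y, D.IsSrc a κ Y p := by
  by_cases h1 : ∃ b, D.prc a (κ (p, b)) p
  · obtain ⟨b, h1 | h1⟩ := h1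
    · exact Src.exists_isSrc (X := κ (p, b)) (Or.inl h1)
    · exact Src.exists_isSrc (X := bar (κ (p, b))) (Or.inr ⟨by simpa using h1, b, by simp⟩)
  · push Not at h1
    have h2 : D.dne a p := by
      by_contra h2
      exact h (Or.inr ⟨h2, h1 _, h1 _⟩)
    rcases h2 with ⟨r, h2⟩ | h2
    · exact Src.exists_isSrc (X := r) (Or.inl h2)
    · exact absurd (h2 _) (h1 false)

/-- an exceptional point with source `X` gives rise to an arc of the exchange digraph -/
theorem arc_type {p : V} {X : Role f} (h : D.Exc a p (κ (p, false)) (κ (p, true))) (hX : D.Src a κ X p) :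
    ∃ (m : Bool) (Y : Role f) (b : Bool), D.Pas a X m p ∧ ¬ D.Pas a Y m p ∧ a Y + a (bar Y) < D.T ∧
      κ (p, b) = (if m then Y else bar X) := by
  have hb : ∀ b, (D.dne a p ∧ D.prc a (κ (p, b)) p ∧ D.prc a (κ (p, !b)) p) → False := fun b hh => by
    cases b
    · exact h (Or.inl hh)
    · exact h (Or.inl ⟨hh.1, hh.2.2, hh.2.1⟩)
  rcases hX with h1 | ⟨h1, b, h2⟩
  · have : ∃ b, ¬ D.prc a (κ (p, b)) p := by
      by_contra h3; push Not at h3
      exact hb false ⟨Or.inl ⟨_, h1⟩, h3 _, h3 _⟩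
    obtain ⟨b, hb⟩ := this
    refine ⟨true, κ (p, b), b, h1, fun h3 => hb (Or.inl h3), ?_, rfl⟩
    simp only [prc, own, opp, not_or, not_lt, not_le] at hb
    omega
  · have : ∃ r, ¬ D.prc a r p := by
      by_contra h3; push Not at h3
      exact hb false ⟨Or.inr h3, h3 _, h3 _⟩
    obtain ⟨r, hr⟩ := this
    refine ⟨false, bar r, b, by simpa [Pas, opp] using h1, fun h3 => hr (Or.inr ?_), ?_, h2⟩
    · simpa [Pas, opp] using h3
    · simp only [prc, own, opp, not_or, not_lt, not_le, bar_bar] at hr ⊢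
      omega

theorem pick4 [DecidableEq V] (S : Finset V) (hS : 4 ≤ S.card) (F G : V → ℕ) (hF : Injective F) (hG : Injective G) :
    ∃ p : Fin 4 → V, Injective p ∧ (∀ k, p k ∈ S) ∧ F (p 1) < F (p 2) ∧ F (p 1) < F (p 3) ∧ F (p 2) < F (p 0) ∧
      F (p 3) < F (p 0) ∧ G (p 2) < G (p 3) := by
  obtain ⟨x, hx, hx'⟩ := exists_min_image S F (card_pos.1 (by omega))
  have c1 := card_erase_of_mem hx
  obtain ⟨y, hy, hy'⟩ := exists_max_image (S.erase x) F (card_pos.1 (by omega))
  have c2 := card_erase_of_mem hy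
  obtain ⟨z, hz, w, hw, hzw⟩ := one_lt_card.1 (show 1 < ((S.erase x).erase y).card by omega)
  have key : ∀ z w, z ∈ (S.erase x).erase y → w ∈ (S.erase x).erase y → G z < G w → ∃ p : Fin 4 → V, Injective p ∧
      (∀ k, p k ∈ S) ∧ F (p 1) < F (p 2) ∧ F (p 1) < F (p 3) ∧ F (p 2) < F (p 0) ∧
      F (p 3) < F (p 0) ∧ G (p 2) < G (p 3) := by
    intro z w hz hw h
    simp only [mem_erase] at hz hw hy
    have l1 : F x < F z := lt_of_le_of_ne (hx' _ hz.2.2) fun e => hz.2.1 (hF e.symm)
    have l2 : F x < F w := lt_of_le_of_ne (hx' _ hw.2.2) fun e => hw.2.1 (hF e.symm)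
    have l3 : F z < F y := lt_of_le_of_ne (hy' _ (by simp [hz])) fun e => hz.1 (hF e)
    have l4 : F w < F y := lt_of_le_of_ne (hy' _ (by simp [hw])) fun e => hw.1 (hF e)
    refine ⟨![y, x, z, w], ?_, ?_, l1, l2, l3, l4, h⟩
    · have e : Injective (F ∘ ![y, x, z, w]) ∨ True := Or.inr trivial
      intro i j hij
      have hzw : z ≠ w := fun e => by rw [e] at h; exact lt_irrefl _ h
      have := hz.1; have := hz.2.1; have := hw.1; have := hw.2.1; have := hy.1
      fin_cases i <;> fin_cases j <;> simp at hij ⊢ <;> first | exact absurd hij (by assumption) | exact absurd hij.symm (by assumption)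
    · intro k; fin_cases k <;> simp [hz.2.2, hw.2.2, hy.2, hx]
  rcases lt_or_gt_of_ne (fun e => hzw (hG e) : G z ≠ G w) with h | h
  · exact key z w hz hw h
  · exact key w z hw hz h

variable [Fintype V]

open Classical in
/-- exceptional points with source `X` -/
noncomputable def E (D : Pos V f) (a : Role f → ℕ) (κ : V × Bool → Role f) (X : Role f) : Finset V :=
  univ.filter fun p => D.Exc a p (κ (p, false)) (κ (p, true)) ∧ D.IsSrc a κ X p

theorem exists_arc {X : Role f} (hX : 24 * f ^ 2 < (D.E a κ X).card) :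
    ∃ Y, a Y + a (bar Y) < D.T ∧ ∃ A : Arc D κ a X Y, Injective A.p ∧ ∀ k, A.p k ∈ D.E a κ X := by
  classical
  have h1 : ∀ p ∈ D.E a κ X, ∃ t : Bool × Role f × Role f, ∃ b : Bool, D.Pas a X t.1 p ∧ ¬ D.Pas a t.2.1 t.1 p ∧
      a t.2.1 + a (bar t.2.1) < D.T ∧ κ (p, b) = (if t.1 then t.2.1 else bar X) ∧ κ (p, !b) = t.2.2 := by
    intro p hp
    simp only [E, mem_filter, mem_univ, true_and] at hp
    obtain ⟨m, Y, b, h1, h2, h3, h4⟩ := arc_type hp.1 hp.2.1
    exact ⟨(m, Y, κ (p, !b)), b, h1, h2, h3, h4, rfl⟩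
  have : Nonempty (Bool × Role f × Role f) := ⟨(true, X, X)⟩
  choose! t b ht using h1
  obtain ⟨τ, -, hτ⟩ := exists_lt_card_fiber_of_mul_lt_card_of_maps_to (s := D.E a κ X) (t := univ) (f := t) (n := 3)
    (fun _ _ => mem_univ _) (by simp [Fintype.card_prod]; nlinarith)
  obtain ⟨m, Y, o⟩ := τ
  obtain ⟨p, hp, hS, h12, h13, h20, h30, hl⟩ := pick4 _ hτ (D.d o) (D.d (if m then Y else bar X))
    (fun x y h => D.inj _ _ _ h) (fun x y h => D.inj _ _ _ h)
  simp only [mem_filter] at hS
  have hk := fun k => ht (p k) (hS k).1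
  simp only [(hS _).2] at hk
  exact ⟨Y, (hk 0).2.2.1, ⟨m, if m then Y else bar X, if m then X else bar Y, o, p, fun k => b (p k), rfl, rfl,
    fun k => (hk k).2.2.2.1, fun k => (hk k).2.2.2.2, fun k => (hk k).1, fun k => (hk k).2.1, h12, h13, h20, h30, hl⟩,
    hp, fun k => (hS k).1⟩

/-- minimal total depth among the connected feasible assignments -/
structure Opt (D : Pos V f) (κ : V × Bool → Role f) : Prop where
  feas : D.Feas κ
  conn : D.Conn κ
  min : ∀ κ', D.Feas κ' → D.Conn κ' → ∑ h, D.d (κ h) h.1 ≤ ∑ h, D.d (κ' h) h.1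

theorem Opt.exists_small (h : Opt D κ) (haT : ∀ X, a X ≤ D.T) {X₀ : Role f} (h0 : a X₀ + a (bar X₀) < D.T) :
    ∃ X, a X + a (bar X) < D.T ∧ (D.E a κ X).card ≤ 24 * f ^ 2 := by
  classical
  by_contra hcon
  push Not at hcon
  have h1 : ∀ X : {X : Role f // a X + a (bar X) < D.T}, ∃ Y : {X : Role f // a X + a (bar X) < D.T},
      ∃ A : Arc D κ a X.1 Y.1, Injective A.p ∧ ∀ k, A.p k ∈ D.E a κ X.1 := fun X => by
    obtain ⟨Y, hY, A, hA⟩ := exists_arc (hcon X.1 X.2)
    exact ⟨⟨Y, hY⟩, A, hA⟩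
  choose nxt A hA using h1
  have hne : (periodicPts nxt).Nonempty := by
    obtain ⟨i, j, hij, e⟩ := Finite.exists_ne_map_eq_of_infinite fun k : ℕ => nxt^[k] ⟨X₀, h0⟩
    have key : ∀ i j : ℕ, i < j → nxt^[i] ⟨X₀, h0⟩ = nxt^[j] ⟨X₀, h0⟩ → (periodicPts nxt).Nonempty := fun i j hij e => by
      refine ⟨nxt^[i] ⟨X₀, h0⟩, mk_mem_periodicPts (n := j - i) (by omega) ?_⟩
      rw [IsPeriodicPt, IsFixedPt, ← iterate_add_apply, e]
      congr 2; omega
    rcases lt_or_gt_of_ne hij with h | h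
    · exact key i j h e
    · exact key j i h e.symm
  have : Nonempty (periodicPts nxt) := hne.to_subtype
  let σ : Equiv.Perm (periodicPts nxt) := (bijOn_periodicPts nxt).equiv nxt
  obtain ⟨κ', hf, hc, hlt⟩ := exchange (κ := κ) (a := a) σ (fun j => j.1.1) (fun j => A j.1) (fun j j' k k' e => by
      have e1 := (hA j.1).2 k
      have e2 := (hA j'.1).2 k'
      rw [← e] at e2
      simp only [E, mem_filter, mem_univ, true_and] at e1 e2
      have h3 := e1.2.eq e2.2
      have h4 : j = j' := Subtype.ext (Subtype.ext h3)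
      subst h4
      exact ⟨rfl, (hA j.1).1 e⟩) (fun j => haT _) h.feas h.conn
  exact absurd (h.min κ' hf hc) (not_le.2 hlt)

/-- a state of the sweep with few exceptional points -/
structure Gd (D : Pos V f) (κ : V × Bool → Role f) (a : Role f → ℕ) : Prop where
  le : ∀ X, a X + a (bar X) ≤ D.T
  card : ∀ X, (D.E a κ X).card ≤ 24 * f ^ 2 + 1

theorem own_update {X r : Role f} {p : V} : D.own (update a X (a X + 1)) r p ↔ D.own a r p ∨ (r = X ∧ D.d X p = a X) := by
  unfold own
  by_cases h : r = X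
  · subst h; simp; omega
  · simp [h]

theorem opp_update {X r : Role f} {p : V} : D.opp (update a X (a X + 1)) r p ↔
    D.opp a r p ∨ (r = bar X ∧ D.d (bar X) p + a X + 1 = D.T) := by
  unfold opp
  by_cases h : r = bar X
  · subst h; simp; omega
  · have : bar r ≠ X := fun e => h (by rw [← e, bar_bar])
    simp [h, this]

/-- the point that sits at the next depth of `X` -/
def Nxt (D : Pos V f) (a : Role f → ℕ) (X : Role f) (p : V) : Prop := D.d X p = a X ∨ D.d (bar X) p + a X + 1 = D.T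

theorem Nxt.eq {X : Role f} {p q : V} (hp : D.Nxt a X p) (hq : D.Nxt a X q) : p = q := by
  have h1 := D.ne X p q
  have h2 := D.ne X q p
  rcases hp with hp | hp <;> rcases hq with hq | hq
  · exact D.inj X _ _ (by omega)
  · omega
  · omega
  · exact D.inj (bar X) _ _ (by omega)

theorem prc_mono {a' : Role f → ℕ} (h : ∀ X, a X ≤ a' X) {r : Role f} {p : V} (hp : D.prc a r p) : D.prc a' r p := by
  unfold prc own opp at *; have := h r; have := h (bar r); omega
theorem dne_mono {a' : Role f → ℕ} (h : ∀ X, a X ≤ a' X) {p : V} (hp : D.dne a p) : D.dne a' p :=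
  hp.imp (fun ⟨r, hr⟩ => ⟨r, hr.trans_le (h r)⟩) fun hr r => prc_mono h (hr r)
theorem le_update (X : Role f) (Y : Role f) : a Y ≤ update a X (a X + 1) Y := by
  by_cases h : Y = X
  · subst h; simp
  · simp [h]

theorem own_congr {X : Role f} {p : V} (hp : ¬D.Nxt a X p) (r : Role f) : D.own (update a X (a X + 1)) r p ↔ D.own a r p := by
  rw [own_update]; unfold Nxt at hp; tauto
theorem opp_congr {X : Role f} {p : V} (hp : ¬D.Nxt a X p) (r : Role f) : D.opp (update a X (a X + 1)) r p ↔ D.opp a r p := by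
  rw [opp_update]; unfold Nxt at hp; tauto
theorem prc_congr {X : Role f} {p : V} (hp : ¬D.Nxt a X p) (r : Role f) : D.prc (update a X (a X + 1)) r p ↔ D.prc a r p := by
  unfold prc; rw [own_congr hp, opp_congr hp]
theorem dne_congr {X : Role f} {p : V} (hp : ¬D.Nxt a X p) : D.dne (update a X (a X + 1)) p ↔ D.dne a p := by
  unfold dne; simp only [own_congr hp, prc_congr hp]
theorem Exc_congr {X : Role f} {p : V} (hp : ¬D.Nxt a X p) (r s : Role f) :
    D.Exc (update a X (a X + 1)) p r s ↔ D.Exc a p r s := by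
  unfold Exc; simp only [dne_congr hp, prc_congr hp]
theorem Src_congr {X : Role f} {p : V} (hp : ¬D.Nxt a X p) (Y : Role f) :
    D.Src (update a X (a X + 1)) κ Y p ↔ D.Src a κ Y p := by
  unfold Src; simp only [own_congr hp, opp_congr hp]
theorem Src_of_ne {X Y : Role f} {p : V} (h : Y ≠ X) : D.Src (update a X (a X + 1)) κ Y p ↔ D.Src a κ Y p := by
  unfold Src
  rw [own_update, opp_update]
  simp [h, bar_inj]
theorem Src_mono {X Y : Role f} {p : V} (h : D.Src a κ Y p) : D.Src (update a X (a X + 1)) κ Y p := by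
  unfold Src at *
  rw [own_update, opp_update]
  tauto
theorem IsSrc_congr {X : Role f} {p : V} (hp : ¬D.Nxt a X p) (Y : Role f) :
    D.IsSrc (update a X (a X + 1)) κ Y p ↔ D.IsSrc a κ Y p := by
  unfold IsSrc; simp only [Src_congr hp]

theorem E_update_ne {X Y : Role f} (h : Y ≠ X) : D.E (update a X (a X + 1)) κ Y ⊆ D.E a κ Y := by
  intro p hp
  simp only [E, mem_filter, mem_univ, true_and] at hp ⊢
  obtain ⟨h1, h2, h3⟩ := hp
  have h2' := (Src_of_ne h).1 h2
  refine ⟨fun h4 => ?_, h2', fun Z hZ => h3 Z (Src_mono hZ)⟩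
  rcases h4 with ⟨h5, h6, h7⟩ | ⟨h5, h6, h7⟩
  · exact h1 (Or.inl ⟨dne_mono (le_update X) h5, prc_mono (le_update X) h6, prc_mono (le_update X) h7⟩)
  · rcases h2' with h8 | ⟨h8, b, h9⟩
    · exact h5 (Or.inl ⟨_, h8⟩)
    · have h10 : D.prc a (κ (p, b)) p := by rw [h9]; exact Or.inr h8
      cases b
      · exact h6 h10
      · exact h7 h10

theorem E_update_self (X : Role f) : (D.E (update a X (a X + 1)) κ X).card ≤ (D.E a κ X).card + 1 := by
  classical
  by_cases h : ∃ q, D.Nxt a X q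
  · obtain ⟨q, hq⟩ := h
    refine (card_le_card (t := insert q (D.E a κ X)) fun p hp => ?_).trans (card_insert_le _ _)
    by_cases hpq : p = q
    · simp [hpq]
    · have hn : ¬ D.Nxt a X p := fun h => hpq (h.eq hq)
      simp only [E, mem_filter, mem_univ, true_and, Exc_congr hn, IsSrc_congr hn] at hp
      simp [E, hp]
  · push Not at h
    refine (card_le_card (t := D.E a κ X) fun p hp => ?_).trans (Nat.le_succ _)
    simp only [E, mem_filter, mem_univ, true_and, Exc_congr (h p), IsSrc_congr (h p)] at hp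
    simp [E, hp]

theorem Gd.step (h : Gd D κ a) (ho : Opt D κ) {X₀ : Role f} (h0 : a X₀ + a (bar X₀) < D.T) :
    ∃ X, a X + a (bar X) < D.T ∧ Gd D κ (update a X (a X + 1)) := by
  obtain ⟨X, h1, h2⟩ := ho.exists_small (fun X => (Nat.le_add_right _ _).trans (h.le X)) h0
  refine ⟨X, h1, fun Y => ?_, fun Y => ?_⟩
  · by_cases e : Y = X
    · subst e; simp; omega
    · by_cases e' : bar Y = X
      · subst e'; simp [e] at *; omega
      · simpa [e, e'] using h.le Y
  · by_cases e : Y = X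
    · subst e; exact (E_update_self Y).trans (by omega)
    · exact (card_le_card (E_update_ne e)).trans (h.card Y)

theorem Gd.zero : Gd D κ (fun _ => 0) := by
  classical
  refine ⟨fun X => by simp, fun X => ?_⟩
  have h1 : ∀ r p, ¬ D.prc (fun _ => 0) r p := fun r p => by
    have := D.lt r p
    unfold prc own opp; simp only; omega
  have : D.E (fun _ => 0) κ X = ∅ := by
    refine filter_eq_empty_iff.2 fun p _ h => h.1 (Or.inr ⟨?_, h1 _ _, h1 _ _⟩)
    rintro (⟨r, hr⟩ | hr)
    · exact h1 r p (Or.inl hr)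
    · exact h1 _ p (hr (κ (p, true)))
  rw [this]; simp

open Classical in
theorem Gd.card_exc (h : Gd D κ a) :
    (univ.filter fun p => D.Exc a p (κ (p, false)) (κ (p, true))).card ≤ 2 * f * (24 * f ^ 2 + 1) := by
  refine (card_le_card (t := univ.biUnion fun X => D.E a κ X) fun p hp => ?_).trans
    (card_biUnion_le.trans ((sum_le_sum fun X _ => h.card X).trans (by simp [Fintype.card_prod, mul_comm])))
  simp only [mem_filter, mem_univ, true_and] at hp
  obtain ⟨Y, hY⟩ := hp.exists_src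
  simp only [mem_biUnion, mem_univ, true_and, E, mem_filter]
  exact ⟨Y, hp, hY⟩

end Pos

end Pool.Agent.H46.Sc
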