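import Pool.Agent.H46.Sc.Lev

/-! The dynamic program: states, steps and their correctness. -/

set_option autoImplicit false
set_option linter.unusedSectionVars false

namespace Pool.Agent.H46.Sc

open Finset Function Relation
open Pos (code code_inj)

abbrev St := List Nd × List (ℕ × Cfg)

section
variable {f : ℕ}

def nd (s : St) (X : Role f) : Nd := s.1.getD (code X) (0, 0, 0, false)
def dep (s : St) (X : Role f) : ℕ := (nd s X).1
def dd (tab : List (List ℕ)) (X : Role f) (p : ℕ) : ℕ := (tab.getD (code X) []).getD p 0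

variable (tab : List (List ℕ)) (n : ℕ) (s : St)

def own' (X : Role f) (p : ℕ) : Prop := dd tab X p < (nd s X).1
def opp' (X : Role f) (p : ℕ) : Prop := 2 * n ≤ dd tab X p + (nd s (bar X)).1
def prc' (X : Role f) (p : ℕ) : Prop := own' tab s X p ∨ opp' tab n s X p

variable (f)
def dne' (p : ℕ) : Prop := (∃ X : Role f, own' tab s X p) ∨ ∀ X : Role f, prc' tab n s X p
def rprc' (r p : ℕ) : Prop := ∃ X : Role f, r = code X ∧ prc' tab n s X p
def Exc' (p : ℕ) (c : Cfg) : Prop :=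
  ¬((dne' f tab n s p ∧ rprc' f tab n s c.1.1 p ∧ rprc' f tab n s c.2.1 p) ∨
    (¬dne' f tab n s p ∧ ¬rprc' f tab n s c.1.1 p ∧ ¬rprc' f tab n s c.2.1 p))

/-- list consistency at the point `q` with configuration `c` -/
def Cons (q : ℕ) (c : Cfg) : Prop := ((q, c) ∈ s.2 ↔ Exc' f tab n s q c) ∧ ∀ x ∈ s.2, x.1 = q → x.2 = c

def cfgU : List Cfg := (List.range (2 * f) ×ˢ List.range n) ×ˢ (List.range (2 * f) ×ˢ List.range n)

def Ev (s s' : St) (X : Role f) (q : ℕ) (c : Cfg) : Prop :=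
  (dd tab X q = (nd s X).1 ∧ EvOwn c (code X) q (nd s X) (nd s' X)) ∨
    (dd tab (bar X) q + (nd s X).1 + 1 = 2 * n ∧ EvOpp c (code (bar X)) q (nd s X) (nd s' X))

def Step (s s' : St) : Prop :=
  ∃ X : Role f, (nd s X).1 + (nd s (bar X)).1 < 2 * n ∧ (nd s' X).1 = (nd s X).1 + 1 ∧
    (∀ Y : Role f, Y ≠ X → nd s' Y = nd s Y) ∧ ∃ q ∈ List.range n,
      (∀ x ∈ s.2, x.1 ≠ q → x ∈ s'.2) ∧ (∀ x ∈ s'.2, x.1 ≠ q → x ∈ s.2) ∧ ∃ c ∈ cfgU f n,
        Cons f tab n s q c ∧ Cons f tab n s' q c ∧ Ev f tab n s s' X q c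

def Fin' : Prop := ∀ X : Role f, (nd s X).1 + (nd s (bar X)).1 = 2 * n ∧ (nd s X).2.1 = (nd s (bar X)).2.1 ∧
  (0 < (nd s X).2.1 → (nd s X).2.2.1 = (nd s (bar X)).2.2.1 ∧
    ((nd s X).2.2.2 = true ∨ (nd s (bar X)).2.2.2 = true))

end

variable {n f : ℕ}

structure Ok (D : Pos (Fin n) f) (tab : List (List ℕ)) : Prop where
  T : D.T = 2 * n
  d : ∀ X (p : Fin n), dd tab X p.1 = D.d X p

section
variable {D : Pos (Fin n) f} {tab : List (List ℕ)} (ok : Ok D tab) (s : St)
include ok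

theorem own'_iff (X : Role f) (p : Fin n) : own' tab s X p.1 ↔ D.own (dep s) X p := by
  unfold own' Pos.own dep; rw [ok.d]
theorem opp'_iff (X : Role f) (p : Fin n) : opp' tab n s X p.1 ↔ D.opp (dep s) X p := by
  unfold opp' Pos.opp dep; rw [ok.d, ok.T]
theorem prc'_iff (X : Role f) (p : Fin n) : prc' tab n s X p.1 ↔ D.prc (dep s) X p := by
  unfold prc' Pos.prc; rw [own'_iff ok, opp'_iff ok]
theorem dne'_iff (p : Fin n) : dne' f tab n s p.1 ↔ D.dne (dep s) p := by
  unfold dne' Pos.dne; simp only [own'_iff ok, prc'_iff ok]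
theorem rprc'_iff (X : Role f) (p : Fin n) : rprc' f tab n s (code X) p.1 ↔ D.prc (dep s) X p := by
  unfold rprc'
  constructor
  · rintro ⟨Y, h1, h2⟩; rw [code_inj h1]; exact (prc'_iff ok s Y p).1 h2
  · exact fun h => ⟨X, rfl, (prc'_iff ok s X p).2 h⟩
theorem Exc'_iff (p : Fin n) {c : Cfg} {X Y : Role f} (h1 : c.1.1 = code X) (h2 : c.2.1 = code Y) :
    Exc' f tab n s p.1 c ↔ D.Exc (dep s) p X Y := by
  unfold Exc' Pos.Exc; rw [h1, h2, dne'_iff ok, rprc'_iff ok, rprc'_iff ok]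

end

theorem exists_code {r : ℕ} (h : r < 2 * f) : ∃ X : Role f, r = code X := by
  refine ⟨(⟨r / 2, by omega⟩, decide (r % 2 = 1)), ?_⟩
  unfold code
  by_cases e : r % 2 = 1
  · simp [e]; omega
  · simp [e]; omega

theorem code_lt (X : Role f) : code X < 2 * f := by
  unfold code
  have := X.1.2
  have := Bool.toNat_lt X.2
  omega

theorem EvOwn_congr {c c' : Cfg} {r q : ℕ} {x y : Nd} (h : EvOwn c r q x y) (h1 : c.1.1 ≠ r) (h2 : c.2.1 ≠ r)
    (h3 : c'.1.1 ≠ r) (h4 : c'.2.1 ≠ r) : EvOwn c' r q x y := by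
  obtain ⟨e1, e2, e3, e4⟩ := h
  refine ⟨?_, ⟨fun h => absurd h h3, fun h => absurd h h4⟩, e3, fun h => ?_⟩
  · simpa [cu, h1, h2, h3, h4] using e1
  · rcases e4 h with h5 | h5
    · exact Or.inl h5
    · simp [cwit, h1, h2] at h5

theorem EvOpp_congr {c c' : Cfg} {r q : ℕ} {x y : Nd} (h : EvOpp c r q x y) (h1 : c.1.1 ≠ r) (h2 : c.2.1 ≠ r)
    (h3 : c'.1.1 ≠ r) (h4 : c'.2.1 ≠ r) : EvOpp c' r q x y := by
  obtain ⟨e1, e2, e3, e4⟩ := h
  have hw : ¬ cwit c r q := by simp [cwit, h1, h2]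
  refine ⟨?_, ⟨fun h => absurd h h3, fun h => absurd h h4⟩, fun h => ⟨(e3 h).1, fun h' => ?_⟩, fun h => ⟨(e4 h).1, fun h' => ?_⟩⟩
  · simpa [cu, h1, h2, h3, h4] using e1
  · exact ((e3 h).2 h').imp id fun h => absurd h hw
  · exact ((e4 h).2 h').imp id fun h => absurd h hw

/-- the invariant of the dynamic program -/
def Inv (D : Pos (Fin n) f) (s : St) : Prop :=
  ∃ (κ : Fin n × Bool → Role f) (ε : Fin n × Bool → ℕ), (∀ X, D.NodeOK κ ε X (nd s X)) ∧
    ∀ x : ℕ × Cfg, x ∈ s.2 ↔ ∃ p : Fin n, x = (p.1, cfg κ ε p) ∧ D.Exc (dep s) p (κ (p, false)) (κ (p, true))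

theorem Pr.prc {D : Pos (Fin n) f} {κ : Fin n × Bool → Role f} {a : Role f → ℕ} {X : Role f} {h : Fin n × Bool}
    (hp : D.Pr κ X (a X) h) : D.prc a (κ h) h.1 := by
  rcases hp with ⟨h1, h2⟩ | ⟨h1, h2⟩
  · rw [h1]; exact Or.inl h2
  · rw [h1]; right; unfold Pos.opp; rw [bar_bar]; exact h2

theorem Inv.step {D : Pos (Fin n) f} {tab : List (List ℕ)} (ok : Ok D tab) {s s' : St} (hi : Inv D s)
    (hs : Step f tab n s s') : Inv D s' := by
  classical
  obtain ⟨κ, ε, hN, hx⟩ := hi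
  obtain ⟨X, hunf, hadv, hoth, q0, hq0, hl1, hl2, c, hc, hc1, hc2, hev⟩ := hs
  obtain ⟨q, rfl⟩ : ∃ q : Fin n, q0 = q.1 := ⟨⟨q0, List.mem_range.1 hq0⟩, rfl⟩
  obtain ⟨R0, hR0⟩ : ∃ R : Role f, c.1.1 = code R := exists_code (by
    simp only [cfgU, List.product, SProd.sprod, List.mem_flatMap, List.mem_map, List.mem_range] at hc
    obtain ⟨x, ⟨y, h1, z, h2, rfl⟩, w, ⟨u, h3, v, h4, rfl⟩, rfl⟩ := hc; exact h1)
  obtain ⟨R1, hR1⟩ : ∃ R : Role f, c.2.1 = code R := exists_code (by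
    simp only [cfgU, List.product, SProd.sprod, List.mem_flatMap, List.mem_map, List.mem_range] at hc
    obtain ⟨x, ⟨y, h1, z, h2, rfl⟩, w, ⟨u, h3, v, h4, rfl⟩, rfl⟩ := hc; exact h3)
  have hdep : (dep s' : Role f → ℕ) = update (dep s) X (dep s X + 1) := by
    funext Y
    by_cases e : Y = X
    · subst e; simp only [update_self]; exact hadv
    · rw [update_of_ne e]; unfold dep; rw [hoth Y e]
  have hmono : ∀ Y : Role f, dep s Y ≤ dep s' Y := fun Y => by rw [hdep]; exact Pos.le_update X Y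
  have hnxt : D.Nxt (dep s) X q := by
    rcases hev with ⟨h1, -⟩ | ⟨h1, -⟩
    · rw [ok.d] at h1; exact Or.inl h1
    · rw [ok.d] at h1; exact Or.inr (by rw [ok.T]; exact h1)
  have hE := Exc'_iff ok s q hR0 hR1
  have hE' := Exc'_iff ok s' q hR0 hR1
  -- the new configuration
  have main : ∃ (κ' : Fin n × Bool → Role f) (ε' : Fin n × Bool → ℕ), (∀ Y, D.NodeOK κ' ε' Y (nd s Y)) ∧
      (∀ h : Fin n × Bool, h.1 ≠ q → κ' h = κ h ∧ ε' h = ε h) ∧ Ev f tab n s s' X q.1 (cfg κ' ε' q) ∧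
      ((q.1, c) ∈ s'.2 → cfg κ' ε' q = c) ∧ (D.Exc (dep s') q (κ' (q, false)) (κ' (q, true)) → (q.1, c) ∈ s'.2) := by
    by_cases hmem : (q.1, c) ∈ s.2
    · obtain ⟨p, h1, h2⟩ := (hx _).1 hmem
      have h3 : p = q := Fin.ext (congrArg Prod.fst h1).symm
      subst h3
      have h4 : cfg κ ε p = c := (congrArg Prod.snd h1).symm
      refine ⟨κ, ε, hN, fun h _ => ⟨rfl, rfl⟩, by rw [h4]; exact hev, fun _ => h4, fun h5 => ?_⟩
      rw [hc2.1, hE']
      have e0 : κ (p, false) = R0 := code_inj (by rw [← hR0, ← h4]; rfl)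
      have e1 : κ (p, true) = R1 := code_inj (by rw [← hR1, ← h4]; rfl)
      rw [← e0, ← e1]; exact h5
    · have hne : ∀ x ∈ s.2, x.1 ≠ q.1 := fun x h1 h2 => by
        have := hc1.2 x h1 h2
        apply hmem; rw [← this, ← h2]; exact h1
      have hnκ : ¬ D.Exc (dep s) q (κ (q, false)) (κ (q, true)) := fun h =>
        hne _ ((hx (q.1, cfg κ ε q)).2 ⟨q, rfl, h⟩) rfl
      have hnc : ¬ D.Exc (dep s) q R0 R1 := fun h => hmem (hc1.1.2 (hE.2 h))
      unfold Pos.Exc at hnκ hnc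
      rw [not_not] at hnκ hnc
      by_cases hd : D.dne (dep s) q
      · obtain ⟨h1, h2, h3⟩ := hnκ.resolve_right fun h => h.1 hd
        obtain ⟨k1, k2, k3⟩ := hnc.resolve_right fun h => h.1 hd
        have hb : ∀ R, D.prc (dep s) R q → dep s X + dep s (bar X) < 2 * n → D.d X q = dep s X → R ≠ X := by
          rintro R hR h4 h5 rfl
          unfold Pos.prc Pos.own Pos.opp at hR
          rw [ok.T] at hR; omega
        have hb' : ∀ R, D.prc (dep s) R q → dep s X + dep s (bar X) < 2 * n → D.d (bar X) q + dep s X + 1 = 2 * n →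
            R ≠ bar X := by
          rintro R hR h4 h5 rfl
          unfold Pos.prc Pos.own Pos.opp at hR
          rw [ok.T, bar_bar] at hR; omega
        refine ⟨κ, ε, hN, fun h _ => ⟨rfl, rfl⟩, ?_, fun h4 => ?_, fun h4 => ?_⟩
        · rcases hev with ⟨h4, h5⟩ | ⟨h4, h5⟩
          · rw [ok.d] at h4
            refine Or.inl ⟨by rw [ok.d]; exact h4, EvOwn_congr h5 ?_ ?_ ?_ ?_⟩
            · rw [hR0]; exact fun e => hb _ k2 hunf h4 (code_inj e)
            · rw [hR1]; exact fun e => hb _ k3 hunf h4 (code_inj e)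
            · exact fun e => hb _ h2 hunf h4 (code_inj e)
            · exact fun e => hb _ h3 hunf h4 (code_inj e)
          · rw [ok.d] at h4
            refine Or.inr ⟨by rw [ok.d]; exact h4, EvOpp_congr h5 ?_ ?_ ?_ ?_⟩
            · rw [hR0]; exact fun e => hb' _ k2 hunf h4 (code_inj e)
            · rw [hR1]; exact fun e => hb' _ k3 hunf h4 (code_inj e)
            · exact fun e => hb' _ h2 hunf h4 (code_inj e)
            · exact fun e => hb' _ h3 hunf h4 (code_inj e)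
        · rw [hc2.1, hE'] at h4
          exact absurd (Or.inl ⟨Pos.dne_mono hmono hd, Pos.prc_mono hmono k2, Pos.prc_mono hmono k3⟩) h4
        · exact absurd (Or.inl ⟨Pos.dne_mono hmono hd, Pos.prc_mono hmono h2, Pos.prc_mono hmono h3⟩) h4
      · obtain ⟨h1, h2, h3⟩ := hnκ.resolve_left fun h => hd h.1
        obtain ⟨k1, k2, k3⟩ := hnc.resolve_left fun h => hd h.1
        let κ' : Fin n × Bool → Role f := fun h => if h.1 = q then (if h.2 then R1 else R0) else κ h
        let ε' : Fin n × Bool → ℕ := fun h => if h.1 = q then (if h.2 then c.2.2 else c.1.2) else ε h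
        have hcfg : cfg κ' ε' q = c := by
          simp only [cfg, κ', ε', if_true, Bool.false_eq_true, if_false]
          rw [← hR0, ← hR1]
        have hs : ∀ h : Fin n × Bool, h.1 ≠ q → κ' h = κ h ∧ ε' h = ε h := fun h hh => by simp [κ', ε', hh]
        refine ⟨κ', ε', fun Y => (hN Y).recfg hs (fun b hb => ?_) (fun b hb => ?_), hs, by rw [hcfg]; exact hev,
          fun _ => hcfg, fun h4 => ?_⟩
        · have := Pr.prc (a := dep s) hb
          cases b
          · exact h2 this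
          · exact h3 this
        · have := Pr.prc (a := dep s) hb
          cases b
          · simp only [κ', if_true, Bool.false_eq_true, if_false] at this; exact k2 this
          · simp only [κ', if_true] at this; exact k3 this
        · rw [hc2.1, hE']
          simpa only [κ', if_true, Bool.false_eq_true, if_false] using h4
  obtain ⟨κ', ε', hN', hsame, hev', hcm, hcm'⟩ := main
  refine ⟨κ', ε', fun Y => ?_, fun x => ?_⟩
  · by_cases e : Y = X
    · subst e
      rcases hev' with ⟨h1, h2⟩ | ⟨h1, h2⟩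
      · rw [ok.d] at h1; exact (hN' Y).own hadv h1 h2
      · rw [ok.d] at h1; exact (hN' Y).opp hadv (by rw [ok.T]; exact h1) h2
    · rw [hoth Y e]; exact hN' Y
  · have hcfgs : ∀ p : Fin n, p ≠ q → cfg κ' ε' p = cfg κ ε p := fun p hp => by
      unfold cfg; rw [(hsame (p, false) hp).1, (hsame (p, false) hp).2, (hsame (p, true) hp).1, (hsame (p, true) hp).2]
    have hexc : ∀ p : Fin n, p ≠ q → (D.Exc (dep s') p (κ' (p, false)) (κ' (p, true)) ↔
        D.Exc (dep s) p (κ (p, false)) (κ (p, true))) := fun p hp => by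
      rw [(hsame (p, false) hp).1, (hsame (p, true) hp).1, hdep]
      exact Pos.Exc_congr (fun h => hp (h.eq hnxt)) _ _
    constructor
    · intro h
      by_cases e : x.1 = q.1
      · have h1 := hc2.2 x h e
        have h2 : x = (q.1, c) := Prod.ext e h1
        rw [h2] at h
        have h3 := hcm h
        refine ⟨q, by rw [h2, h3], ?_⟩
        have h4 := hE'.1 (hc2.1.1 h)
        have e0 : κ' (q, false) = R0 := code_inj (by rw [← hR0, ← h3]; rfl)
        have e1 : κ' (q, true) = R1 := code_inj (by rw [← hR1, ← h3]; rfl)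
        rw [e0, e1]; exact h4
      · obtain ⟨p, h1, h2⟩ := (hx x).1 (hl2 x h e)
        have hp : p ≠ q := fun h => e (by rw [h1, h])
        exact ⟨p, by rw [hcfgs p hp]; exact h1, (hexc p hp).2 h2⟩
    · rintro ⟨p, rfl, h2⟩
      by_cases hp : p = q
      · subst hp
        have h3 := hcm' h2
        rw [hcm h3]; exact h3
      · refine hl1 _ ((hx _).2 ⟨p, by rw [hcfgs p hp], (hexc p hp).1 h2⟩) fun e => hp (Fin.ext e)

end Pool.Agent.H46.Sc
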