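import Pool.Agent.H46.Sc.DP

/-! The dynamic program decides the existence of a Hamiltonian cycle. -/

set_option autoImplicit false
set_option linter.unusedSectionVars false

namespace Pool.Agent.H46.Sc

open Finset Function Relation
open Pos (code code_inj)

variable {n f : ℕ} {D : Pos (Fin n) f} {tab : List (List ℕ)}

def s0 (f : ℕ) : St := (List.replicate (2 * f) (0, 0, 0, false), [])

theorem nd_s0 (X : Role f) : nd (s0 f) X = (0, 0, 0, false) := by
  unfold nd s0
  rw [List.getD_eq_getElem?_getD]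
  simp [code_lt X]

theorem not_prc_zero (a : Role f → ℕ) (ha : ∀ X, a X = 0) (r : Role f) (p : Fin n) : ¬ D.prc a r p := by
  have := D.lt r p
  unfold Pos.prc Pos.own Pos.opp
  rw [ha, ha]; omega

theorem not_exc_zero (a : Role f → ℕ) (ha : ∀ X, a X = 0) (r s : Role f) (p : Fin n) : ¬ D.Exc a p r s := by
  refine not_not.2 (Or.inr ⟨?_, not_prc_zero a ha r p, not_prc_zero a ha s p⟩)
  rintro (⟨t, ht⟩ | ht)
  · exact not_prc_zero a ha t p (Or.inl ht)
  · exact not_prc_zero a ha r p (ht r)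

theorem inv_s0 (X0 : Role f) : Inv D (s0 f) := by
  refine ⟨fun _ => X0, fun _ => 0, fun X => ?_, fun x => ?_⟩
  · rw [nd_s0]
    refine ⟨by simp [Pos.H_zero], fun y hy => ?_, fun h hh => ?_, fun h => by cases h⟩
    · obtain rfl : y = 0 := by simpa using hy
      rw [Pos.H_zero]
    · exact absurd (Pr.prc (a := fun _ => 0) hh) (not_prc_zero _ (fun _ => rfl) _ _)
  · simp only [s0, List.not_mem_nil, false_iff, not_exists, not_and]
    intro p _
    exact not_exc_zero _ (fun X => by unfold dep; exact congrArg Prod.fst (nd_s0 X)) _ _ _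

theorem inv_of_reach (ok : Ok D tab) (X0 : Role f) {s : St} (h : ReflTransGen (Step f tab n) (s0 f) s) : Inv D s := by
  induction h with
  | refl => exact inv_s0 X0
  | tail _ h2 ih => exact ih.step ok h2

theorem sound (ok : Ok D tab) (hn : 0 < n) (X0 : Role f) {s : St} (h : ReflTransGen (Step f tab n) (s0 f) s)
    (hfin : Fin' f n s) : Ham D.Adj := by
  obtain ⟨κ, ε, hN, -⟩ := inv_of_reach ok X0 h
  have hF : Pos.FinOK D (fun X => nd s X) := ⟨fun X => by rw [ok.T]; exact (hfin X).1, fun X => (hfin X).2.1,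
    fun X => (hfin X).2.2⟩
  have : Nonempty (Fin n) := ⟨⟨0, hn⟩⟩
  exact Pos.ham_iff.2 ⟨κ, hF.feas hN, hF.conn hN ⟨0, hn⟩ rfl⟩

/-! ### completeness -/

/-- the state `s` represents the assignment `κ` at the depths `a` -/
structure Rep (D : Pos (Fin n) f) (κ : Fin n × Bool → Role f) (e : Role f → ℕ → ℕ) (a : Role f → ℕ) (s : St) : Prop where
  nd : ∀ X, nd s X = Pos.nodeOf D κ e X (a X)
  ex : ∀ x : ℕ × Cfg, x ∈ s.2 ↔ ∃ p : Fin n, x = (p.1, cfg κ (D.lv κ e) p) ∧ D.Exc a p (κ (p, false)) (κ (p, true))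

theorem exists_nxt (hT : D.T = 2 * n) (X : Role f) {k : ℕ} (hk : k < D.T) :
    ∃ q, D.d X q = k ∨ D.d (bar X) q + k + 1 = D.T := by
  classical
  let g : Fin n × Bool → Fin D.T := fun h => if h.2 then ⟨D.d X h.1, D.lt _ _⟩ else
    ⟨D.T - 1 - D.d (bar X) h.1, by have := D.lt (bar X) h.1; omega⟩
  have hg : Injective g := by
    rintro ⟨p, b⟩ ⟨q, c⟩ h
    have h1 := D.lt (bar X) p; have h2 := D.lt (bar X) q
    have h3 := D.ne X p q; have h4 := D.ne X q p
    cases b <;> cases c <;> simp only [g, if_true, Bool.false_eq_true, if_false, Fin.mk.injEq] at h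
    · rw [D.inj (bar X) p q (by omega)]
    · omega
    · omega
    · rw [D.inj X p q h]
  have hb : Bijective g := (Fintype.bijective_iff_injective_and_card g).2 ⟨hg, by simp [hT, mul_comm]⟩
  obtain ⟨⟨q, b⟩, hq⟩ := hb.2 ⟨k, hk⟩
  have h1 := D.lt (bar X) q
  cases b <;> simp only [g, if_true, Bool.false_eq_true, if_false, Fin.mk.injEq] at hq
  · exact ⟨q, Or.inr (by omega)⟩
  · exact ⟨q, Or.inl hq⟩

variable {κ : Fin n × Bool → Role f} {e : Role f → ℕ → ℕ}

theorem cfg_mem (he : Pos.IsLev D κ e) (p : Fin n) : cfg κ (D.lv κ e) p ∈ cfgU f n := by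
  simp only [cfgU, cfg, List.mem_product, List.mem_range]
  exact ⟨⟨code_lt _, he.lt _ _⟩, code_lt _, he.lt _ _⟩

theorem Rep.step (ok : Ok D tab) (hf : D.Feas κ) (he : Pos.IsLev D κ e) {a : Role f → ℕ} {X : Role f} {s s' : St}
    (h : Rep D κ e a s) (h' : Rep D κ e (update a X (a X + 1)) s') (hX : a X + a (bar X) < D.T) :
    Step f tab n s s' := by
  have hd : (dep s : Role f → ℕ) = a := by funext Y; unfold dep; rw [h.nd]; rfl
  have hd' : (dep s' : Role f → ℕ) = update a X (a X + 1) := by funext Y; unfold dep; rw [h'.nd]; rfl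
  obtain ⟨q, hq⟩ := exists_nxt ok.T X (show a X < D.T by omega)
  have hcons : ∀ (a : Role f → ℕ) (s : St), Rep D κ e a s → (dep s : Role f → ℕ) = a →
      Cons f tab n s q.1 (cfg κ (D.lv κ e) q) := fun a s h hd => by
    refine ⟨?_, fun x hx hxq => ?_⟩
    · rw [h.ex, Exc'_iff ok s q (X := κ (q, false)) (Y := κ (q, true)) rfl rfl, hd]
      constructor
      · rintro ⟨p, h1, h2⟩
        have : p = q := Fin.ext (congrArg Prod.fst h1).symm
        rwa [this] at h2
      · exact fun h2 => ⟨q, rfl, h2⟩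
    · obtain ⟨p, rfl, -⟩ := (h.ex x).1 hx
      have : p = q := Fin.ext hxq
      rw [this]
  have hex : ∀ x : ℕ × Cfg, x.1 ≠ q.1 → (x ∈ s.2 ↔ x ∈ s'.2) := fun x hx => by
    rw [h.ex, h'.ex]
    refine exists_congr fun p => and_congr_right fun hp => ?_
    have hpq : p ≠ q := fun e => hx (by rw [hp, e])
    rw [Pos.Exc_congr fun hn => hpq (hn.eq hq)]
  refine ⟨X, ?_, ?_, fun Y hY => ?_, q.1, List.mem_range.2 q.2, fun x hx hq => (hex x hq).1 hx,
    fun x hx hq => (hex x hq).2 hx, cfg κ (D.lv κ e) q, cfg_mem he q, hcons _ _ h hd, hcons _ _ h' hd', ?_⟩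
  · rw [h.nd, h.nd, ← ok.T]; exact hX
  · rw [h.nd, h'.nd, update_self]; rfl
  · rw [h.nd, h'.nd, update_of_ne hY]
  · unfold Ev
    rw [h.nd, h'.nd, update_self, ok.d, ok.d, ← ok.T]
    rcases hq with hq | hq
    · left
      refine ⟨hq, ?_⟩
      rw [← hq]; exact Pos.tr_own hf he
    · right
      exact ⟨hq, Pos.tr_opp hf he hq⟩

def lists {β : Type} (U : List β) : ℕ → List (List β)
  | 0 => [[]]
  | k + 1 => U.flatMap fun u => (lists U k).map (u :: ·)

def listsLe {β : Type} (U : List β) : ℕ → List (List β)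
  | 0 => [[]]
  | k + 1 => [] :: U.flatMap fun u => (listsLe U k).map (u :: ·)

theorem mem_lists {β : Type} {U : List β} {k : ℕ} {l : List β} (h : l.length = k) (h' : ∀ x ∈ l, x ∈ U) :
    l ∈ lists U k := by
  induction k generalizing l with
  | zero => simp [lists, List.length_eq_zero_iff.1 h]
  | succ k ih =>
    cases l with
    | nil => simp at h
    | cons x l =>
      simp only [lists, List.mem_flatMap, List.mem_map]
      exact ⟨x, h' x (by simp), l, ih (by simpa using h) fun y hy => h' y (by simp [hy]), rfl⟩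

theorem mem_listsLe {β : Type} {U : List β} {k : ℕ} {l : List β} (h : l.length ≤ k) (h' : ∀ x ∈ l, x ∈ U) :
    l ∈ listsLe U k := by
  induction k generalizing l with
  | zero => simp [listsLe, List.length_eq_zero_iff.1 (Nat.le_zero.1 h)]
  | succ k ih =>
    cases l with
    | nil => simp [listsLe]
    | cons x l =>
      simp only [listsLe, List.mem_flatMap, List.mem_map, List.mem_cons]
      exact Or.inr ⟨x, h' x (by simp), l, ih (by simpa using h) fun y hy => h' y (by simp [hy]), rfl⟩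

def ndU (n : ℕ) : List Nd := List.range (2 * n + 1) ×ˢ List.range (2 * n + 1) ×ˢ List.range (2 * n + 1) ×ˢ [false, true]
def stU (f n : ℕ) : List St :=
  lists (ndU n) (2 * f) ×ˢ listsLe (List.range n ×ˢ cfgU f n) (2 * f * (24 * f ^ 2 + 1))

theorem nodeOf_mem (ok : Ok D tab) (he : Pos.IsLev D κ e) {X : Role f} {a : ℕ} (ha : a ≤ D.T) :
    Pos.nodeOf D κ e X a ∈ ndU n := by
  have h1 : D.H κ X a ≤ 2 * n := by
    rw [Pos.H_eq_card]
    have : (univ.filter fun h : Fin n × Bool => κ h = X ∧ D.d X h.1 < a).card ≤ 2 * n :=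
      (card_le_univ _).trans (by simp [mul_comm])
    omega
  have h2 := he.lt X a
  simp only [ndU, Pos.nodeOf, List.mem_product, List.mem_range]
  rw [ok.T] at ha
  have hb : ∀ b : Bool, b ∈ [false, true] := by decide
  exact ⟨by omega, by omega, by omega, hb _⟩

theorem exists_rep (ok : Ok D tab) (he : Pos.IsLev D κ e) {a : Role f → ℕ} (h : Pos.Gd D κ a) :
    ∃ s ∈ stU f n, Rep D κ e a s := by
  classical
  let dec : Fin (2 * f) → Role f := fun i => (⟨i.1 / 2, by omega⟩, decide (i.1 % 2 = 1))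
  have hdec : ∀ X : Role f, ∀ h, dec ⟨code X, h⟩ = X := fun X h => by
    apply code_inj
    show 2 * (code X / 2) + (decide (code X % 2 = 1)).toNat = code X
    by_cases e : code X % 2 = 1
    · simp [e]; omega
    · simp [e]; omega
  have haT : ∀ X, a X ≤ D.T := fun X => (Nat.le_add_right _ _).trans (h.le X)
  refine ⟨(List.ofFn fun i => Pos.nodeOf D κ e (dec i) (a (dec i)),
    ((univ.filter fun p => D.Exc a p (κ (p, false)) (κ (p, true))).toList.map fun p => (p.1, cfg κ (D.lv κ e) p))),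
    ?_, ?_, ?_⟩
  · simp only [stU, List.mem_product]
    refine ⟨mem_lists (by simp) fun x hx => ?_, mem_listsLe (by simpa using h.card_exc) fun x hx => ?_⟩
    · obtain ⟨i, rfl⟩ := List.mem_ofFn.1 hx
      exact nodeOf_mem ok he (haT _)
    · obtain ⟨p, -, rfl⟩ := List.mem_map.1 hx
      simp only [List.mem_product, List.mem_range]
      exact ⟨p.2, cfg_mem he p⟩
  · intro X
    unfold Sc.nd
    simp only
    rw [List.getD_eq_getElem?_getD, List.getElem?_ofFn, dif_pos (code_lt X), Option.getD_some, hdec]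
  · intro x
    simp only [List.mem_map, mem_toList, mem_filter, mem_univ, true_and]
    constructor
    · rintro ⟨p, h1, rfl⟩; exact ⟨p, rfl, h1⟩
    · rintro ⟨p, rfl, h1⟩; exact ⟨p, h1, rfl⟩

open Classical in
noncomputable def edges (f : ℕ) (tab : List (List ℕ)) (n : ℕ) : List (St × St) :=
  (stU f n ×ˢ stU f n).filter fun x => decide (Step f tab n x.1 x.2)

theorem complete (ok : Ok D tab) (ho : Pos.Opt D κ) (he : Pos.IsLev D κ e) : ∃ s ∈ stU f n,
    ReflTransGen (fun x y => (x, y) ∈ edges f tab n) (s0 f) s ∧ Fin' f n s := by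
  classical
  have key : ∀ k : ℕ, ∀ a, Pos.Gd D κ a → ∑ X, (D.T - a X) = k → ∀ s ∈ stU f n, Rep D κ e a s →
      ∃ s' ∈ stU f n, ReflTransGen (fun x y => (x, y) ∈ edges f tab n) s s' ∧ Fin' f n s' := by
    intro k
    induction k with
    | zero =>
      intro a ha hk s hs hr
      refine ⟨s, hs, .refl, ?_⟩
      have h1 : ∀ X, a X = D.T := fun X => by
        have := (sum_eq_zero_iff.1 hk) X (mem_univ _)
        have := ha.le X
        omega
      have h2 := Pos.fin_ok (D := D) ho.feas he (a := a) fun X => by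
        have := ha.le X; have := h1 X; have := h1 (bar X); omega
      intro X
      simp only [hr.nd]
      rw [← ok.T]
      exact ⟨h2.done X, h2.h X, h2.lev X⟩
    | succ k ih =>
      intro a ha hk s hs hr
      by_cases hall : ∀ X, a X + a (bar X) = D.T
      · have h2 := Pos.fin_ok (D := D) ho.feas he hall
        refine ⟨s, hs, .refl, fun X => ?_⟩
        simp only [hr.nd]
        rw [← ok.T]
        exact ⟨h2.done X, h2.h X, h2.lev X⟩
      · push Not at hall
        obtain ⟨X0, hX0⟩ := hall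
        obtain ⟨X, h1, h2⟩ := ha.step ho (X₀ := X0) (lt_of_le_of_ne (ha.le X0) hX0)
        obtain ⟨s1, hs1, hr1⟩ := exists_rep ok he h2
        have h3 : ∑ Y, (D.T - update a X (a X + 1) Y) = k := by
          have e1 : ∑ Y, (D.T - update a X (a X + 1) Y) + 1 = ∑ Y, (D.T - a Y) := by
            rw [← add_sum_erase _ _ (mem_univ X), ← add_sum_erase (s := univ) (f := fun Y => D.T - a Y) (a := X) (mem_univ X)]
            rw [update_self, sum_congr rfl fun Y hY => by rw [update_of_ne (ne_of_mem_erase hY)]]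
            omega
          omega
        obtain ⟨s', hs', h4, h5⟩ := ih _ h2 h3 s1 hs1 hr1
        refine ⟨s', hs', ReflTransGen.head ?_ h4, h5⟩
        simp only [edges, List.mem_filter, List.mem_product, decide_eq_true_eq]
        exact ⟨⟨hs, hs1⟩, hr.step ok ho.feas he hr1 h1⟩
  have hr0 : Rep D κ e (fun _ => 0) (s0 f) := by
    refine ⟨fun X => ?_, fun x => ?_⟩
    · rw [nd_s0]
      have : ¬ Pos.Fl D κ e X 0 := by
        rintro ⟨h, h1, -⟩
        exact absurd (Pr.prc (a := fun _ => 0) h1) (not_prc_zero _ (fun _ => rfl) _ _)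
      simp [Pos.nodeOf, Pos.H_zero, he.zero, this]
    · simp only [s0, List.not_mem_nil, false_iff, not_exists, not_and]
      intro p _
      exact not_exc_zero _ (fun X => rfl) _ _ _
  have hs0 : s0 f ∈ stU f n := by
    simp only [stU, s0, List.mem_product]
    refine ⟨mem_lists (by simp) fun x hx => ?_, mem_listsLe (by simp) (by simp)⟩
    rw [List.eq_of_mem_replicate hx]
    simp [ndU, List.mem_product]
  exact key _ _ Pos.Gd.zero rfl _ hs0 hr0

def Acc (f : ℕ) (tab : List (List ℕ)) (n : ℕ) : Prop :=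
  ∃ s ∈ stU f n, ReflTransGen (fun x y => (x, y) ∈ edges f tab n) (s0 f) s ∧ Fin' f n s

theorem acc_iff (ok : Ok D tab) (hn : 0 < n) (X0 : Role f) : Acc f tab n ↔ Ham D.Adj := by
  classical
  constructor
  · rintro ⟨s, -, h1, h2⟩
    refine sound ok hn X0 (ReflTransGen.mono (fun x y h => ?_) _ _ h1) h2
    simp only [edges, List.mem_filter, decide_eq_true_eq] at h
    exact h.2
  · intro h
    have : Nonempty (Fin n) := ⟨⟨0, hn⟩⟩
    have h1 : ∃ κ : Fin n × Bool → Role f, D.Feas κ ∧ D.Conn κ := Pos.ham_iff.1 h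
    obtain ⟨κ, hκ, hmin⟩ := exists_min_image (univ.filter fun κ : Fin n × Bool → Role f => D.Feas κ ∧ D.Conn κ)
      (fun κ => ∑ h, D.d (κ h) h.1) (by obtain ⟨κ, hκ⟩ := h1; exact ⟨κ, by simpa using hκ⟩)
    simp only [mem_filter, mem_univ, true_and] at hκ hmin
    obtain ⟨e, he⟩ := Pos.exists_isLev hκ.1 hκ.2 ⟨0, hn⟩ rfl
    exact complete ok ⟨hκ.1, hκ.2, fun κ' h1 h2 => hmin κ' ⟨h1, h2⟩⟩ he

end Pool.Agent.H46.Sc
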