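import Mathlib

/-! Positions of points on finitely many lines, role assignments, crossing numbers. -/

set_option autoImplicit false

namespace Pool.Agent.H46.Sc

open Finset

abbrev Role (f : ℕ) := Fin f × Bool

def bar {f : ℕ} (r : Role f) : Role f := (r.1, !r.2)

@[simp] theorem bar_bar {f : ℕ} (r : Role f) : bar (bar r) = r := by simp [bar]
@[simp] theorem bar_ne {f : ℕ} (r : Role f) : bar r ≠ r := by
  intro h; have := congrArg Prod.snd h; simp [bar] at this
@[simp] theorem ne_bar {f : ℕ} (r : Role f) : r ≠ bar r := fun h => bar_ne r h.symm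
theorem bar_inj {f : ℕ} {r s : Role f} : bar r = bar s ↔ r = s :=
  ⟨fun h => by rw [← bar_bar r, h, bar_bar], fun h => by rw [h]⟩
theorem eq_bar_comm {f : ℕ} {r s : Role f} : r = bar s ↔ bar r = s := by
  rw [← bar_inj, bar_bar]

/-- depths of the points: `d r p` is the depth of the role `r` of `p`, seen from the end of the line that `r`
belongs to -/
structure Pos (V : Type) (f : ℕ) where
  T : ℕ
  d : Role f → V → ℕ
  lt : ∀ r p, d r p < T
  inj : ∀ r p q, d r p = d r q → p = q
  ne : ∀ r p q, d r p + d (bar r) q + 1 ≠ T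
  self : ∀ r p, T ≤ d r p + d (bar r) p

variable {V : Type} {f : ℕ}

namespace Pos

variable (D : Pos V f)

def Adj (p q : V) : Prop := ∃ r : Role f, D.d r p + D.d (bar r) q < D.T

/-- contribution of a half-edge at `p` with role `r` to the crossing number of boundary `a` seen from `X` -/
def w (X r : Role f) (p : V) (a : ℕ) : ℤ :=
  (if r = X ∧ D.d r p < a then 1 else 0) - (if r = bar X ∧ D.T ≤ D.d r p + a then 1 else 0)

theorem w_self (X : Role f) (p : V) (a : ℕ) : D.w X X p a = if D.d X p < a then 1 else 0 := by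
  simp [w]
theorem w_bar (X : Role f) (p : V) (a : ℕ) : D.w X (bar X) p a = -(if D.T ≤ D.d (bar X) p + a then 1 else 0) := by
  simp [w]
theorem w_bar' (X : Role f) (p : V) (a : ℕ) : D.w (bar X) X p a = -(if D.T ≤ D.d X p + a then 1 else 0) := by
  simp [w]
theorem w_other {X r : Role f} (h1 : r ≠ X) (h2 : r ≠ bar X) (p : V) (a : ℕ) : D.w X r p a = 0 := by
  simp [w, h1, h2]

theorem w_flip (X r : Role f) (p : V) (a : ℕ) (ha : a ≤ D.T) :
    D.w X r p a = D.w (bar X) r p (D.T - a) + D.w X r p D.T := by
  have hlt := D.lt r p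
  rcases eq_or_ne r X with rfl | h1
  · simp only [w_self, w_bar']
    split_ifs <;> omega
  · rcases eq_or_ne r (bar X) with rfl | h2
    · simp only [w_self, w_bar]
      split_ifs <;> omega
    · rw [D.w_other h1 h2, D.w_other h2 (by simpa using h1), D.w_other h1 h2]; rfl

theorem w_anti (X r : Role f) {p q : V} (h : D.d r p ≤ D.d r q) (a : ℕ) : D.w X r q a ≤ D.w X r p a := by
  rcases eq_or_ne r X with rfl | h1
  · simp only [w_self]; split_ifs <;> omega
  · rcases eq_or_ne r (bar X) with rfl | h2
    · simp only [w_bar]; split_ifs <;> omega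
    · rw [D.w_other h1 h2, D.w_other h1 h2]

variable [Fintype V]

def H (κ : V × Bool → Role f) (X : Role f) (a : ℕ) : ℤ := ∑ h, D.w X (κ h) h.1 a

structure Feas (κ : V × Bool → Role f) : Prop where
  nonneg : ∀ X a, a ≤ D.T → 0 ≤ D.H κ X a
  zero : ∀ X, D.H κ X D.T = 0

theorem H_zero (κ : V × Bool → Role f) (X : Role f) : D.H κ X 0 = 0 := by
  refine sum_eq_zero fun h _ => ?_
  have := D.lt (κ h) h.1
  simp only [w]
  split_ifs <;> omega

theorem Feas.flip {D : Pos V f} {κ : V × Bool → Role f} (hf : D.Feas κ) {X : Role f} {a : ℕ} (ha : a ≤ D.T) :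
    D.H κ X a = D.H κ (bar X) (D.T - a) := by
  have h := hf.zero X
  unfold H at *
  rw [sum_congr rfl fun h _ => D.w_flip X (κ h) h.1 a ha, sum_add_distrib, h, add_zero]

/-- passing a depth that holds the own role of `q` -/
theorem H_own (κ : V × Bool → Role f) (X : Role f) (q : V) :
    D.H κ X (D.d X q + 1) = D.H κ X (D.d X q) + ((if κ (q, false) = X then 1 else 0) + (if κ (q, true) = X then 1 else 0)) := by
  classical
  have key : ∀ h : V × Bool, D.w X (κ h) h.1 (D.d X q + 1) - D.w X (κ h) h.1 (D.d X q) =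
      if h.1 = q then (if κ h = X then 1 else 0) else 0 := by
    intro h
    rcases eq_or_ne (κ h) X with h1 | h1
    · rw [h1]; simp only [w_self, if_true]
      by_cases h2 : h.1 = q
      · simp [h2]
      · have : D.d X h.1 ≠ D.d X q := fun e => h2 (D.inj _ _ _ e)
        simp only [h2, if_false]
        split_ifs <;> omega
    · rcases eq_or_ne (κ h) (bar X) with h2 | h2
      · rw [h2]; simp only [w_bar, bar_ne, if_false, ite_self]
        have := D.ne X q h.1
        split_ifs <;> omega
      · rw [D.w_other h1 h2, D.w_other h1 h2]; simp [h1]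
  have h2 : D.H κ X (D.d X q + 1) - D.H κ X (D.d X q) = ∑ h : V × Bool, if h.1 = q then (if κ h = X then (1 : ℤ) else 0) else 0 := by
    unfold H; rw [← sum_sub_distrib]; exact sum_congr rfl fun h _ => key h
  rw [Fintype.sum_prod_type] at h2
  simp only [Fintype.sum_bool] at h2
  rw [Finset.sum_eq_single q (by intro b _ hb; simp [hb]) (by simp)] at h2
  simp only [if_true] at h2
  rw [add_comm (if κ (q, false) = X then (1 : ℤ) else 0)]
  linarith

/-- passing a depth that holds the opposite role of `q` -/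
theorem H_opp (κ : V × Bool → Role f) (X : Role f) (q : V) {a : ℕ} (ha : D.d (bar X) q + a + 1 = D.T) :
    D.H κ X a = D.H κ X (a + 1) +
      ((if κ (q, false) = bar X then 1 else 0) + (if κ (q, true) = bar X then 1 else 0)) := by
  classical
  have key : ∀ h : V × Bool, D.w X (κ h) h.1 a - D.w X (κ h) h.1 (a + 1) =
      if h.1 = q then (if κ h = bar X then 1 else 0) else 0 := by
    intro h
    rcases eq_or_ne (κ h) X with h1 | h1
    · rw [h1]; simp only [w_self, ne_bar, if_false, ite_self]
      have := D.ne X h.1 q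
      split_ifs <;> omega
    · rcases eq_or_ne (κ h) (bar X) with h2 | h2
      · rw [h2]; simp only [w_bar, if_true]
        by_cases h3 : h.1 = q
        · simp only [h3, if_true]
          split_ifs <;> omega
        · have : D.d (bar X) h.1 ≠ D.d (bar X) q := fun e => h3 (D.inj _ _ _ e)
          simp only [h3, if_false]
          split_ifs <;> omega
      · rw [D.w_other h1 h2, D.w_other h1 h2]; simp [h2]
  have h2 : D.H κ X a - D.H κ X (a + 1) = ∑ h : V × Bool, if h.1 = q then (if κ h = bar X then (1 : ℤ) else 0) else 0 := by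
    unfold H; rw [← sum_sub_distrib]; exact sum_congr rfl fun h _ => key h
  rw [Fintype.sum_prod_type] at h2
  simp only [Fintype.sum_bool] at h2
  rw [Finset.sum_eq_single q (by intro b _ hb; simp [hb]) (by simp)] at h2
  simp only [if_true] at h2
  rw [add_comm (if κ (q, false) = bar X then (1 : ℤ) else 0)]
  linarith

/-- the boundary at which a used half-edge sits is crossed -/
theorem Feas.loc_pos {D : Pos V f} {κ : V × Bool → Role f} (hf : D.Feas κ) (h : V × Bool) :
    0 < D.H κ (κ h) (D.d (κ h) h.1 + 1) := by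
  rw [H_own]
  have h1 := hf.nonneg (κ h) (D.d (κ h) h.1) (D.lt _ _).le
  obtain ⟨p, b⟩ := h
  cases b
  · dsimp only at h1 ⊢; simp only [if_true]; split_ifs <;> omega
  · dsimp only at h1 ⊢; simp only [if_true]; split_ifs <;> omega

theorem Feas.loc_pos' {D : Pos V f} {κ : V × Bool → Role f} (hf : D.Feas κ) (h : V × Bool) :
    0 < D.H κ (bar (κ h)) (D.T - (D.d (κ h) h.1 + 1)) := by
  rw [← hf.flip (D.lt _ _)]; exact hf.loc_pos h

/-- colourings of points and boundaries that respect the assignment -/
structure Resp (κ : V × Bool → Role f) (χ : V → Prop) (ψ : Role f → ℕ → Prop) : Prop where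
  flip : ∀ X a, a ≤ D.T → (ψ X a ↔ ψ (bar X) (D.T - a))
  step : ∀ X a, a < D.T → 0 < D.H κ X a → 0 < D.H κ X (a + 1) → (ψ X a ↔ ψ X (a + 1))
  loc : ∀ h : V × Bool, χ h.1 ↔ ψ (κ h) (D.d (κ h) h.1 + 1)

def Conn (κ : V × Bool → Role f) : Prop := ∀ χ ψ, D.Resp κ χ ψ → ∀ p q, (χ p ↔ χ q)

variable {D}

theorem Resp.chain {κ : V × Bool → Role f} {χ : V → Prop} {ψ : Role f → ℕ → Prop} (h : D.Resp κ χ ψ) {X : Role f}
    {a b : ℕ} (hab : a ≤ b) (hb : b ≤ D.T) (hp : ∀ x, a ≤ x → x ≤ b → 0 < D.H κ X x) : ψ X a ↔ ψ X b := by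
  obtain ⟨k, rfl⟩ := Nat.exists_eq_add_of_le hab
  clear hab
  induction k with
  | zero => rfl
  | succ k ih =>
    rw [ih (by omega) fun x h1 h2 => hp x h1 (by omega)]
    exact h.step X (a + k) (by omega) (hp _ (by omega) (by omega)) (hp _ (by omega) (by omega))

/-- the colour of a half-edge read off in the coordinate of the opposite end -/
theorem Resp.loc' {κ : V × Bool → Role f} {χ : V → Prop} {ψ : Role f → ℕ → Prop} (h : D.Resp κ χ ψ)
    {e : V × Bool} {X : Role f} (he : κ e = bar X) : χ e.1 ↔ ψ X (D.T - (D.d (bar X) e.1 + 1)) := by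
  have := D.lt (bar X) e.1
  rw [h.loc e, h.flip _ _ (by rw [he]; omega), he, bar_bar]

end Pos

end Pool.Agent.H46.Sc
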