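import Pool.Agent.H46.Sc.Defs

/-! The exchange lemma. -/

set_option autoImplicit false

namespace Pool.Agent.H46.Sc

open Finset Function

theorem sum_extend {α β γ : Type*} [Fintype α] [Fintype β] (c : α → β) (hc : Injective c) (new : α → γ)
    (κ : β → γ) (F : γ → β → ℤ) :
    ∑ h, F (extend c new κ h) h = ∑ h, F (κ h) h + ∑ x, (F (new x) (c x) - F (κ (c x)) (c x)) := by
  have h1 : ∑ x, (F (new x) (c x) - F (κ (c x)) (c x)) = ∑ h, (F (extend c new κ h) h - F (κ h) h) :=
    sum_of_injOn c (fun _ _ _ _ h => hc h) (fun _ _ => by simp) (fun h _ hh => by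
      rw [extend_apply' _ _ _ fun ⟨x, hx⟩ => hh ⟨x, by simp, hx⟩, sub_self])
      fun x _ => by rw [hc.extend_apply]
  rw [h1, sum_sub_distrib]; ring

variable {V : Type} {f : ℕ}

namespace Pos

section
variable (D : Pos V f)

/-- `p` has been passed at the node `N` in mode `m` -/
def Pas (a : Role f → ℕ) (N : Role f) (m : Bool) (p : V) : Prop :=
  if m then D.d N p < a N else D.T ≤ D.d (bar N) p + a N

/-- unit contribution at the node `N` in mode `m` of the point `p` -/
def un (N : Role f) (m : Bool) (p : V) (X : Role f) (x : ℕ) : ℤ :=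
  if m then D.w X N p x else - D.w X (bar N) p x

end

variable {D : Pos V f} {a : Role f → ℕ} {N : Role f} {m : Bool} {p : V} {x : ℕ}

theorem un_self : D.un N m p N x = if m then (if D.d N p < x then 1 else 0) else (if D.T ≤ D.d (bar N) p + x then 1 else 0) := by
  unfold un; simp only [w_self, w_bar, neg_neg]

theorem un_bar : D.un N m p (bar N) x =
    -(if m then (if D.T ≤ D.d N p + x then 1 else 0) else (if D.d (bar N) p < x then 1 else 0)) := by
  unfold un; simp only [w_self, w_bar']; split_ifs <;> rfl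

theorem un_other {X : Role f} (h1 : X ≠ N) (h2 : X ≠ bar N) : D.un N m p X x = 0 := by
  unfold un
  rw [D.w_other (X := X) (r := N) h1.symm (by rw [ne_eq, eq_bar_comm]; exact fun h => h2 h.symm),
    D.w_other (X := X) (r := bar N) h2.symm (by rw [ne_eq, bar_inj]; exact h1.symm)]
  simp

theorem w_T (X r : Role f) (p : V) : D.w X r p D.T = (if r = X then 1 else 0) - (if r = bar X then 1 else 0) := by
  have := D.lt r p
  unfold w; simp [this]

theorem un_T (X : Role f) : D.un N m p X D.T = (if X = N then 1 else 0) - (if X = bar N then 1 else 0) := by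
  unfold un; rw [w_T, w_T]
  have e1 : N = X ↔ X = N := eq_comm
  have e2 : N = bar X ↔ X = bar N := by rw [eq_bar_comm, eq_comm]
  have e3 : bar N = X ↔ X = bar N := eq_comm
  have e4 : bar N = bar X ↔ X = N := by rw [bar_inj, eq_comm]
  simp only [e1, e2, e3, e4]
  split_ifs <;> rfl

theorem un_pas (h : D.Pas a N m p) (hx : a N ≤ x) : D.un N m p N x = 1 := by
  rw [un_self]; cases m <;> simp only [Pas] at h ⊢ <;> simp at h ⊢ <;> omega

theorem un_npas (h : ¬ D.Pas a N m p) (hx : x ≤ a N) : D.un N m p N x = 0 := by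
  rw [un_self]; cases m <;> simp only [Pas] at h ⊢ <;> simp at h ⊢ <;> omega

theorem un_nonneg : 0 ≤ D.un N m p N x := by
  rw [un_self]; split_ifs <;> omega

theorem un_le_one : D.un N m p N x ≤ 1 := by
  rw [un_self]; split_ifs <;> omega

theorem un_le {m' : Bool} {p' : V} (h : D.Pas a N m p) (h' : ¬ D.Pas a N m' p') (X : Role f) (x : ℕ) :
    D.un N m' p' X x ≤ D.un N m p X x := by
  rcases eq_or_ne X N with rfl | h1
  · rcases le_total (a X) x with hx | hx
    · rw [un_pas h hx]; exact un_le_one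
    · rw [un_npas h' hx]; exact un_nonneg
  · rcases eq_or_ne X (bar N) with rfl | h2
    · rw [un_bar, un_bar]
      cases m <;> cases m' <;> simp only [Pas] at h h' ⊢ <;> simp at h h' ⊢ <;> split_ifs <;> omega
    · rw [un_other h1 h2, un_other h1 h2]

/-- an arc from `Z` to `Y` in the exchange digraph, realised by four exceptional points -/
structure Arc (D : Pos V f) (κ : V × Bool → Role f) (a : Role f → ℕ) (Z Y : Role f) where
  m : Bool
  l : Role f
  g : Role f
  o : Role f
  p : Fin 4 → V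
  b : Fin 4 → Bool
  hl : l = if m then Y else bar Z
  hg : g = if m then Z else bar Y
  kl : ∀ k, κ (p k, b k) = l
  ko : ∀ k, κ (p k, !b k) = o
  pas : ∀ k, D.Pas a Z m (p k)
  npas : ∀ k, ¬ D.Pas a Y m (p k)
  o12 : D.d o (p 1) < D.d o (p 2)
  o13 : D.d o (p 1) < D.d o (p 3)
  o20 : D.d o (p 2) < D.d o (p 0)
  o30 : D.d o (p 3) < D.d o (p 0)
  l23 : D.d l (p 2) < D.d l (p 3)

namespace Arc

variable {κ : V × Bool → Role f} {Z Y : Role f} (A : Arc D κ a Z Y)

/-- the changed half-edges -/
def c (k : Fin 3) : V × Bool := if k = 0 then (A.p 0, !A.b 0) else if k = 1 then (A.p 1, A.b 1) else (A.p 3, A.b 3)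
def new (k : Fin 3) : Role f := if k = 1 then A.o else A.g

def G (X : Role f) (x : ℕ) : ℤ := D.un Z A.m (if A.m then A.p 0 else A.p 1) X x + D.un Z A.m (A.p 3) X x
def Nd (X : Role f) (x : ℕ) : ℤ := D.un Y A.m (if A.m then A.p 1 else A.p 0) X x + D.un Y A.m (A.p 3) X x
def O (X : Role f) (x : ℕ) : ℤ := D.w X A.o (A.p 1) x - D.w X A.o (A.p 0) x

theorem κc0 : κ (A.c 0) = A.o := A.ko 0
theorem κc1 : κ (A.c 1) = A.l := A.kl 1
theorem κc2 : κ (A.c 2) = A.l := A.kl 3

theorem sum_w (X : Role f) (x : ℕ) :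
    ∑ k, (D.w X (A.new k) (A.c k).1 x - D.w X (κ (A.c k)) (A.c k).1 x) = A.G X x - A.Nd X x + A.O X x := by
  rw [Fin.sum_univ_three, A.κc0, A.κc1, A.κc2]
  simp only [new, c, G, Nd, O, un]
  have h1 := A.hl; have h2 := A.hg
  cases hm : A.m <;> simp only [hm] at h1 h2 <;> simp [h1, h2] <;> ring

theorem sum_d : ∑ k, ((D.d (A.new k) (A.c k).1 : ℤ) - D.d (κ (A.c k)) (A.c k).1) < 2 * (a Z : ℤ) - 2 * a Y := by
  rw [Fin.sum_univ_three, A.κc0, A.κc1, A.κc2]
  simp only [new, c]
  have h1 := A.hl; have h2 := A.hg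
  have h3 := A.o12; have h4 := A.o20
  have q0 := A.pas 0; have q1 := A.pas 1; have q3 := A.pas 3
  have n0 := A.npas 0; have n1 := A.npas 1; have n3 := A.npas 3
  cases hm : A.m <;> simp [hm, Pas] at h1 h2 q0 q1 q3 n0 n1 n3 <;> simp [h1, h2] <;> omega

theorem O_nonneg (X : Role f) (x : ℕ) : 0 ≤ A.O X x := by
  have := D.w_anti X A.o (p := A.p 1) (q := A.p 0) (A.o12.trans A.o20).le x
  unfold O; linarith

theorem O_pos (x : ℕ) (h1 : D.d A.o (A.p 1) < x) (h2 : x ≤ D.d A.o (A.p 0)) : A.O A.o x = 1 := by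
  unfold O; simp only [w_self]; split_ifs <;> omega

theorem pasA : D.Pas a Z A.m (if A.m then A.p 0 else A.p 1) := by split_ifs <;> exact A.pas _
theorem npasA : ¬ D.Pas a Y A.m (if A.m then A.p 1 else A.p 0) := by split_ifs <;> exact A.npas _

theorem G_pas (hx : a Z ≤ x) : A.G Z x = 2 := by
  unfold G; rw [un_pas (A.pas 3) hx, un_pas A.pasA hx]; rfl

theorem Nd_npas (hx : x ≤ a Y) : A.Nd Y x = 0 := by
  unfold Nd; rw [un_npas (A.npas 3) hx, un_npas A.npasA hx]; rfl

theorem Nd_le {W : Role f} (B : Arc D κ a Y W) (X : Role f) (x : ℕ) : A.Nd X x ≤ B.G X x :=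
  add_le_add (un_le B.pasA A.npasA X x) (un_le (B.pas 3) (A.npas 3) X x)

theorem G_T (X : Role f) : A.G X D.T = 2 * ((if X = Z then 1 else 0) - (if X = bar Z then 1 else 0)) := by
  unfold G; rw [un_T, un_T]; ring
theorem Nd_T (X : Role f) : A.Nd X D.T = 2 * ((if X = Y then 1 else 0) - (if X = bar Y then 1 else 0)) := by
  unfold Nd; rw [un_T, un_T]; ring
theorem O_T (X : Role f) : A.O X D.T = 0 := by unfold O; rw [w_T, w_T]; ring

end Arc

theorem exchange {κ : V × Bool → Role f} [Fintype V] {ι : Type} [Fintype ι] [Nonempty ι] (σ : Equiv.Perm ι)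
    (Z : ι → Role f) (A : ∀ j, Arc D κ a (Z j) (Z (σ j)))
    (hinj : ∀ j j' k k', (A j).p k = (A j').p k' → j = j' ∧ k = k') (haT : ∀ j, a (Z j) ≤ D.T) (hf : D.Feas κ)
    (hc : D.Conn κ) :
    ∃ κ', D.Feas κ' ∧ D.Conn κ' ∧ ∑ h, D.d (κ' h) h.1 < ∑ h, D.d (κ h) h.1 := by
  let c : ι × Fin 3 → V × Bool := fun x => (A x.1).c x.2
  let new : ι × Fin 3 → Role f := fun x => (A x.1).new x.2
  have hcinj : Injective c := by
    rintro ⟨j, k⟩ ⟨j', k'⟩ h
    have h1 := congrArg Prod.fst h
    simp only [c, Arc.c] at h1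
    fin_cases k <;> fin_cases k' <;> simp at h1 <;> have := hinj _ _ _ _ h1 <;> simp_all
  have hsum : ∀ F : Role f → V × Bool → ℤ, ∑ h, F (extend c new κ h) h = ∑ h, F (κ h) h +
      ∑ j, ∑ k, (F ((A j).new k) ((A j).c k) - F (κ ((A j).c k)) ((A j).c k)) := fun F => by
    rw [sum_extend c hcinj]; congr 1; exact Fintype.sum_prod_type _
  have hcost : ((∑ h, D.d (extend c new κ h) h.1 : ℕ) : ℤ) < ((∑ h, D.d (κ h) h.1 : ℕ) : ℤ) := by
    push_cast
    rw [hsum fun r h => (D.d r h.1 : ℤ)]
    have : ∑ j, ∑ k, ((D.d ((A j).new k) ((A j).c k).1 : ℤ) - D.d (κ ((A j).c k)) ((A j).c k).1) <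
        ∑ j, (2 * (a (Z j) : ℤ) - 2 * a (Z (σ j))) :=
      sum_lt_sum_of_nonempty univ_nonempty fun j _ => (A j).sum_d
    have h2 := Equiv.sum_comp σ fun j => 2 * (a (Z j) : ℤ)
    rw [sum_sub_distrib, h2, sub_self] at this
    linarith
  have hH : ∀ X x, D.H (extend c new κ) X x = D.H κ X x +
      ∑ j, ((A j).G X x - (A (σ.symm j)).Nd X x + (A j).O X x) := fun X x => by
    unfold H
    rw [hsum fun r h => D.w X r h.1 x]
    simp only [Arc.sum_w]
    congr 1
    rw [sum_add_distrib, sum_add_distrib, sum_sub_distrib, sum_sub_distrib, Equiv.sum_comp σ.symm fun j => (A j).Nd X x]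
  have hQ : ∀ j X x, 0 ≤ (A j).G X x - (A (σ.symm j)).Nd X x := fun j X x => by
    have h1 : Z (σ (σ.symm j)) = Z j := by rw [Equiv.apply_symm_apply]
    have : ∀ (W : Role f) (e : W = Z j) (B : Arc D κ a (Z (σ.symm j)) W), B.Nd X x ≤ (A j).G X x := by
      rintro W rfl B; exact B.Nd_le (A j) X x
    linarith [this _ h1 (A (σ.symm j))]
  have hge1 : ∀ j X x, D.H κ X x + ((A j).G X x - (A (σ.symm j)).Nd X x) ≤ D.H (extend c new κ) X x := fun j X x => by
    rw [hH]
    have h1 := single_le_sum (f := fun j => (A j).G X x - (A (σ.symm j)).Nd X x + (A j).O X x) (s := univ)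
      (fun i _ => add_nonneg (hQ i X x) ((A i).O_nonneg X x)) (mem_univ j)
    have h2 := (A j).O_nonneg X x
    linarith
  have hge2 : ∀ j X x, D.H κ X x + (A j).O X x ≤ D.H (extend c new κ) X x := fun j X x => by
    rw [hH]
    have h1 := single_le_sum (f := fun j => (A j).G X x - (A (σ.symm j)).Nd X x + (A j).O X x) (s := univ)
      (fun i _ => add_nonneg (hQ i X x) ((A i).O_nonneg X x)) (mem_univ j)
    have h2 := hQ j X x
    linarith
  have hge : ∀ X x, D.H κ X x ≤ D.H (extend c new κ) X x := fun X x => by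
    obtain ⟨j⟩ := ‹Nonempty ι›
    have := hge2 j X x
    have := (A j).O_nonneg X x
    linarith
  refine ⟨extend c new κ, ⟨fun X x hx => (hf.nonneg X x hx).trans (hge X x), fun X => ?_⟩, ?_, by exact_mod_cast hcost⟩
  · rw [hH, hf.zero]
    simp [Arc.G_T, Arc.Nd_T, Arc.O_T]
  intro χ ψ R
  have hκ' : ∀ x, extend c new κ (c x) = new x := fun x => hcinj.extend_apply _ _ _
  have hun : ∀ j k, k ≠ 0 → extend c new κ ((A j).p k, !(A j).b k) = (A j).o := fun j k hk => by
    by_cases hr : ∃ x, c x = ((A j).p k, !(A j).b k)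
    · obtain ⟨⟨j', k'⟩, hx⟩ := hr
      rw [← hx, hκ']
      have h1 := congrArg Prod.fst hx
      have h2 := congrArg Prod.snd hx
      simp only [c, Arc.c] at h1 h2
      fin_cases k' <;> simp at h1 h2 <;> obtain ⟨rfl, rfl⟩ := hinj _ _ _ _ h1 <;> simp at hk h2
    · rw [extend_apply' _ _ _ hr, (A j).ko]
  have hun2 : ∀ j, extend c new κ ((A j).p 2, (A j).b 2) = (A j).l := fun j => by
    rw [extend_apply' _ _ _, (A j).kl]
    rintro ⟨⟨j', k'⟩, hx⟩
    have h1 := congrArg Prod.fst hx
    simp only [c, Arc.c] at h1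
    fin_cases k' <;> simp at h1 <;> have := hinj _ _ _ _ h1 <;> simp at this
  generalize hκ'' : extend c new κ = κ' at *
  refine hc χ ψ ⟨R.flip, fun X x hx h1 h2 => R.step X x hx (h1.trans_le (hge _ _)) (h2.trans_le (hge _ _)), ?_⟩
  have main : ∀ j k, χ ((A j).c k).1 ↔ ψ (κ ((A j).c k)) (D.d (κ ((A j).c k)) ((A j).c k).1 + 1) := fun j => by
    have hposo : ∀ x, D.d (A j).o ((A j).p 1) < x → x ≤ D.d (A j).o ((A j).p 0) → 0 < D.H κ' (A j).o x :=
      fun x h1 h2 => by
        have e1 := hge2 j (A j).o x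
        rw [(A j).O_pos x h1 h2] at e1
        have e2 := hf.nonneg (A j).o x (h2.trans (D.lt _ _).le)
        linarith
    have h12 := (A j).o12; have h13 := (A j).o13; have h20 := (A j).o20; have h30 := (A j).o30
    have hposo' : 0 < D.H κ' (A j).o (D.d (A j).o ((A j).p 0) + 1) := by
      have := hf.loc_pos ((A j).p 0, !(A j).b 0)
      rw [(A j).ko 0] at this
      exact this.trans_le (hge _ _)
    have s1 := R.loc ((A j).p 1, !(A j).b 1)
    have s2 := R.loc ((A j).p 2, !(A j).b 2)
    have s3 := R.loc ((A j).p 3, !(A j).b 3)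
    rw [hun j _ (by decide)] at s1 s2 s3
    have t2 := R.chain (X := (A j).o) (a := D.d (A j).o ((A j).p 1) + 1) (b := D.d (A j).o ((A j).p 2) + 1) (by omega)
      (D.lt _ _) fun x h1 h2 => hposo x (by omega) (by omega)
    have t3 := R.chain (X := (A j).o) (a := D.d (A j).o ((A j).p 1) + 1) (b := D.d (A j).o ((A j).p 3) + 1) (by omega)
      (D.lt _ _) fun x h1 h2 => hposo x (by omega) (by omega)
    have t0 := R.chain (X := (A j).o) (a := D.d (A j).o ((A j).p 1) + 1) (b := D.d (A j).o ((A j).p 0) + 1) (by omega)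
      (D.lt _ _) fun x h1 h2 => by
        rcases h2.eq_or_lt with rfl | h2
        · exact hposo'
        · exact hposo x (by omega) (by omega)
    have n1 : ∀ x ≤ a (Z j), D.H κ (Z j) x + (A j).G (Z j) x ≤ D.H κ' (Z j) x := fun x hx => by
      have h1 : Z (σ (σ.symm j)) = Z j := by rw [Equiv.apply_symm_apply]
      have : ∀ (W : Role f) (e : W = Z j) (B : Arc D κ a (Z (σ.symm j)) W), B.Nd (Z j) x = 0 := by
        rintro W rfl B; exact B.Nd_npas hx
      have h2 := hge1 j (Z j) x
      rw [this _ h1] at h2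
      linarith
    have n2 : ∀ x, a (Z (σ j)) ≤ x → x ≤ D.T → 2 - (A j).Nd (Z (σ j)) x ≤ D.H κ' (Z (σ j)) x := fun x hx hx2 => by
      have h2 := hge1 (σ j) (Z (σ j)) x
      have e : ∀ i, i = j → (A i).Nd (Z (σ j)) x = (A j).Nd (Z (σ j)) x := by rintro i rfl; rfl
      rw [e _ (σ.symm_apply_apply j), (A (σ j)).G_pas hx] at h2
      have := hf.nonneg (Z (σ j)) x hx2
      linarith
    have h23 := (A j).l23
    have k0 : κ' ((A j).p 0, !(A j).b 0) = (A j).g := hκ' (j, 0)
    have k3 : κ' ((A j).p 3, (A j).b 3) = (A j).g := hκ' (j, 2)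
    have haZ := haT j
    have haY := haT (σ j)
    have q1 := hf.loc_pos ((A j).p 1, (A j).b 1)
    have q2 := hf.loc_pos ((A j).p 2, (A j).b 2)
    have q3 := hf.loc_pos ((A j).p 3, (A j).b 3)
    rw [(A j).kl] at q1 q2 q3
    have res : (χ ((A j).p 0) ↔ χ ((A j).p 3)) ∧ (χ ((A j).p 2) ↔ ψ (A j).l (D.d (A j).l ((A j).p 1) + 1)) ∧
        (χ ((A j).p 2) ↔ ψ (A j).l (D.d (A j).l ((A j).p 3) + 1)) := by
      have hl := (A j).hl
      have hg := (A j).hg
      have pas := (A j).pas
      have npas := (A j).npas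
      have m0 := R.loc ((A j).p 0, !(A j).b 0)
      have m3 := R.loc ((A j).p 3, (A j).b 3)
      have m2 := R.loc ((A j).p 2, (A j).b 2)
      rw [k0] at m0; rw [k3] at m3; rw [hun2] at m2
      rcases hm : (A j).m with _ | _
      · simp only [hm, Bool.false_eq_true, if_false] at hl hg
        simp only [Pas, hm, Bool.false_eq_true, if_false, not_le] at pas npas
        rw [hl] at m2 q1 q2 q3 h23 ⊢
        rw [hg] at m0 m3
        rw [hf.flip (D.lt _ _), bar_bar] at q1 q2 q3
        rw [R.flip _ _ (D.lt _ _), bar_bar] at m0 m3 m2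
        rw [R.flip _ _ (D.lt (bar (Z j)) ((A j).p 1)), R.flip _ _ (D.lt (bar (Z j)) ((A j).p 3)), bar_bar]
        have pz1 := pas 1; have pz2 := pas 2; have pz3 := pas 3
        have hZ : ∀ x ≤ a (Z j), (D.T ≤ D.d (bar (Z j)) ((A j).p 1) + x ∨ D.T ≤ D.d (bar (Z j)) ((A j).p 3) + x) →
            0 < D.H κ' (Z j) x := fun x h1 h2 => by
          have e1 := n1 x h1
          have e2 := hf.nonneg (Z j) x (h1.trans haZ)
          have e3 : 1 ≤ (A j).G (Z j) x := by
            unfold Arc.G; rw [un_self, un_self, hm]; simp only [Bool.false_eq_true, if_false]; split_ifs <;> omega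
          linarith
        have d1 := R.chain (X := Z j) (a := D.T - (D.d (bar (Z j)) ((A j).p 1) + 1)) (b := a (Z j)) (by omega) haZ
          fun x h1 h2 => by
            rcases h1.eq_or_lt with rfl | h1
            · exact q1.trans_le (hge _ _)
            · exact hZ x h2 (by omega)
        have d2 := R.chain (X := Z j) (a := D.T - (D.d (bar (Z j)) ((A j).p 2) + 1)) (b := a (Z j)) (by omega) haZ
          fun x h1 h2 => by
            rcases h1.eq_or_lt with rfl | h1
            · exact q2.trans_le (hge _ _)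
            · exact hZ x h2 (by omega)
        have d3 := R.chain (X := Z j) (a := D.T - (D.d (bar (Z j)) ((A j).p 3) + 1)) (b := a (Z j)) (by omega) haZ
          fun x h1 h2 => by
            rcases h1.eq_or_lt with rfl | h1
            · exact q3.trans_le (hge _ _)
            · exact hZ x h2 (by omega)
        have hY : ∀ x, a (Z (σ j)) ≤ x → x ≤ D.T → (D.d (bar (Z (σ j))) ((A j).p 0) + x < D.T ∨
            D.d (bar (Z (σ j))) ((A j).p 3) + x < D.T) → 0 < D.H κ' (Z (σ j)) x := fun x h1 h2 h3 => by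
          have e1 := n2 x h1 h2
          have e3 : (A j).Nd (Z (σ j)) x ≤ 1 := by
            unfold Arc.Nd; rw [un_self, un_self, hm]; simp only [Bool.false_eq_true, if_false]; split_ifs <;> omega
          linarith
        have np0 := npas 0; have np3 := npas 3
        have c0 := R.chain (X := Z (σ j)) (a := a (Z (σ j))) (b := D.T - (D.d (bar (Z (σ j))) ((A j).p 0) + 1)) (by omega)
          (by omega) fun x h1 h2 => hY x h1 (by omega) (by omega)
        have c3 := R.chain (X := Z (σ j)) (a := a (Z (σ j))) (b := D.T - (D.d (bar (Z (σ j))) ((A j).p 3) + 1)) (by omega)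
          (by omega) fun x h1 h2 => hY x h1 (by omega) (by omega)
        exact ⟨m0.trans (c0.symm.trans (c3.trans m3.symm)), m2.trans (d2.trans d1.symm), m2.trans (d2.trans d3.symm)⟩
      · simp only [hm, if_true] at hl hg
        simp only [Pas, hm, if_true, not_lt] at pas npas
        rw [hl] at m2 q1 q3 h23 ⊢
        rw [hg] at m0 m3
        have c0 := R.chain (X := Z j) (a := D.d (Z j) ((A j).p 0) + 1) (b := a (Z j)) (pas 0) haZ fun x h1 h2 => by
          have e1 := n1 x h2
          have e2 := hf.nonneg (Z j) x (h2.trans haZ)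
          have e3 : 1 ≤ (A j).G (Z j) x := by
            unfold Arc.G; rw [un_self, un_self, hm]; simp only [if_true]; split_ifs <;> omega
          linarith
        have c3 := R.chain (X := Z j) (a := D.d (Z j) ((A j).p 3) + 1) (b := a (Z j)) (pas 3) haZ fun x h1 h2 => by
          have e1 := n1 x h2
          have e2 := hf.nonneg (Z j) x (h2.trans haZ)
          have e3 : 1 ≤ (A j).G (Z j) x := by
            unfold Arc.G; rw [un_self, un_self, hm]; simp only [if_true]; split_ifs <;> omega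
          linarith
        have hY : ∀ x, a (Z (σ j)) ≤ x → (x ≤ D.d (Z (σ j)) ((A j).p 1) ∨ x ≤ D.d (Z (σ j)) ((A j).p 3)) →
            0 < D.H κ' (Z (σ j)) x := fun x h1 h2 => by
          have l1 := D.lt (Z (σ j)) ((A j).p 1)
          have l3 := D.lt (Z (σ j)) ((A j).p 3)
          have e1 := n2 x h1 (by omega)
          have e3 : (A j).Nd (Z (σ j)) x ≤ 1 := by
            unfold Arc.Nd; rw [un_self, un_self, hm]; simp only [if_true]; split_ifs <;> omega
          linarith
        have np1 := npas 1; have np2 := npas 2; have np3 := npas 3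
        have d2 := R.chain (X := Z (σ j)) (a := a (Z (σ j))) (b := D.d (Z (σ j)) ((A j).p 2) + 1) (by omega)
          (D.lt _ _) fun x h1 h2 => hY x h1 (by omega)
        have d1 := R.chain (X := Z (σ j)) (a := a (Z (σ j))) (b := D.d (Z (σ j)) ((A j).p 1) + 1) (by omega)
          (D.lt _ _) fun x h1 h2 => by
            rcases h2.eq_or_lt with rfl | h2
            · exact q1.trans_le (hge _ _)
            · exact hY x h1 (by omega)
        have d3 := R.chain (X := Z (σ j)) (a := a (Z (σ j))) (b := D.d (Z (σ j)) ((A j).p 3) + 1) (by omega)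
          (D.lt _ _) fun x h1 h2 => by
            rcases h2.eq_or_lt with rfl | h2
            · exact q3.trans_le (hge _ _)
            · exact hY x h1 (by omega)
        exact ⟨m0.trans (c0.trans (c3.symm.trans m3.symm)), m2.trans (d2.symm.trans d1), m2.trans (d2.symm.trans d3)⟩
    obtain ⟨r1, r2, r3⟩ := res
    intro k
    fin_cases k
    · have e := (A j).κc0
      exact (r1.trans (s3.trans (t3.symm.trans t0))).trans (by rw [show κ ((A j).c ((fun i => i) ⟨0, by decide⟩)) = (A j).o from e]; rfl)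
    · have e := (A j).κc1
      exact (s1.trans (t2.trans (s2.symm.trans r2))).trans (by rw [show κ ((A j).c ((fun i => i) ⟨1, by decide⟩)) = (A j).l from e]; rfl)
    · have e := (A j).κc2
      exact (s3.trans (t3.symm.trans (t2.trans (s2.symm.trans r3)))).trans (by rw [show κ ((A j).c ((fun i => i) ⟨2, by decide⟩)) = (A j).l from e]; rfl)
  intro h
  by_cases hr : ∃ x, c x = h
  · obtain ⟨⟨j, k⟩, rfl⟩ := hr
    exact main j k
  · have := R.loc h
    rw [← hκ'', extend_apply' _ _ _ hr] at this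
    exact this

end Pos

end Pool.Agent.H46.Sc
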