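import Pool.Agent.H46.Sc.Search

/-! The geometry of polyhedral norms, and tours of point lists. -/

set_option autoImplicit false

namespace Pool.Agent.H46.Sc

open Function
open Pool.Agent.H46.CX
open Pool.Agent.H46.MS
open scoped Pointwise

section geometry

variable {s f : ℕ} {B : Set (Fin s → ℝ)} {g : Fin f → Fin s → ℝ}

theorem IPB.mem_smul (h : IsPolyBall B g) {l : ℝ} (hl : 0 < l) (x : Fin s → ℝ) :
    x ∈ l • B ↔ ∀ i, |∑ j, g i j * x j| ≤ l := by
  rw [Set.mem_smul_set_iff_inv_smul_mem₀ hl.ne', h.eq, Set.mem_ofPred_eq]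
  refine forall_congr' fun i => ?_
  have : ∑ j, g i j * (l⁻¹ • x) j = l⁻¹ * ∑ j, g i j * x j := by
    rw [Finset.mul_sum]
    refine Finset.sum_congr rfl fun j _ => ?_
    rw [Pi.smul_apply, smul_eq_mul]; ring
  rw [this, abs_mul, abs_of_pos (inv_pos.2 hl), inv_mul_le_iff₀ hl, mul_one]

theorem IPB.le_of_mem (h : IsPolyBall B g) {l : ℝ} {x : Fin s → ℝ} (hl : 0 ≤ l) (hx : x ∈ l • B) (i : Fin f) :
    |∑ j, g i j * x j| ≤ l := by
  rcases hl.eq_or_lt with rfl | hl
  · obtain ⟨y, _, rfl⟩ := hx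
    simp
  · exact (IPB.mem_smul h hl x).1 hx i

theorem IPB.le_bnorm_iff (h : IsPolyBall B g) {L : ℝ} (hL : 0 < L) (x : Fin s → ℝ) :
    L ≤ bnorm B x ↔ ∃ i, L ≤ |∑ j, g i j * x j| := by
  have hne : ∀ M : ℝ, (∀ i, |∑ j, g i j * x j| ≤ M) → 0 < M → M ∈ {l : ℝ | 0 ≤ l ∧ x ∈ l • B} := fun M hM h0 =>
    ⟨h0.le, (IPB.mem_smul h h0 x).2 hM⟩
  constructor
  · intro hle
    by_contra hcon
    push Not at hcon
    obtain ⟨M, hM, h0, hML⟩ : ∃ M : ℝ, (∀ i, |∑ j, g i j * x j| ≤ M) ∧ 0 < M ∧ M < L := by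
      rcases isEmpty_or_nonempty (Fin f) with he | he
      · exact ⟨L / 2, fun i => he.elim i, by linarith, by linarith⟩
      · obtain ⟨i0, _, hi0⟩ := Finset.exists_max_image (Finset.univ : Finset (Fin f)) (fun i => |∑ j, g i j * x j|)
          Finset.univ_nonempty
        exact ⟨max (|∑ j, g i0 j * x j|) (L / 2), fun i => le_max_of_le_left (hi0 i (Finset.mem_univ i)),
          lt_max_of_lt_right (by linarith), max_lt (hcon i0) (by linarith)⟩
    have : bnorm B x ≤ M := csInf_le ⟨0, fun y hy => hy.1⟩ (hne M hM h0)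
    linarith
  · rintro ⟨i, hi⟩
    refine le_csInf ⟨(∑ i, |∑ j, g i j * x j|) + 1, hne _ (fun i => ?_) (by positivity)⟩ fun l hl =>
      hi.trans (IPB.le_of_mem h hl.1 hl.2 i)
    have := Finset.single_le_sum (f := fun i => |∑ j, g i j * x j|) (fun i _ => abs_nonneg _) (Finset.mem_univ i)
    linarith

theorem IPB.nonneg (x : Fin s → ℝ) : 0 ≤ bnorm B x := Real.sInf_nonneg fun _ h => h.1

theorem IPB.fpos (hs : 0 < s) (h : IsPolyBall B g) : 0 < f := by
  by_contra hf
  obtain rfl : f = 0 := by omega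
  have : B = Set.univ := by rw [h.eq]; ext x; simp
  have : Nonempty (Fin s) := ⟨⟨0, hs⟩⟩
  have hb := h.bdd
  rw [‹B = Set.univ›] at hb
  exact NormedSpace.unbounded_univ ℝ (Fin s → ℝ) hb

theorem IPB.exists_ne (h : IsPolyBall B g) {x : Fin s → ℝ} (hx : x ≠ 0) : ∃ i, ∑ j, g i j * x j ≠ 0 := by
  by_contra hcon
  push Not at hcon
  obtain ⟨C, hC⟩ := h.bdd.exists_norm_le
  obtain ⟨k, hk⟩ := exists_nat_gt (C / ‖x‖)
  have hpos : 0 < ‖x‖ := norm_pos_iff.2 hx
  have hmem : (k : ℝ) • x ∈ B := by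
    rw [h.eq, Set.mem_ofPred_eq]
    intro i
    have : ∑ j, g i j * ((k : ℝ) • x) j = k * ∑ j, g i j * x j := by
      rw [Finset.mul_sum]
      refine Finset.sum_congr rfl fun j _ => ?_
      rw [Pi.smul_apply, smul_eq_mul]; ring
    rw [this, hcon i]; simp
  have h1 := hC _ hmem
  rw [norm_smul, Real.norm_natCast] at h1
  rw [div_lt_iff₀ hpos] at hk
  linarith

theorem IPB.pos (h : IsPolyBall B g) {x : Fin s → ℝ} (hx : x ≠ 0) : 0 < bnorm B x := by
  obtain ⟨i, hi⟩ := IPB.exists_ne h hx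
  exact (abs_pos.2 hi).trans_le ((IPB.le_bnorm_iff h (abs_pos.2 hi) x).2 ⟨i, le_rfl⟩)

/-- the relation `L ≤ g i (x k - x m)` -/
theorem val_of_le {A : ℕ → ℕ → Bool} {n : ℕ} {L : ℝ} (hL : 0 < L) (u : ℕ → ℝ)
    (hA : ∀ k < n, ∀ m < n, (A k m = true ↔ L ≤ u k - u m)) : Val A n where
  irr p hp := by
    rw [← Bool.not_eq_true, hA p hp p hp]; linarith
  fer p hp q hq p' hp' q' hq' h1 h2 := by
    rw [hA _ hp _ hq'] at *
    rw [hA _ hp' _ hq] at *
    rw [hA _ hp _ hq] at h1
    rw [hA _ hp' _ hq'] at h2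
    by_contra hc
    push Not at hc
    linarith [hc.1, hc.2]

theorem abs_le_iff_or {L y : ℝ} : L ≤ |y| ↔ L ≤ y ∨ L ≤ -y := le_abs

end geometry

/-! ### tours of a list of points -/

section tours

variable {V W : Type}

theorem cyc_map {R : V → V → Prop} {φ : W → V} {t : List W} : Cyc R (t.map φ) ↔ Cyc (fun x y => R (φ x) (φ y)) t := by
  unfold Cyc
  rw [← List.map_rotate, List.zip_map, List.forall_mem_map]
  rfl

theorem cyc_congr {R R' : V → V → Prop} {t : List V} (h : ∀ x ∈ t, ∀ y ∈ t, (R x y ↔ R' x y)) : Cyc R t ↔ Cyc R' t := by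
  unfold Cyc
  refine forall₂_congr fun e he => ?_
  obtain ⟨x, y⟩ := e
  have := List.of_mem_zip he
  exact h x this.1 y (List.mem_rotate.1 this.2)

theorem Cyc.mono {R R' : V → V → Prop} {t : List V} (h : ∀ x ∈ t, ∀ y ∈ t, R x y → R' x y) (ht : Cyc R t) :
    Cyc R' t := fun e he => by
  obtain ⟨x, y⟩ := e
  have := List.of_mem_zip he
  exact h x this.1 y (List.mem_rotate.1 this.2) (ht _ he)

theorem range_map_getD (P : List V) (d : V) : (List.range P.length).map (fun k => P.getD k d) = P := by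
  refine List.ext_getElem (by simp) fun i h1 h2 => ?_
  simp [List.getElem?_eq_getElem h2]

variable {f : ℕ} {A : Fin f → ℕ → ℕ → Bool} {R : V → V → Prop} {P : List V} {d : V}

/-- the search of a Hamiltonian cycle, for points -/
theorem search_pts (hA : ∀ i, Val (A i) P.length) (hn : 0 < P.length) (hf : 0 < f)
    (hR : ∀ k < P.length, ∀ m < P.length, (AdjA A k m ↔ R (P.getD k d) (P.getD m d))) :
    (∀ t, search A P.length = some t → t.Perm (List.range P.length) ∧ (t.map fun k => P.getD k d).Perm P ∧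
      Cyc R (t.map fun k => P.getD k d)) ∧
      (search A P.length = none → ¬ ∃ t : List V, t.Perm P ∧ Cyc R t) := by
  have hc : ∀ t : List ℕ, t.Perm (List.range P.length) →
      (Cyc (AdjA A) t ↔ Cyc (fun k m => R (P.getD k d) (P.getD m d)) t) := fun t ht =>
    cyc_congr fun x hx y hy => hR x (List.mem_range.1 (ht.mem_iff.1 hx)) y (List.mem_range.1 (ht.mem_iff.1 hy))
  obtain ⟨h1, h2⟩ := search_spec hA hn hf
  refine ⟨fun t ht => ?_, fun hnone => ?_⟩
  · obtain ⟨h3, h4⟩ := h1 t ht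
    refine ⟨h3, ?_, cyc_map.2 ((hc t h3).1 h4)⟩
    have := h3.map fun k => P.getD k d
    rwa [range_map_getD] at this
  · rintro ⟨t, ht, hct⟩
    have hm : (t.Perm ((List.range P.length).map fun k => P.getD k d)) := by rwa [range_map_getD]
    have := congrFun₂ (List.eq_map_comp_perm (fun k => P.getD k d)) t (List.range P.length)
    rw [← this] at hm
    obtain ⟨t', rfl, ht'⟩ := hm
    exact h2 hnone ⟨t', ht', (hc t' ht').2 (cyc_map.1 hct)⟩

end tours

/-! ### polynomial time for vectors -/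

section vectors

variable {α β ι : Type} [Enc α] [Enc β] {s : ℕ}

theorem pt_toList' : PT fun x : Fin s → β => List.ofFn x := PT.id.cast fun _ => rfl

theorem pt_vec {F : Fin s → α → β} (h : ∀ j, PT (F j)) : PT fun a => fun j => F j a :=
  (pt_ofFn h).cast fun _ => rfl

theorem pt_coord {x : α → Fin s → ℚ} (hx : PT x) (j : Fin s) : PT fun a => x a j :=
  (PT.getD (pt_toList'.comp hx) (PT.const j.1) (PT.const 0)).congr fun a => by
    simp [List.getD_eq_getElem?_getD]

theorem pt_sum {F : ι → α → ℚ} (h : ∀ j, PT (F j)) (S : Finset ι) : PT fun a => ∑ j ∈ S, F j a := by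
  classical
  induction S using Finset.induction_on with
  | empty => exact (PT.const 0).congr fun a => by simp
  | insert j S hj ih => exact (pt_add (h j) ih).congr fun a => Finset.sum_insert hj

theorem pt_vsub {x y : α → Fin s → ℚ} (hx : PT x) (hy : PT y) : PT fun a => x a - y a :=
  (pt_vec (F := fun j a => x a j - y a j) fun j => pt_sub (pt_coord hx j) (pt_coord hy j)).congr fun _ => rfl

end vectors

/-! ### comparable functionals -/

section comparable

variable {α : Type} [Enc α] {s f : ℕ} {B : Set (Fin s → ℝ)} {g : Fin f → Fin s → ℝ}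

theorem comparable_of_rat (h : ∀ i j, ∃ q : ℚ, g i j = q) : Comparable g := by
  choose q hq using h
  refine ⟨fun i => ⟨fun z => decide (z.2 ≤ ∑ j, q i j * z.1 j), ?_, fun z => ?_⟩, fun i k =>
    ⟨fun z => decide (∑ j, q i j * z.1 j ≤ ∑ j, q k j * z.2 j), ?_, fun z => ?_⟩⟩
  · exact pt_le PT.snd' (pt_sum (fun j => pt_mul (PT.const _) (pt_coord PT.fst' j)) _)
  · rw [decide_eq_true_eq, ← Rat.cast_le (K := ℝ)]
    push_cast
    simp only [hq]
  · exact pt_le (pt_sum (fun j => pt_mul (PT.const _) (pt_coord PT.fst' j)) _)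
      (pt_sum (fun j => pt_mul (PT.const _) (pt_coord PT.snd' j)) _)
  · rw [decide_eq_true_eq, ← Rat.cast_le (K := ℝ)]
    push_cast
    simp only [hq]

open Classical in
theorem pt_cmp (h : Comparable g) (i : Fin f) {x : α → Fin s → ℚ} {L : α → ℚ} (hx : PT x) (hL : PT L) :
    PT fun a => decide ((L a : ℝ) ≤ ∑ j, g i j * (x a j : ℝ)) := by
  obtain ⟨F, h1, h2⟩ := h.rat i
  exact (h1.comp (hx.pair hL)).congr fun a => by
    rw [Bool.eq_iff_iff, decide_eq_true_eq, ← h2]

open Classical in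
theorem pt_cmp2 (h : Comparable g) (i k : Fin f) {x y : α → Fin s → ℚ} (hx : PT x) (hy : PT y) :
    PT fun a => decide (∑ j, g i j * (x a j : ℝ) ≤ ∑ j, g k j * (y a j : ℝ)) := by
  obtain ⟨F, h1, h2⟩ := h.two i k
  exact (h1.comp (hx.pair hy)).congr fun a => by
    rw [Bool.eq_iff_iff, decide_eq_true_eq, ← h2]

end comparable

end Pool.Agent.H46.Sc
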