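import Pool.Agent.H46.Sc.HamTo

/-! A connected feasible assignment gives a Hamiltonian cycle. -/

set_option autoImplicit false
set_option linter.unusedSectionVars false

namespace Pool.Agent.H46.Sc

open Finset Function Relation

variable {V : Type} {f : ℕ}

namespace Pos

variable {D : Pos V f} {κ : V × Bool → Role f}

/-- a matching of the half-edges that realises the assignment `κ` -/
structure IsM (D : Pos V f) (κ : V × Bool → Role f) (μ : Equiv.Perm (V × Bool)) : Prop where
  inv : ∀ h, μ (μ h) = h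
  role : ∀ h, κ (μ h) = bar (κ h)
  lt : ∀ h, D.d (κ h) h.1 + D.d (bar (κ h)) (μ h).1 < D.T

theorem H_eq_card [Fintype V] [DecidableEq V] (X : Role f) (a : ℕ) : D.H κ X a =
    ((univ.filter fun h : V × Bool => κ h = X ∧ D.d X h.1 < a).card : ℤ) -
      (univ.filter fun h : V × Bool => κ h = bar X ∧ D.T ≤ D.d (bar X) h.1 + a).card := by
  unfold H w
  rw [sum_sub_distrib, card_filter, card_filter]
  push_cast
  congr 1
  · refine sum_congr rfl fun h _ => ?_
    by_cases e : κ h = X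
    · rw [e]
    · simp [e]
  · refine sum_congr rfl fun h _ => ?_
    by_cases e : κ h = bar X
    · rw [e]
    · simp [e]

theorem Feas.exists_isM [Fintype V] [DecidableEq V] (hf : D.Feas κ) : ∃ μ, IsM D κ μ := by
  classical
  let t : V × Bool → Finset (V × Bool) := fun h => univ.filter fun h' => κ h' = bar (κ h) ∧ D.d (κ h) h.1 + D.d (bar (κ h)) h'.1 < D.T
  have hall : ∀ s : Finset (V × Bool), s.card ≤ (s.biUnion t).card := by
    intro s
    rw [card_eq_sum_card_fiberwise (f := κ) (t := univ) (fun _ _ => mem_univ _),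
      card_eq_sum_card_fiberwise (f := fun h => bar (κ h)) (t := univ) (s := s.biUnion t) (fun _ _ => mem_univ _)]
    refine sum_le_sum fun X _ => ?_
    rcases (s.filter fun h => κ h = X).eq_empty_or_nonempty with he | hne
    · rw [he]; simp
    · obtain ⟨h0, m0, hmin⟩ := exists_min_image _ (fun h : V × Bool => D.d X h.1) hne
      simp only [mem_filter] at m0
      have i1 : (s.filter fun h => κ h = X).card ≤ (univ.filter fun h : V × Bool => κ h = X ∧ D.d X h0.1 ≤ D.d X h.1).card :=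
        card_le_card fun h hh => by
          have := hmin h hh
          simp only [mem_filter, mem_univ, true_and] at hh ⊢
          exact ⟨hh.2, this⟩
      have i2 : (univ.filter fun h : V × Bool => κ h = bar X ∧ D.d X h0.1 + D.d (bar X) h.1 < D.T).card ≤
          ((s.biUnion t).filter fun h => bar (κ h) = X).card :=
        card_le_card fun h hh => by
          simp only [mem_filter, mem_univ, true_and, mem_biUnion, t] at hh ⊢
          exact ⟨⟨h0, m0.1, by rw [m0.2]; exact hh⟩, by rw [hh.1, bar_bar]⟩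
      have e1 := card_filter_add_card_filter_not (s := univ.filter fun h : V × Bool => κ h = X)
        (fun h => D.d X h.1 < D.d X h0.1)
      have e2 := card_filter_add_card_filter_not (s := univ.filter fun h : V × Bool => κ h = bar X)
        (fun h => D.T ≤ D.d (bar X) h.1 + D.d X h0.1)
      rw [filter_filter, filter_filter] at e1 e2
      simp only [not_lt] at e1
      simp only [not_le] at e2
      have e3 := hf.nonneg X (D.d X h0.1) (D.lt _ _).le
      rw [H_eq_card] at e3
      have e4 := hf.zero X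
      rw [H_eq_card] at e4
      have l1 : ∀ h : V × Bool, (κ h = X ∧ D.d X h.1 < D.T) ↔ κ h = X := fun h => and_iff_left (D.lt _ _)
      have l2 : ∀ h : V × Bool, (κ h = bar X ∧ D.T ≤ D.d (bar X) h.1 + D.T) ↔ κ h = bar X := fun h => and_iff_left (by omega)
      simp only [l1, l2] at e4
      have c2 : (univ.filter fun h : V × Bool => κ h = bar X ∧ D.d X h0.1 + D.d (bar X) h.1 < D.T).card =
          (univ.filter fun h : V × Bool => κ h = bar X ∧ D.d (bar X) h.1 + D.d X h0.1 < D.T).card := by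
        congr 1; ext h; simp [add_comm]
      omega
  obtain ⟨g, hg, hgt⟩ := (all_card_le_biUnion_card_iff_exists_injective t).1 hall
  have hgt' : ∀ h, κ (g h) = bar (κ h) ∧ D.d (κ h) h.1 + D.d (bar (κ h)) (g h).1 < D.T := fun h => by
    simpa [t] using hgt h
  let G : Equiv.Perm (V × Bool) := Equiv.ofBijective g (Finite.injective_iff_bijective.1 hg)
  have hG : ∀ h, κ (G h) = bar (κ h) ∧ D.d (κ h) h.1 + D.d (bar (κ h)) (G h).1 < D.T := hgt'
  have hG' : ∀ h, κ (G.symm h) = bar (κ h) ∧ D.d (κ h) h.1 + D.d (bar (κ h)) (G.symm h).1 < D.T := fun h => by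
    obtain ⟨h1, h2⟩ := hG (G.symm h)
    rw [Equiv.apply_symm_apply] at h1 h2
    rw [eq_bar_comm] at h1
    rw [← h1, bar_bar] at h2
    exact ⟨h1.symm, by omega⟩
  have hs : ∀ h, (κ (G h)).2 = !(κ h).2 := fun h => by rw [(hG h).1]; rfl
  have hs' : ∀ h, (κ (G.symm h)).2 = !(κ h).2 := fun h => by rw [(hG' h).1]; rfl
  let m : V × Bool → V × Bool := fun h => if (κ h).2 then G h else G.symm h
  have hm : Involutive m := fun h => by
    simp only [m]
    cases e : (κ h).2 <;> simp [hs, hs', e]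
  refine ⟨hm.toPerm, hm, fun h => ?_, fun h => ?_⟩
  · show κ (m h) = _
    simp only [m]; split_ifs <;> [exact (hG h).1; exact (hG' h).1]
  · show _ + D.d _ (m h).1 < _
    simp only [m]; split_ifs <;> [exact (hG h).2; exact (hG' h).2]

variable {μ : Equiv.Perm (V × Bool)}

theorem IsM.exists_cover [Fintype V] (hM : IsM D κ μ) {X : Role f} {a : ℕ} (h : 0 < D.H κ X a) :
    ∃ h, κ h = X ∧ D.d X h.1 < a ∧ D.d (bar X) (μ h).1 + a < D.T := by
  classical
  by_contra hcon
  push Not at hcon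
  rw [H_eq_card] at h
  have : (univ.filter fun h : V × Bool => κ h = X ∧ D.d X h.1 < a).card ≤
      (univ.filter fun h : V × Bool => κ h = bar X ∧ D.T ≤ D.d (bar X) h.1 + a).card := by
    refine card_le_card_of_injOn μ (fun h hh => ?_) μ.injective.injOn
    simp only [coe_filter, mem_univ, true_and, Set.mem_ofPred_eq] at hh ⊢
    exact ⟨by rw [hM.role, hh.1], hcon h hh.1 hh.2⟩
  omega

theorem IsM.ne (hM : IsM D κ μ) (h : V × Bool) : μ h ≠ h := fun e => by
  have := hM.role h; rw [e] at this; exact ne_bar _ this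

theorem IsM.swap [DecidableEq V] (hM : IsM D κ μ) {X : Role f} {a : ℕ} {h h' : V × Bool} (k : κ h = X) (k' : κ h' = X)
    (c : D.d X h.1 < a ∧ D.d (bar X) (μ h).1 + a < D.T) (c' : D.d X h'.1 < a ∧ D.d (bar X) (μ h').1 + a < D.T) :
    IsM D κ (Equiv.swap h h' * μ * Equiv.swap h h') := by
  have hs : ∀ x, κ (Equiv.swap h h' x) = κ x := fun x => by
    rcases eq_or_ne x h with rfl | h1
    · rw [Equiv.swap_apply_left, k, k']
    · rcases eq_or_ne x h' with rfl | h2
      · rw [Equiv.swap_apply_right, k, k']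
      · rw [Equiv.swap_apply_of_ne_of_ne h1 h2]
  refine ⟨fun x => ?_, fun x => ?_, fun x => ?_⟩
  · simp [hM.inv]
  · simp only [Equiv.Perm.mul_apply]
    rw [hs, hM.role, hs]
  · simp only [Equiv.Perm.mul_apply]
    have n1 : μ h ≠ h ∧ μ h ≠ h' := ⟨hM.ne h, fun e => by have := hM.role h; rw [e, k, k'] at this; exact ne_bar _ this⟩
    have n2 : μ h' ≠ h ∧ μ h' ≠ h' := ⟨fun e => by have := hM.role h'; rw [e, k, k'] at this; exact ne_bar _ this, hM.ne h'⟩
    rcases eq_or_ne x h with rfl | h1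
    · rw [Equiv.swap_apply_left, Equiv.swap_apply_of_ne_of_ne n2.1 n2.2, k]; omega
    · rcases eq_or_ne x h' with rfl | h2
      · rw [Equiv.swap_apply_right, Equiv.swap_apply_of_ne_of_ne n1.1 n1.2, k']; omega
      · rw [Equiv.swap_apply_of_ne_of_ne h1 h2]
        have e1 : κ x = bar (κ (μ x)) := by rw [hM.role, bar_bar]
        rcases eq_or_ne (μ x) h with h3 | h3
        · have h4 : x = μ h := by rw [← h3, hM.inv]
          rw [h3, Equiv.swap_apply_left, e1, h3, k, bar_bar, h4]; omega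
        · rcases eq_or_ne (μ x) h' with h5 | h5
          · have h4 : x = μ h' := by rw [← h5, hM.inv]
            rw [h5, Equiv.swap_apply_right, e1, h5, k', bar_bar, h4]; omega
          · rw [Equiv.swap_apply_of_ne_of_ne h3 h5]; exact hM.lt x

/-- steps along the matching -/
def Em (μ : Equiv.Perm (V × Bool)) (p q : V) : Prop := ∃ b, (μ (p, b)).1 = q
def Es (μ : Equiv.Perm (V × Bool)) (h : V × Bool) (p q : V) : Prop := ∃ b, (p, b) ≠ h ∧ (p, b) ≠ μ h ∧ (μ (p, b)).1 = q

theorem IsM.Es_symm (hM : IsM D κ μ) (h : V × Bool) : Std.Symm (Es μ h) := by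
  constructor
  rintro p q ⟨b, h1, h2, rfl⟩
  refine ⟨(μ (p, b)).2, fun e => h2 ?_, fun e => h1 ?_, ?_⟩
  · rw [← e, Prod.mk.eta, hM.inv]
  · rw [Prod.mk.eta] at e; exact μ.injective e
  · rw [Prod.mk.eta, hM.inv]

theorem even_card_of_invol {α : Type} (S : Finset α) (g : α → α) (h1 : ∀ x ∈ S, g x ∈ S) (h2 : ∀ x ∈ S, g (g x) = x)
    (h3 : ∀ x ∈ S, g x ≠ x) : Even S.card := by
  have := sum_involution (s := S) (f := fun _ => (1 : ZMod 2)) (fun x _ => g x) (fun _ _ => by decide)
    (fun x hx _ => h3 x hx) h1 h2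
  simp only [sum_const, nsmul_eq_mul, mul_one] at this
  exact (ZMod.natCast_eq_zero_iff_even).1 this

theorem IsM.avoid [Fintype V] (hM : IsM D κ μ) (h : V × Bool) : ReflTransGen (Es μ h) h.1 (μ h).1 := by
  classical
  by_contra hcon
  let B : Finset V := univ.filter fun q => ReflTransGen (Es μ h) h.1 q
  have hB : h.1 ∈ B := by simp only [B, mem_filter, mem_univ, true_and]; exact .refl
  have hB' : (μ h).1 ∉ B := by simpa [B] using hcon
  have he := even_card_of_invol ((B ×ˢ (univ : Finset Bool)).erase h) μ (fun x hx => by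
      simp only [mem_erase, mem_product, mem_univ, and_true] at hx ⊢
      have h1 : x ≠ μ h := fun e => hB' (by rw [← e]; exact hx.2)
      refine ⟨fun e => h1 (by rw [← e, hM.inv]), ?_⟩
      simp only [B, mem_filter, mem_univ, true_and] at hx ⊢
      exact hx.2.tail ⟨x.2, by simpa using hx.1, by simpa using h1, rfl⟩) (fun x _ => hM.inv x) (fun x _ => hM.ne x)
  rw [card_erase_of_mem (by simp [hB]), card_product] at he
  have : 0 < B.card := card_pos.2 ⟨_, hB⟩
  simp at he
  obtain ⟨k, hk⟩ := he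
  omega

theorem IsM.Em_le [Fintype V] (hM : IsM D κ μ) (h : V × Bool) {p q : V} (hpq : ReflTransGen (Em μ) p q) :
    ReflTransGen (Es μ h) p q := by
  have := hM.Es_symm h
  have hs : ∀ p q, ReflTransGen (Es μ h) p q → ReflTransGen (Es μ h) q p := fun p q h1 => by
    exact (inferInstance : Std.Symm (ReflTransGen (Es μ h))).symm _ _ h1
  induction hpq with
  | refl => exact .refl
  | @tail c _ _ h2 ih =>
    refine ih.trans ?_
    obtain ⟨b, rfl⟩ := h2
    by_cases e1 : (c, b) = h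
    · rw [e1]; have := hM.avoid h; rw [← e1] at this ⊢; exact this
    · by_cases e2 : (c, b) = μ h
      · rw [e2, hM.inv]; have := hs _ _ (hM.avoid h); rw [← e2] at this; exact this
      · exact .single ⟨b, e1, e2, rfl⟩

theorem IsM.Em_symm (hM : IsM D κ μ) {p q : V} (h : Em μ p q) : Em μ q p := by
  obtain ⟨b, rfl⟩ := h
  exact ⟨(μ (p, b)).2, by rw [Prod.mk.eta, hM.inv]⟩

theorem IsM.rtg_symm (hM : IsM D κ μ) {p q : V} (h : ReflTransGen (Em μ) p q) : ReflTransGen (Em μ) q p := by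
  have : Std.Symm (Em μ) := ⟨fun _ _ => hM.Em_symm⟩
  exact (inferInstance : Std.Symm (ReflTransGen (Em μ))).symm _ _ h

def Cov (D : Pos V f) (κ : V × Bool → Role f) (μ : Equiv.Perm (V × Bool)) (X : Role f) (a : ℕ) (h : V × Bool) : Prop :=
  κ h = X ∧ D.d X h.1 < a ∧ D.d (bar X) (μ h).1 + a < D.T

/-- if a union of components is not everything, two overlapping edges can be swapped -/
theorem IsM.exists_cross [Fintype V] (hM : IsM D κ μ) (hc : D.Conn κ) (A : V → Prop)
    (hA : ∀ h : V × Bool, A h.1 → A (μ h).1) {p0 q0 : V} (hp : A p0) (hq : ¬A q0) :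
    ∃ X a h h', Cov D κ μ X a h ∧ Cov D κ μ X a h' ∧ A h.1 ∧ ¬A h'.1 := by
  by_contra hcon
  push Not at hcon
  have hcon' : ∀ {X a h h'}, Cov D κ μ X a h → Cov D κ μ X a h' → A h.1 → A h'.1 := fun h1 h2 h3 =>
    hcon _ _ _ _ h1 h2 h3
  refine hq ((hc A (fun X a => ∃ h, Cov D κ μ X a h ∧ A h.1) ⟨?_, ?_, ?_⟩ p0 q0).1 hp)
  · have key : ∀ X a, a ≤ D.T → (∃ h, Cov D κ μ X a h ∧ A h.1) → ∃ h, Cov D κ μ (bar X) (D.T - a) h ∧ A h.1 := by
      rintro X a ha ⟨h, ⟨h1, h2, h3⟩, h4⟩
      refine ⟨μ h, ⟨by rw [hM.role, h1], by omega, ?_⟩, hA h h4⟩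
      rw [hM.inv, bar_bar]; omega
    intro X a ha
    refine ⟨key X a ha, fun h => ?_⟩
    have := key (bar X) (D.T - a) (Nat.sub_le _ _) h
    rwa [bar_bar, Nat.sub_sub_self ha] at this
  · intro X a ha h1 h2
    obtain ⟨x, hx⟩ := hM.exists_cover h1
    obtain ⟨y, hy⟩ := hM.exists_cover h2
    constructor
    · rintro ⟨h, hh, hhA⟩
      by_cases e : D.d (bar X) (μ h).1 + (a + 1) < D.T
      · exact ⟨h, ⟨hh.1, by have := hh.2.1; omega, e⟩, hhA⟩
      · have n := D.ne X y.1 (μ h).1
        have := hh.2.2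
        have hy' : Cov D κ μ X a y := ⟨hy.1, by omega, by omega⟩
        exact ⟨y, hy, hcon' hh hy' hhA⟩
    · rintro ⟨h, hh, hhA⟩
      by_cases e : D.d X h.1 < a
      · exact ⟨h, ⟨hh.1, e, by have := hh.2.2; omega⟩, hhA⟩
      · have n := D.ne X h.1 (μ x).1
        have := hh.2.1
        have hx' : Cov D κ μ X (a + 1) x := ⟨hx.1, by omega, by omega⟩
        exact ⟨x, hx, hcon' hh hx' hhA⟩
  · intro h
    have h1 := hM.lt h
    have h2 := D.ne (κ h) h.1 (μ h).1
    have hc' : Cov D κ μ (κ h) (D.d (κ h) h.1 + 1) h := ⟨rfl, by omega, by omega⟩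
    exact ⟨fun hh => ⟨h, hc', hh⟩, fun ⟨h', h3, h4⟩ => hcon' h3 hc' h4⟩

theorem exists_conn [Fintype V] [Nonempty V] (hf : D.Feas κ) (hc : D.Conn κ) :
    ∃ μ, IsM D κ μ ∧ ∀ p q, ReflTransGen (Em μ) p q := by
  classical
  obtain ⟨p0⟩ := ‹Nonempty V›
  obtain ⟨μ0, h0⟩ := hf.exists_isM
  obtain ⟨μ, hM, hmax⟩ := exists_max_image (univ.filter fun μ => IsM D κ μ)
    (fun μ => (univ.filter fun q => ReflTransGen (Em μ) p0 q).card) ⟨μ0, by simpa using h0⟩
  simp only [mem_filter, mem_univ, true_and] at hM hmax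
  suffices hall : ∀ q, ReflTransGen (Em μ) p0 q from ⟨μ, hM, fun p q => (hM.rtg_symm (hall p)).trans (hall q)⟩
  by_contra hcon
  push Not at hcon
  obtain ⟨q0, hq0⟩ := hcon
  obtain ⟨X, a, h, h', c1, c2, hA, hA'⟩ := hM.exists_cross hc (fun q => ReflTransGen (Em μ) p0 q)
    (fun h hh => hh.tail ⟨h.2, rfl⟩) .refl hq0
  have hM' := hM.swap c1.1 c2.1 c1.2 c2.2
  have n2 : μ h' ≠ h ∧ μ h' ≠ h' :=
    ⟨fun e => by have := hM.role h'; rw [e, c1.1, c2.1] at this; exact ne_bar _ this, hM.ne h'⟩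
  have hA2 : ¬ ReflTransGen (Em μ) p0 (μ h').1 := fun hh => hA' (by
    have := hh.tail (show Em μ (μ h').1 (μ (μ h')).1 from ⟨(μ h').2, rfl⟩)
    rwa [hM.inv] at this)
  have step : ∀ q, ReflTransGen (Em μ) p0 q → ReflTransGen (Em (Equiv.swap h h' * μ * Equiv.swap h h')) p0 q := by
    intro q hq
    have key : ∀ q, ReflTransGen (Es μ h) p0 q → ReflTransGen (Em μ) p0 q ∧
        ReflTransGen (Em (Equiv.swap h h' * μ * Equiv.swap h h')) p0 q := fun q hq => by
      induction hq with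
      | refl => exact ⟨.refl, .refl⟩
      | @tail c d _ h2 ih =>
        obtain ⟨b, h3, h4, rfl⟩ := h2
        refine ⟨ih.1.tail ⟨b, rfl⟩, ih.2.tail ⟨b, ?_⟩⟩
        have n3 : (c, b) ≠ h' := fun e => hA' (by rw [← e]; exact ih.1)
        have n4 : μ (c, b) ≠ h := fun e => h4 (by rw [← e, hM.inv])
        have n5 : μ (c, b) ≠ h' := fun e => hA2 (by rw [← e, hM.inv]; exact ih.1)
        simp only [Equiv.Perm.mul_apply]
        rw [Equiv.swap_apply_of_ne_of_ne h3 n3, Equiv.swap_apply_of_ne_of_ne n4 n5]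
    exact (key q (hM.Em_le h hq)).2
  have hlt : (univ.filter fun q => ReflTransGen (Em μ) p0 q).card <
      (univ.filter fun q => ReflTransGen (Em (Equiv.swap h h' * μ * Equiv.swap h h')) p0 q).card := by
    refine card_lt_card ⟨fun q hq => ?_, fun hsub => hA2 ?_⟩
    · simp only [mem_filter, mem_univ, true_and] at hq ⊢; exact step q hq
    · have := @hsub (μ h').1
      simp only [mem_filter, mem_univ, true_and] at this
      refine this ((step _ hA).tail ⟨h.2, ?_⟩)
      simp only [Equiv.Perm.mul_apply, Prod.mk.eta]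
      rw [Equiv.swap_apply_left, Equiv.swap_apply_of_ne_of_ne n2.1 n2.2]
  exact absurd (hmax _ hM') (not_le.2 hlt)

theorem ham_of_conn [Fintype V] (hM : IsM D κ μ) (hall : ∀ p q, ReflTransGen (Em μ) p q) : Ham D.Adj := by
  classical
  rcases isEmpty_or_nonempty V with hV | ⟨⟨p0⟩⟩
  · exact ⟨1, fun p => hV.elim p, fun p => hV.elim p⟩
  let al : V × Bool → V × Bool := fun x => (x.1, !x.2)
  have hal : Involutive al := fun x => by simp [al]
  let α : Equiv.Perm (V × Bool) := hal.toPerm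
  have hα : ∀ x, α x = (x.1, !x.2) := fun _ => rfl
  have hαα : ∀ x, α (α x) = x := hal
  have hαne : ∀ x, α x ≠ x := fun x e => by have := congrArg Prod.snd e; simp [hα] at this
  set φ : Equiv.Perm (V × Bool) := α * μ with hφ
  have φa : ∀ x, φ x = α (μ x) := fun _ => rfl
  have hinv : ∀ x, φ⁻¹ x = μ (α x) := fun x => by
    rw [Equiv.Perm.inv_eq_iff_eq, φa, hM.inv, hαα]
  have hconj : α * φ * α⁻¹ = φ⁻¹ := by
    have hαi : α⁻¹ = α := by ext1 x; rw [Equiv.Perm.inv_eq_iff_eq, hαα]
    ext1 x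
    rw [hαi, hinv]; simp only [Equiv.Perm.mul_apply, φa, hαα]
  have hz : ∀ (k : ℤ) x, (φ ^ (-k)) (α x) = α ((φ ^ k) x) := fun k x => by
    have : (φ⁻¹) ^ k = α * φ ^ k * α⁻¹ := by rw [← hconj, conj_zpow]
    rw [zpow_neg, ← inv_zpow, this]; simp
  have no : ∀ x, ¬ φ.SameCycle x (α x) := by
    rintro x ⟨k, hk⟩
    rcases Int.even_or_odd' k with ⟨j, rfl | rfl⟩
    · have h1 : (φ ^ j) x = α ((φ ^ j) x) := by
        rw [← hz, ← hk, ← Equiv.Perm.mul_apply, ← zpow_add]; congr 2; ring
      exact hαne _ h1.symm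
    · have h1 : φ ((φ ^ j) x) = α ((φ ^ j) x) := by
        rw [← hz, ← hk, ← Equiv.Perm.mul_apply, ← Equiv.Perm.mul_apply, ← zpow_add, ← zpow_one_add]; congr 2; ring
      rw [φa] at h1
      exact hM.ne _ (α.injective h1)
  have touch : ∀ p, ∃ b, φ.SameCycle (p0, true) (p, b) := by
    intro p
    induction hall p0 p with
    | refl => exact ⟨true, .rfl⟩
    | @tail c d _ h2 ih =>
      obtain ⟨b', rfl⟩ := h2
      obtain ⟨b, hb⟩ := ih
      by_cases e : b' = b
      · subst e
        refine ⟨!(μ (c, b')).2, hb.trans ⟨1, ?_⟩⟩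
        rw [zpow_one, φa, hα]
      · have e' : b' = !b := by cases b <;> cases b' <;> simp_all
        subst e'
        refine ⟨(μ (c, !b)).2, hb.trans ⟨-1, ?_⟩⟩
        rw [zpow_neg_one, hinv, hα]
  choose β hβ using touch
  have uniq : ∀ y : V × Bool, φ.SameCycle (p0, true) y → y = (y.1, β y.1) := fun y hy => by
    by_contra hne
    have e : α y = (y.1, β y.1) := by
      rw [hα]; refine Prod.ext rfl ?_
      have : y.2 ≠ β y.1 := fun e => hne (Prod.ext rfl e)
      show (!y.2) = β y.1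
      cases h1 : y.2 <;> cases h2 : β y.1 <;> simp_all
    exact no y (hy.symm.trans (by rw [e]; exact hβ _))
  let x : V → V × Bool := fun p => (p, β p)
  let π : V → V := fun p => (μ (x p)).1
  have hx : ∀ p, x (π p) = φ (x p) := fun p => by
    have h1 : φ.SameCycle (p0, true) (φ (x p)) := (hβ p).trans ⟨1, by rw [zpow_one]⟩
    have h2 := uniq _ h1
    exact h2.symm
  have hxi : Injective x := fun p q e => congrArg Prod.fst e
  have hπ : Injective π := fun p q e => hxi (φ.injective (by rw [← hx, ← hx, e]))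
  refine ⟨Equiv.ofBijective π (Finite.injective_iff_bijective.1 hπ), fun p => ⟨κ (x p), hM.lt (x p)⟩, fun p q => ?_⟩
  have h1 : φ.SameCycle (x p) (x q) := (hβ p).symm.trans (hβ q)
  obtain ⟨k, -, hk⟩ := h1.exists_pow_eq'
  have h2 : ∀ k : ℕ, (φ ^ k) (x p) = x (((Equiv.ofBijective π (Finite.injective_iff_bijective.1 hπ)) ^ k) p) := fun k => by
    induction k with
    | zero => rfl
    | succ k ih =>
      rw [pow_succ', pow_succ']
      show φ ((φ ^ k) (x p)) = x (π (((Equiv.ofBijective π (Finite.injective_iff_bijective.1 hπ)) ^ k) p))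
      rw [ih, hx]
  exact ⟨k, by rw [zpow_natCast]; exact hxi (by rw [← h2, hk])⟩

theorem ham_iff [Fintype V] [Nonempty V] : Ham D.Adj ↔ ∃ κ, D.Feas κ ∧ D.Conn κ :=
  ⟨exists_of_ham, fun ⟨_, hf, hc⟩ => by
    classical
    obtain ⟨_, hM, h⟩ := exists_conn hf hc
    exact ham_of_conn hM h⟩

end Pos

end Pool.Agent.H46.Sc
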