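import Pool.Agent.H46.Sc.HamTo

/-! Hamiltonian cycles as lists. -/

set_option autoImplicit false
set_option linter.unusedSectionVars false

namespace Pool.Agent.H46.Sc

open Finset Function

variable {V : Type}

theorem ham_iff_list [Fintype V] (R : V → V → Prop) (x0 : V) :
    Ham R ↔ ∃ c : List V, (x0 :: c).Nodup ∧ (∀ v, v ∈ x0 :: c) ∧ List.IsChain R (x0 :: c ++ [x0]) := by
  classical
  constructor
  · rintro ⟨π, h1, h2⟩
    have hc : π.IsCycleOn ((univ : Finset V) : Set V) := ⟨by simp, fun x _ y _ => h2 x y⟩
    obtain ⟨N, hN⟩ : ∃ N, Fintype.card V = N + 1 := ⟨Fintype.card V - 1, by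
      have : 0 < Fintype.card V := Fintype.card_pos_iff.2 ⟨x0⟩
      omega⟩
    have hl : x0 :: (List.range N).map (fun k => (π ^ (k + 1)) x0) = (List.range (N + 1)).map fun k => (π ^ k) x0 := by
      rw [List.range_succ_eq_map]; simp
    have hl' : x0 :: (List.range N).map (fun k => (π ^ (k + 1)) x0) ++ [x0] =
        (List.range (N + 1 + 1)).map fun k => (π ^ k) x0 := by
      rw [hl, List.range_succ (n := N + 1), List.map_append]
      congr 1
      have := hc.pow_card_apply (a := x0) (mem_univ _)
      rw [card_univ, hN] at this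
      simp only [List.map_cons, List.map_nil, this]
    refine ⟨(List.range N).map fun k => (π ^ (k + 1)) x0, ?_, fun v => ?_, ?_⟩
    · rw [hl]
      refine List.Nodup.map_on (fun i hi j hj e => ?_) List.nodup_range
      rw [hc.pow_apply_eq_pow_apply (mem_univ _), card_univ, hN] at e
      rw [List.mem_range] at hi hj
      exact Nat.ModEq.eq_of_lt_of_lt e hi hj
    · rw [hl]
      obtain ⟨k, hk, rfl⟩ := hc.exists_pow_eq (a := x0) (b := v) (mem_univ _) (mem_univ _)
      rw [card_univ, hN] at hk
      exact List.mem_map.2 ⟨k, List.mem_range.2 hk, rfl⟩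
    · rw [hl', List.isChain_map, List.isChain_range_succ]
      intro m _
      rw [Nat.succ_eq_add_one, pow_succ']
      exact h1 _
  · rintro ⟨c, h1, h2, h3⟩
    rw [List.isChain_cons_append_singleton_iff_forall₂, List.forall₂_iff_get] at h3
    obtain ⟨h3, h4⟩ := h3
    have hlen : 0 < (x0 :: c).length := by simp
    have hadj : ∀ (i : ℕ) (hi : i < (x0 :: c).length), R ((x0 :: c)[i]) ((x0 :: c)[(i + 1) % (x0 :: c).length]'(Nat.mod_lt _ hlen)) := by
      intro i hi
      have := h4 i hi (by rw [← h3]; exact hi)
      simp only [List.get_eq_getElem] at this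
      convert this using 1
      by_cases e : i < c.length
      · rw [List.getElem_append_left e]
        have e2 : (i + 1) % (x0 :: c).length = i + 1 := Nat.mod_eq_of_lt (by simpa using e)
        simp only [e2, List.getElem_cons_succ]
      · have hi' : i < c.length + 1 := by simpa using hi
        have e3 : i = c.length := by omega
        subst e3
        have e2 : (c.length + 1) % (x0 :: c).length = 0 := by simp
        simp
    refine ⟨(x0 :: c).formPerm, fun p => ?_, fun p q => ?_⟩
    · obtain ⟨i, hi, rfl⟩ := List.getElem_of_mem (h2 p)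
      rw [List.formPerm_apply_getElem _ h1]
      exact hadj i hi
    · have key : ∀ p, (x0 :: c).formPerm.SameCycle x0 p := fun p => by
        obtain ⟨i, hi, rfl⟩ := List.getElem_of_mem (h2 p)
        refine ⟨i, ?_⟩
        rw [zpow_natCast]
        have := List.formPerm_pow_apply_getElem (x0 :: c) h1 i 0 hlen
        simp only [List.getElem_cons_zero, Nat.zero_add] at this
        rw [this]
        congr 1
        exact Nat.mod_eq_of_lt hi
      exact (key p).symm.trans (key q)

end Pool.Agent.H46.Sc
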