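import Pool.Agent.H46.Sc.Bound

/-! A Hamiltonian cycle gives a connected feasible assignment. -/

set_option autoImplicit false
set_option linter.unusedSectionVars false

namespace Pool.Agent.H46.Sc

open Finset Function

/-- a Hamiltonian cycle, as a cyclic permutation -/
def Ham {V : Type} (R : V → V → Prop) : Prop := ∃ π : Equiv.Perm V, (∀ p, R p (π p)) ∧ ∀ p q, π.SameCycle p q

variable {V : Type} {f : ℕ}

namespace Pos

variable {D : Pos V f} {a : Role f → ℕ} {κ : V × Bool → Role f}

theorem pair_nonneg {r : Role f} {p q : V} (h : D.d r p + D.d (bar r) q < D.T) (X : Role f) (x : ℕ) :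
    0 ≤ D.w X r p x + D.w X (bar r) q x := by
  rcases eq_or_ne r X with rfl | h1
  · simp only [w_self, w_bar]; split_ifs <;> omega
  · rcases eq_or_ne r (bar X) with rfl | h2
    · simp only [bar_bar] at h ⊢
      simp only [w_self, w_bar]; split_ifs <;> omega
    · rw [D.w_other h1 h2, D.w_other (by rwa [ne_eq, ← eq_bar_comm]) (by rwa [ne_eq, bar_inj])]; rfl

theorem pair_T (r : Role f) (p q : V) (X : Role f) : D.w X r p D.T + D.w X (bar r) q D.T = 0 := by
  rw [w_T, w_T]
  have e1 : bar r = X ↔ r = bar X := by rw [eq_bar_comm]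
  have e2 : bar r = bar X ↔ r = X := bar_inj
  simp only [e1, e2]; ring

theorem pair_pos {r : Role f} {p q : V} {x : ℕ} (h1 : D.d r p < x) (h2 : D.d (bar r) q + x < D.T) :
    D.w r r p x + D.w r (bar r) q x = 1 := by
  simp only [w_self, w_bar]; split_ifs <;> omega

theorem exists_of_ham [Fintype V] (h : Ham D.Adj) : ∃ κ, D.Feas κ ∧ D.Conn κ := by
  obtain ⟨π, h1, h2⟩ := h
  choose r hr using h1
  let κ : V × Bool → Role f := fun h => if h.2 then r h.1 else bar (r (π.symm h.1))
  have hH : ∀ X a, D.H κ X a = ∑ p, (D.w X (r p) p a + D.w X (bar (r p)) (π p) a) := fun X a => by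
    unfold H
    rw [Fintype.sum_prod_type]
    simp only [Fintype.sum_bool, κ, if_true, Bool.false_eq_true, if_false]
    rw [sum_add_distrib, sum_add_distrib]
    congr 1
    rw [← Equiv.sum_comp π]
    simp
  have hf : D.Feas κ := ⟨fun X a _ => by rw [hH]; exact sum_nonneg fun p _ => pair_nonneg (hr p) X a,
    fun X => by rw [hH]; exact sum_eq_zero fun p _ => pair_T (r p) p (π p) X⟩
  refine ⟨κ, hf, fun χ ψ R => ?_⟩
  have key : ∀ p, χ p ↔ χ (π p) := fun p => by
    have e1 := R.loc (p, true)
    have e2 := R.loc' (e := (π p, false)) (X := r p) (by simp [κ])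
    have h3 := D.ne (r p) p (π p)
    have h4 := hr p
    have e3 := R.chain (X := r p) (a := D.d (r p) p + 1) (b := D.T - (D.d (bar (r p)) (π p) + 1)) (by omega) (by omega)
      fun x h5 h6 => by
        rw [hH]
        have e := single_le_sum (f := fun q => D.w (r p) (r q) q x + D.w (r p) (bar (r q)) (π q) x) (s := univ)
          (fun i _ => pair_nonneg (hr i) (r p) x) (mem_univ p)
        have e' := pair_pos (D := D) (r := r p) (p := p) (q := π p) (x := x) (by omega) (by omega)
        linarith
    exact e1.trans (e3.trans e2.symm)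
  have key2 : ∀ p (k : ℤ), χ p ↔ χ ((π ^ k) p) := fun p k => by
    induction k with
    | zero => simp
    | succ k ih => rw [ih, key, add_comm, zpow_add]; rfl
    | pred k ih =>
      rw [ih, key (((π ^ (-(k : ℤ) - 1)) p))]
      have : π ((π ^ (-(k : ℤ) - 1)) p) = (π ^ (-(k : ℤ))) p := by
        rw [← Equiv.Perm.mul_apply, ← zpow_one_add]; congr 2; ring
      rw [this]
  intro p q
  obtain ⟨k, rfl⟩ := h2 p q
  exact key2 p k

end Pos

end Pool.Agent.H46.Sc
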