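import Pool.Agent.H46.Sc.Node

/-! Levels of the segments of a connected assignment, and the local transition rules they satisfy. -/

set_option autoImplicit false
set_option linter.unusedSectionVars false

namespace Pool.Agent.H46.Sc

open Finset Function Relation
open Pos (code code_inj)

variable {n f : ℕ}

/-- a level function on a connected set: every point other than the root has a neighbour of smaller level -/
theorem exists_level {V : Type} [Fintype V] (A : V → V → Prop) (hA : ∀ p q, A p q → A q p) (p0 : V)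
    (h : ∀ q, ReflTransGen A p0 q) :
    ∃ l : V → ℕ, (∀ p, l p < Fintype.card V) ∧ ∀ p, l p = 0 ∧ p = p0 ∨ ∃ q, A q p ∧ l q < l p := by
  classical
  let G : SimpleGraph V := ⟨fun p q => p ≠ q ∧ A p q, ⟨fun p q h => ⟨h.1.symm, hA _ _ h.2⟩⟩, ⟨fun p h => h.1 rfl⟩⟩
  have hr : ∀ q, G.Reachable p0 q := fun q => by
    induction h q with
    | refl => exact SimpleGraph.Reachable.refl _
    | @tail c d _ h2 ih =>
      by_cases e : c = d
      · subst e; exact ih
      · exact ih.trans (SimpleGraph.Adj.reachable (G := G) ⟨e, h2⟩)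
  refine ⟨fun p => G.dist p p0, fun p => ?_, fun p => ?_⟩
  · obtain ⟨w, hw, hl⟩ := (hr p).symm.exists_path_of_dist
    simp only
    rw [← hl]; exact hw.length_lt
  · obtain ⟨w, hl⟩ := (hr p).symm.exists_walk_length_eq_dist
    cases w with
    | nil => left; exact ⟨by simp, rfl⟩
    | @cons _ v _ hadj w' =>
      right
      refine ⟨v, hA _ _ hadj.2, ?_⟩
      have := G.dist_le w'
      simp only [SimpleGraph.Walk.length_cons] at hl
      simp only
      omega

namespace Pos

variable {D : Pos (Fin n) f} {κ : Fin n × Bool → Role f}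

def On (κ : Fin n × Bool → Role f) (X : Role f) (h : Fin n × Bool) : Prop := κ h = X ∨ κ h = bar X

theorem On.flip {X : Role f} {h : Fin n × Bool} (ho : On κ X h) : On κ (bar X) h := by
  unfold On at *; rw [bar_bar]; exact ho.symm

theorem loc_le (X : Role f) (h : Fin n × Bool) : D.loc κ X h ≤ D.T := by
  unfold loc; have := D.lt X h.1; split_ifs <;> omega

theorem loc_flip {X : Role f} {h : Fin n × Bool} (ho : On κ X h) : D.loc κ (bar X) h = D.T - D.loc κ X h := by
  unfold loc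
  have h1 := D.lt X h.1
  have h2 := D.lt (bar X) h.1
  rcases ho with e | e
  · rw [e, if_neg (ne_bar X), if_pos rfl, bar_bar]
  · rw [e, if_pos rfl, if_neg (bar_ne X)]; omega

theorem Lnk.flip (hf : D.Feas κ) {X : Role f} {a b : ℕ} (ha : a ≤ D.T) (hb : b ≤ D.T) (h : D.Lnk κ X a b) :
    D.Lnk κ (bar X) (D.T - a) (D.T - b) := fun x h1 h2 => by
  rw [hf.flip (by omega), bar_bar]
  exact h _ (by omega) (by omega)

theorem exists_own_link (_hf : D.Feas κ) {X : Role f} {a : ℕ} (h : 0 < D.H κ X a) :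
    ∃ g, κ g = X ∧ D.Lnk κ X (D.loc κ X g) a := by
  classical
  have hex : (univ.filter fun g : Fin n × Bool => κ g = X ∧ D.d X g.1 < a).Nonempty := by
    by_contra hcon
    rw [not_nonempty_iff_eq_empty] at hcon
    rw [H_eq_card, hcon] at h
    simp at h
    omega
  obtain ⟨g, hg, hmax⟩ := exists_max_image _ (fun g : Fin n × Bool => D.d X g.1) hex
  simp only [mem_filter, mem_univ, true_and] at hg hmax
  refine ⟨g, hg.1, fun x h1 h2 => ?_⟩
  have hl : D.loc κ X g = D.d X g.1 + 1 := by unfold loc; rw [if_pos hg.1]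
  rw [hl] at h1 h2
  refine h.trans_le (sum_le_sum fun k _ => ?_)
  rcases eq_or_ne (κ k) X with e | e
  · rw [e, w_self, w_self]
    by_cases e2 : D.d X k.1 < a
    · have := hmax k ⟨e, e2⟩
      rw [if_pos e2, if_pos (by omega)]
    · rw [if_neg e2]; split_ifs <;> omega
  · rcases eq_or_ne (κ k) (bar X) with e2 | e2
    · rw [e2, w_bar, w_bar]; split_ifs <;> omega
    · rw [D.w_other e e2, D.w_other e e2]

/-- the level of a half-edge: the level of the segment it sits in -/
def lv (D : Pos (Fin n) f) (κ : Fin n × Bool → Role f) (e : Role f → ℕ → ℕ) (h : Fin n × Bool) : ℕ :=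
  e (κ h) (D.d (κ h) h.1 + 1)

structure IsLev (D : Pos (Fin n) f) (κ : Fin n × Bool → Role f) (e : Role f → ℕ → ℕ) : Prop where
  step : ∀ X a, 0 < D.H κ X a → 0 < D.H κ X (a + 1) → e X a = e X (a + 1)
  flip : ∀ X a, a ≤ D.T → e X a = e (bar X) (D.T - a)
  wit : ∀ X a, a ≤ D.T → 0 < D.H κ X a → ∃ h, On κ X h ∧ Wit (D.lv κ e) h ∧ D.Lnk κ X (D.loc κ X h) a
  lt : ∀ X a, e X a < n
  zero : ∀ X, e X 0 = 0

theorem exists_isLev (hf : D.Feas κ) (hc : D.Conn κ) (p0 : Fin n) (hp0 : p0.1 = 0) : ∃ e, IsLev D κ e := by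
  classical
  let A : Fin n → Fin n → Prop := fun p q => ∃ X h h', h.1 = p ∧ h'.1 = q ∧ On κ X h ∧ On κ X h' ∧
    D.Lnk κ X (D.loc κ X h) (D.loc κ X h')
  have hreach : ∀ q, ReflTransGen A p0 q := by
    refine fun q => (hc (fun q => ReflTransGen A p0 q) (fun X a => ∃ h, On κ X h ∧ ReflTransGen A p0 h.1 ∧
      D.Lnk κ X (D.loc κ X h) a) ⟨?_, ?_, ?_⟩ p0 q).1 .refl
    · have key : ∀ X a, a ≤ D.T → (∃ h, On κ X h ∧ ReflTransGen A p0 h.1 ∧ D.Lnk κ X (D.loc κ X h) a) →
          ∃ h, On κ (bar X) h ∧ ReflTransGen A p0 h.1 ∧ D.Lnk κ (bar X) (D.loc κ (bar X) h) (D.T - a) := by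
        rintro X a ha ⟨h, h1, h2, h3⟩
        exact ⟨h, h1.flip, h2, by rw [loc_flip h1]; exact h3.flip hf (loc_le _ _) ha⟩
      intro X a ha
      refine ⟨key X a ha, fun h => ?_⟩
      have := key (bar X) (D.T - a) (Nat.sub_le _ _) h
      rwa [bar_bar, Nat.sub_sub_self ha] at this
    · intro X a ha h1 h2
      constructor
      · rintro ⟨h, h3, h4, h5⟩; exact ⟨h, h3, h4, h5.trans (Lnk.succ h1 h2)⟩
      · rintro ⟨h, h3, h4, h5⟩; exact ⟨h, h3, h4, h5.trans (Lnk.succ h1 h2).symm⟩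
    · intro h
      have hl : D.loc κ (κ h) h = D.d (κ h) h.1 + 1 := by unfold loc; rw [if_pos rfl]
      rw [← hl]
      constructor
      · intro h1
        exact ⟨h, Or.inl rfl, h1, Lnk.refl (by rw [hl]; exact hf.loc_pos h)⟩
      · rintro ⟨h', h1, h2, h3⟩
        exact h2.tail ⟨κ h, h', h, rfl, rfl, h1, Or.inl rfl, h3⟩
  obtain ⟨l, hlt, hl⟩ := exists_level A (by
    rintro p q ⟨X, h, h', h1, h2, h3, h4, h5⟩
    exact ⟨X, h', h, h2, h1, h4, h3, h5.symm⟩) p0 hreach
  rw [Fintype.card_fin] at hlt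
  let S : Role f → ℕ → Set ℕ := fun X a => {k | ∃ g, On κ X g ∧ D.Lnk κ X (D.loc κ X g) a ∧ l g.1 = k}
  have hn : 0 < n := p0.pos
  have hstep : ∀ X a b, D.Lnk κ X a b → S X a = S X b := fun X a b hab => by
    ext k
    constructor
    · rintro ⟨g, h1, h2, h3⟩; exact ⟨g, h1, h2.trans hab, h3⟩
    · rintro ⟨g, h1, h2, h3⟩; exact ⟨g, h1, h2.trans hab.symm, h3⟩
  have hflip : ∀ X a, a ≤ D.T → S X a = S (bar X) (D.T - a) := fun X a ha => by
    have key : ∀ X a, a ≤ D.T → S X a ⊆ S (bar X) (D.T - a) := by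
      rintro X a ha k ⟨g, h1, h2, h3⟩
      exact ⟨g, h1.flip, by rw [loc_flip h1]; exact h2.flip hf (loc_le _ _) ha, h3⟩
    refine Set.Subset.antisymm (key X a ha) ?_
    have := key (bar X) (D.T - a) (Nat.sub_le _ _)
    rwa [bar_bar, Nat.sub_sub_self ha] at this
  have hlv : ∀ X h, On κ X h → D.lv κ (fun X a => sInf (S X a)) h = sInf (S X (D.loc κ X h)) := fun X h ho => by
    unfold lv
    rcases ho with e | e
    · subst e; unfold loc; rw [if_pos rfl]
    · rw [e]
      have := hflip (bar X) (D.d (bar X) h.1 + 1) (D.lt _ _)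
      rw [bar_bar] at this
      unfold loc
      rw [if_neg (by rw [e]; exact bar_ne X)]
      exact congrArg sInf this
  refine ⟨fun X a => sInf (S X a), fun X a h1 h2 => by rw [hstep X a (a + 1) (Lnk.succ h1 h2)], fun X a ha => by
    rw [hflip X a ha], fun X a ha h => ?_, fun X a => ?_, fun X => ?_⟩
  · obtain ⟨g0, h1, h2⟩ := exists_own_link hf h
    obtain ⟨g, h3, h4, h5⟩ := Nat.sInf_mem (s := S X a) ⟨_, g0, Or.inl h1, h2, rfl⟩
    refine ⟨g, h3, ?_, h4⟩
    rcases hl g.1 with ⟨-, h6⟩ | ⟨u, ⟨X', hu, hg, k1, k2, k3, k4, k5⟩, h6⟩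
    · left; rw [h6, hp0]
    · right
      have e1 : D.lv κ (fun X a => sInf (S X a)) g = l g.1 := by
        rw [hlv X g h3, hstep X _ _ h4, h5]
      have e2 : D.lv κ (fun X a => sInf (S X a)) hg ≤ l u := by
        rw [hlv X' hg k4]
        exact Nat.sInf_le ⟨hu, k3, k5, by rw [k1]⟩
      have e3 : hg = (g.1, !g.2) := by
        have : hg ≠ g := fun e => by rw [e] at e2; omega
        refine Prod.ext k2 ?_
        have h7 : hg.2 ≠ g.2 := fun e => this (Prod.ext k2 e)
        simp only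
        cases h8 : hg.2 <;> cases h9 : g.2 <;> simp_all
      rw [e3] at e2
      omega
  · by_cases hne : (S X a).Nonempty
    · obtain ⟨g, -, -, h3⟩ := Nat.sInf_mem hne
      rw [← h3]; exact hlt _
    · rw [Set.not_nonempty_iff_eq_empty.1 hne, Nat.sInf_empty]; exact hn
  · have : S X 0 = ∅ := by
      refine Set.eq_empty_iff_forall_notMem.2 ?_
      rintro k ⟨g, -, h2, -⟩
      have := h2.right
      rw [H_zero] at this
      exact lt_irrefl _ this
    rw [this, Nat.sInf_empty]

variable {e : Role f → ℕ → ℕ}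

theorem IsLev.link (he : IsLev D κ e) {X : Role f} {a b : ℕ} (h : D.Lnk κ X a b) : e X a = e X b := by
  have key : ∀ a b, a ≤ b → D.Lnk κ X a b → e X a = e X b := fun a b hab h => by
    obtain ⟨k, rfl⟩ := Nat.exists_eq_add_of_le hab
    clear hab
    induction k with
    | zero => rfl
    | succ k ih =>
      rw [ih fun x h1 h2 => h x (by omega) (by omega)]
      exact he.step X (a + k) (h _ (by omega) (by omega)) (h _ (by omega) (by omega))
  rcases le_total a b with hab | hab
  · exact key a b hab h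
  · exact (key b a hab h.symm).symm

theorem IsLev.lv_eq (he : IsLev D κ e) {X : Role f} {h : Fin n × Bool} (ho : On κ X h) :
    D.lv κ e h = e X (D.loc κ X h) := by
  unfold lv
  rcases ho with e1 | e1
  · subst e1; unfold loc; rw [if_pos rfl]
  · have := he.flip (bar X) (D.d (bar X) h.1 + 1) (D.lt _ _)
    rw [bar_bar] at this
    unfold loc
    rw [if_neg (by rw [e1]; exact bar_ne X), e1, this]

theorem Pr.on {X : Role f} {a : ℕ} {h : Fin n × Bool} (hp : D.Pr κ X a h) : On κ X h :=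
  hp.imp And.left And.left

/-- the flag: a witness of the current segment has been passed -/
def Fl (D : Pos (Fin n) f) (κ : Fin n × Bool → Role f) (e : Role f → ℕ → ℕ) (X : Role f) (a : ℕ) : Prop :=
  ∃ h, D.Pr κ X a h ∧ Wit (D.lv κ e) h ∧ D.Lnk κ X (D.loc κ X h) a

open Classical in
noncomputable def nodeOf (D : Pos (Fin n) f) (κ : Fin n × Bool → Role f) (e : Role f → ℕ → ℕ) (X : Role f) (a : ℕ) : Nd :=
  (a, (D.H κ X a).toNat, e X a, decide (Fl D κ e X a))

theorem tr_own (hf : D.Feas κ) (he : IsLev D κ e) {X : Role f} {q : Fin n} :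
    EvOwn (cfg κ (D.lv κ e) q) (code X) q.1 (nodeOf D κ e X (D.d X q)) (nodeOf D κ e X (D.d X q + 1)) := by
  have hl := D.lt X q
  have h1 := hf.nonneg X _ hl.le
  have h2 := hf.nonneg X _ hl
  have hH := H_own (D := D) κ X q
  refine ⟨?_, ?_, fun h => ?_, fun h => ?_⟩
  · simp only [nodeOf]
    rw [cu_cfg]
    have : ((D.H κ X (D.d X q + 1)).toNat : ℤ) = ((D.H κ X (D.d X q)).toNat +
        ((if κ (q, false) = X then 1 else 0) + (if κ (q, true) = X then 1 else 0)) : ℕ) := by
      push_cast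
      rw [Int.toNat_of_nonneg h1, Int.toNat_of_nonneg h2, hH]
    exact_mod_cast this
  · rw [cchk_cfg]
    intro b hb
    rw [he.lv_eq (X := X) (Or.inl hb)]
    unfold loc; rw [if_pos hb]; rfl
  · simp only [nodeOf] at h ⊢
    exact (he.step X _ (by omega) (by rw [hH]; split_ifs <;> omega)).symm
  · simp only [nodeOf, decide_eq_true_eq] at h ⊢
    rw [cwit_cfg]
    obtain ⟨g, h3, h4, h5⟩ := h
    by_cases hp : D.Pr κ X (D.d X q) g
    · have hle := hp.loc_le
      refine Or.inl ⟨?_, g, hp, h4, fun x h6 h7 => h5 x (by omega) (by omega)⟩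
      have := h5 (D.d X q) (by omega) (by omega)
      omega
    · right
      rcases h3 with ⟨h6, h7⟩ | ⟨h6, h7⟩
      · have : D.d X g.1 = D.d X q := by
          have : ¬ D.d X g.1 < D.d X q := fun e => hp (Or.inl ⟨h6, e⟩)
          omega
        have h8 := D.inj _ _ _ this
        exact ⟨g.2, by rw [← h8]; exact h6, by rw [← h8]; exact h4⟩
      · have h8 : ¬ D.T ≤ D.d (bar X) g.1 + D.d X q := fun e => hp (Or.inr ⟨h6, e⟩)
        have h9 := D.ne X q g.1
        omega

theorem tr_opp (hf : D.Feas κ) (he : IsLev D κ e) {X : Role f} {q : Fin n} {a : ℕ}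
    (hq : D.d (bar X) q + a + 1 = D.T) :
    EvOpp (cfg κ (D.lv κ e) q) (code (bar X)) q.1 (nodeOf D κ e X a) (nodeOf D κ e X (a + 1)) := by
  have h1 := hf.nonneg X a (by omega)
  have h2 := hf.nonneg X (a + 1) (by omega)
  have hH := H_opp (D := D) κ X q hq
  have hfl : ∀ g, D.Pr κ X (a + 1) g → Wit (D.lv κ e) g → D.Lnk κ X (D.loc κ X g) a →
      Fl D κ e X a ∨ ∃ b, κ (q, b) = bar X ∧ Wit (D.lv κ e) (q, b) := fun g h3 h4 h5 => by
    by_cases hp : D.Pr κ X a g
    · exact Or.inl ⟨g, hp, h4, h5⟩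
    · right
      rcases h3 with ⟨h6, h7⟩ | ⟨h6, h7⟩
      · have h8 : ¬ D.d X g.1 < a := fun e => hp (Or.inl ⟨h6, e⟩)
        have h9 := D.ne X g.1 q
        omega
      · have h8 : ¬ D.T ≤ D.d (bar X) g.1 + a := fun e => hp (Or.inr ⟨h6, e⟩)
        have h9 : g.1 = q := D.inj (bar X) _ _ (by omega)
        exact ⟨g.2, by rw [← h9]; exact h6, by rw [← h9]; exact h4⟩
  refine ⟨?_, ?_, fun h => ⟨?_, fun h => ?_⟩, fun h => ⟨?_, fun h => ?_⟩⟩
  · simp only [nodeOf]
    rw [cu_cfg]
    have : ((D.H κ X a).toNat : ℤ) = ((D.H κ X (a + 1)).toNat +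
        ((if κ (q, false) = bar X then 1 else 0) + (if κ (q, true) = bar X then 1 else 0)) : ℕ) := by
      push_cast
      rw [Int.toNat_of_nonneg h1, Int.toNat_of_nonneg h2, hH]
    exact_mod_cast this
  · rw [cchk_cfg]
    intro b hb
    rw [he.lv_eq (X := X) (Or.inr hb)]
    unfold loc; rw [if_neg (by rw [hb]; exact bar_ne X)]
    show e X (D.T - (D.d (bar X) q + 1)) = e X a
    congr 1; omega
  · simp only [nodeOf] at h ⊢
    exact (he.step X _ (by rw [hH]; split_ifs <;> omega) (by omega)).symm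
  · simp only [nodeOf, decide_eq_true_eq] at h ⊢
    rw [cwit_cfg]
    obtain ⟨g, h3, h4, h5⟩ := h
    have hle := h3.loc_le
    by_cases hla : D.loc κ X g ≤ a
    · exact hfl g h3 h4 fun x h6 h7 => h5 x (by omega) (by omega)
    · exfalso
      unfold loc at hla
      rcases h3 with ⟨h6, h7⟩ | ⟨h6, h7⟩
      · rw [if_pos h6] at hla
        have h9 := D.ne X g.1 q
        omega
      · rw [if_neg (by rw [h6]; exact bar_ne X)] at hla; omega
  · simp only [nodeOf, decide_eq_false_iff_not] at h ⊢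
    rintro ⟨g, h3, h4, h5⟩
    have := h5.right
    omega
  · simp only [nodeOf, decide_eq_true_eq] at h ⊢
    rw [cwit_cfg]
    rename_i h0
    simp only [nodeOf] at h0
    obtain ⟨g, h3, h4, h5⟩ := he.wit X a (by omega) (by omega)
    have hla : D.loc κ X g ≤ a := by
      by_contra hla
      have := h5 (a + 1) (by omega) (by omega)
      omega
    refine hfl g ?_ h4 h5
    unfold loc at hla
    rcases h3 with h6 | h6
    · rw [if_pos h6] at hla; exact Or.inl ⟨h6, by omega⟩
    · rw [if_neg (by rw [h6]; exact bar_ne X)] at hla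
      have := D.lt (bar X) g.1
      exact Or.inr ⟨h6, by omega⟩

theorem fin_ok (hf : D.Feas κ) (he : IsLev D κ e) {a : Role f → ℕ} (ha : ∀ X, a X + a (bar X) = D.T) :
    FinOK D (fun X => nodeOf D κ e X (a X)) := by
  have hsub : ∀ X, D.T - a X = a (bar X) := fun X => by have := ha X; omega
  have haT : ∀ X, a X ≤ D.T := fun X => by have := ha X; omega
  refine ⟨ha, fun X => ?_, fun X h => ⟨?_, ?_⟩⟩
  · simp only [nodeOf]; rw [hf.flip (haT X), hsub]
  · simp only [nodeOf]; rw [he.flip X _ (haT X), hsub]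
  · simp only [nodeOf, decide_eq_true_eq] at h ⊢
    obtain ⟨g, h3, h4, h5⟩ := he.wit X (a X) (haT X) (by omega)
    have key : ∀ Y, κ g = Y → On κ X g → (Y = X ∨ Y = bar X) → Fl D κ e X (a X) ∨ Fl D κ e (bar X) (a (bar X)) := by
      intro Y hY ho hYX
      have h5' := h5.flip hf (loc_le _ _) (haT X)
      rw [← loc_flip ho, hsub] at h5'
      have h1 := ha X
      rcases hYX with e1 | e1
      · rw [e1] at hY
        by_cases h6 : D.d X g.1 < a X
        · exact Or.inl ⟨g, Or.inl ⟨hY, h6⟩, h4, h5⟩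
        · exact Or.inr ⟨g, Or.inr ⟨by rw [bar_bar]; exact hY, by rw [bar_bar]; omega⟩, h4, h5'⟩
      · rw [e1] at hY
        by_cases h6 : D.d (bar X) g.1 < a (bar X)
        · exact Or.inr ⟨g, Or.inl ⟨hY, h6⟩, h4, h5'⟩
        · exact Or.inl ⟨g, Or.inr ⟨hY, by omega⟩, h4, h5⟩
    exact key _ rfl h3 h3

end Pos

end Pool.Agent.H46.Sc
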