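import Pool.Agent.H46.CX.CXRat

/-! Definitions used to state the results on the maximum scatter TSP under polyhedral norms. -/

set_option autoImplicit false

namespace Pool.Agent.H46.MS

open Pool.Agent.H46.CX
open scoped Pointwise

/-- a vector is encoded as the list of its coordinates -/
instance encVec {s : ℕ} {β : Type} [Enc β] : Enc (Fin s → β) :=
  ⟨fun x => Enc.tr (List.ofFn x), fun _ _ h => List.ofFn_injective (Enc.inj h)⟩

/-- `B` is the polyhedral unit ball with facet functionals `± g i`: the polytope (bounded intersection of finitely many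
half-spaces) `{x | |g i · x| ≤ 1 for all i}`; it is symmetric about the origin and contains it in its interior -/
structure IsPolyBall {s f : ℕ} (B : Set (Fin s → ℝ)) (g : Fin f → Fin s → ℝ) : Prop where
  eq : B = {x | ∀ i, |∑ j, g i j * x j| ≤ 1}
  bdd : Bornology.IsBounded B

/-- the norm with unit ball `B`: the least `l ≥ 0` with `x ∈ l B` -/
noncomputable def bnorm {s : ℕ} (B : Set (Fin s → ℝ)) (x : Fin s → ℝ) : ℝ := sInf {l : ℝ | 0 ≤ l ∧ x ∈ l • B}

/-- the distance of the norm with unit ball `B` -/
noncomputable def bdist {s : ℕ} (B : Set (Fin s → ℝ)) (x y : Fin s → ℝ) : ℝ := bnorm B (x - y)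

/-- a rational vector as a real vector -/
def toR {s : ℕ} (x : Fin s → ℚ) : Fin s → ℝ := fun j => (x j : ℝ)

/-- all pairs of cyclically consecutive members of the list `t` are related by `R` -/
def Cyc {V : Type} (R : V → V → Prop) (t : List V) : Prop := ∀ e ∈ t.zip (t.rotate 1), R e.1 e.2

/-- `t` is a round-trip through the points `P` all of whose edges have length at least `L` -/
def Tour {s : ℕ} (B : Set (Fin s → ℝ)) (P : List (Fin s → ℚ)) (L : ℝ) (t : List (Fin s → ℚ)) : Prop :=
  t.Perm P ∧ Cyc (fun x y => L ≤ bdist B (toR x) (toR y)) t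

/-- Max-Scatter-TSP under `B`, decision version: the input is a list of at least three distinct rational points and
a rational number `L` -/
def MaxScatter {s : ℕ} (B : Set (Fin s → ℝ)) (z : List (Fin s → ℚ) × ℚ) : Prop :=
  3 ≤ z.1.length ∧ z.1.Nodup ∧ ∃ t, Tour B z.1 z.2 t

/-- Max-Scatter-TSP under `B` is solvable in polynomial time: its decision version is in P, and some polynomial-time
algorithm turns every list `P` of at least three distinct rational points into a round-trip that is optimal (if any
round-trip has all edges of length at least `L`, then so does the one found) -/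
def PolySolvable {s : ℕ} (B : Set (Fin s → ℝ)) : Prop :=
  InP (MaxScatter B) ∧ ∃ F : List (Fin s → ℚ) → List (Fin s → ℚ), PT F ∧
    ∀ P : List (Fin s → ℚ), 3 ≤ P.length → P.Nodup →
      (F P).Perm P ∧ ∀ (L : ℝ) (t : List (Fin s → ℚ)), Tour B P L t → Tour B P L (F P)

/-- on rational arguments, the facet functionals can be compared with rational numbers and with each other in
polynomial time -/
structure Comparable {s f : ℕ} (g : Fin f → Fin s → ℝ) : Prop where
  rat : ∀ i, InP fun z : (Fin s → ℚ) × ℚ => (z.2 : ℝ) ≤ ∑ j, g i j * z.1 j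
  two : ∀ i k, InP fun z : (Fin s → ℚ) × (Fin s → ℚ) => ∑ j, g i j * (z.1 j : ℝ) ≤ ∑ j, g k j * (z.2 j : ℝ)

open Classical in
/-- the outcomes of the comparisons `L ≤ g i (x - y)` for the points `x`, `y` of the list `P` -/
noncomputable def table {s f : ℕ} (g : Fin f → Fin s → ℝ) (P : List (Fin s → ℝ)) (L : ℝ) : List (List (List Bool)) :=
  List.ofFn fun i => P.map fun x => P.map fun y => decide (L ≤ ∑ j, g i j * (x j - y j))

end Pool.Agent.H46.MS
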