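import Pool.Agent.H46.Sc.Geo

/-! The maximum scatter TSP under polyhedral norms: the algorithms. -/

set_option autoImplicit false

namespace Pool.Agent.H46.Sc

open Function
open Pool.Agent.H46.CX
open Pool.Agent.H46.MS

variable {s f : ℕ} {B : Set (Fin s → ℝ)} {g : Fin f → Fin s → ℝ}

theorem IPB.spec (h : IsPolyBall B g) (hf : 0 < f) (x : Fin s → ℝ) :
    (∀ i, |∑ j, g i j * x j| ≤ bnorm B x) ∧ ∃ i, bnorm B x = |∑ j, g i j * x j| := by
  have h1 : ∀ i, |∑ j, g i j * x j| ≤ bnorm B x := fun i => by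
    rcases (abs_nonneg (∑ j, g i j * x j)).eq_or_lt with h0 | h0
    · rw [← h0]; exact IPB.nonneg x
    · exact (IPB.le_bnorm_iff h h0 x).2 ⟨i, le_rfl⟩
  refine ⟨h1, ?_⟩
  rcases (IPB.nonneg (B := B) x).eq_or_lt with h0 | h0
  · have := h1 ⟨0, hf⟩
    rw [← h0] at this ⊢
    exact ⟨⟨0, hf⟩, le_antisymm (abs_nonneg _) this⟩
  · obtain ⟨i, hi⟩ := (IPB.le_bnorm_iff h h0 x).1 le_rfl
    exact ⟨i, le_antisymm hi (h1 i)⟩

theorem IPB.bnorm_le_iff (h : IsPolyBall B g) (hf : 0 < f) (x : Fin s → ℝ) (y : ℝ) :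
    bnorm B x ≤ y ↔ ∀ i, ∑ j, g i j * x j ≤ y ∧ -∑ j, g i j * x j ≤ y := by
  obtain ⟨h1, i, hi⟩ := IPB.spec h hf x
  constructor
  · exact fun hy i => ⟨(le_abs_self _).trans ((h1 i).trans hy), (neg_le_abs _).trans ((h1 i).trans hy)⟩
  · intro hy
    rw [hi]
    exact abs_le.2 ⟨by linarith [(hy i).2], (hy i).1⟩

theorem sum_neg' (i : Fin f) (x y : Fin s → ℝ) : ∑ j, g i j * (x j - y j) = -∑ j, g i j * (y j - x j) := by
  rw [← Finset.sum_neg_distrib]
  exact Finset.sum_congr rfl fun j _ => by ring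

theorem adj_iff (h : IsPolyBall B g) {L : ℝ} (hL : 0 < L) {n : ℕ} {A : Fin f → ℕ → ℕ → Bool} (pts : ℕ → Fin s → ℝ)
    (hA : ∀ i, ∀ k < n, ∀ m < n, (A i k m = true ↔ L ≤ ∑ j, g i j * (pts k j - pts m j))) :
    (∀ i, Val (A i) n) ∧ ∀ k < n, ∀ m < n, (AdjA A k m ↔ L ≤ bdist B (pts k) (pts m)) := by
  have e : ∀ i k m, ∑ j, g i j * (pts k j - pts m j) = ∑ j, g i j * pts k j - ∑ j, g i j * pts m j := fun i k m => by
    rw [← Finset.sum_sub_distrib]
    exact Finset.sum_congr rfl fun j _ => by ring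
  refine ⟨fun i => val_of_le hL (fun k => ∑ j, g i j * pts k j) fun k hk m hm => by rw [hA i k hk m hm, e],
    fun k hk m hm => ?_⟩
  unfold AdjA bdist
  rw [IPB.le_bnorm_iff h hL]
  refine exists_congr fun i => ?_
  rw [hA i k hk m hm, hA i m hm k hk, le_abs, sum_neg' i (pts m)]
  rfl

/-! ### the uniform version -/

def look (T : List (List (List Bool))) (i k m : ℕ) : Bool := ((T.getD i []).getD k []).getD m false

noncomputable def runT (f : ℕ) (T : List (List (List Bool))) : Option (List ℕ) :=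
  search (fun (i : Fin f) k m => look T i k m) (T.headD []).length

theorem pt_runT (f : ℕ) : PT (runT f) := by
  unfold runT
  exact pt_search (A := fun (i : Fin f) T k m => look T i k m) (fun i => by unfold look; fun_prop) (by fun_prop)
    (by fun_prop)

theorem runT_spec (h : IsPolyBall B g) (hf : 0 < f) (P : List (Fin s → ℝ)) (hP : P ≠ []) {L : ℝ} (hL : 0 < L) :
    (∀ t, runT f (table g P L) = some t →
      t.Perm (List.range P.length) ∧ Cyc (fun k m => L ≤ bdist B (P.getD k 0) (P.getD m 0)) t) ∧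
    (runT f (table g P L) = none →
      ¬ ∃ t : List ℕ, t.Perm (List.range P.length) ∧ Cyc (fun k m => L ≤ bdist B (P.getD k 0) (P.getD m 0)) t) := by
  classical
  have hlen : ((table g P L).headD []).length = P.length := by
    unfold table
    cases f with
    | zero => omega
    | succ f => rw [List.ofFn_succ, List.headD_cons, List.length_map]
  have hn : 0 < P.length := List.length_pos_iff.2 hP
  unfold runT
  rw [hlen]
  have hA : ∀ i : Fin f, ∀ k < P.length, ∀ m < P.length, (look (table g P L) i k m = true ↔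
      L ≤ ∑ j, g i j * (P.getD k 0 j - P.getD m 0 j)) := fun i k hk m hm => by
    unfold look table
    simp [List.getD_eq_getElem?_getD, hk, hm]
  obtain ⟨h1, h2⟩ := adj_iff h hL (A := fun (i : Fin f) k m => look (table g P L) i k m) (fun k => P.getD k 0) hA
  have hc : ∀ t : List ℕ, t.Perm (List.range P.length) →
      (Cyc (AdjA fun (i : Fin f) k m => look (table g P L) i k m) t ↔
        Cyc (fun k m => L ≤ bdist B (P.getD k 0) (P.getD m 0)) t) := fun t ht =>
    cyc_congr fun x hx y hy => h2 x (List.mem_range.1 (ht.mem_iff.1 hx)) y (List.mem_range.1 (ht.mem_iff.1 hy))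
  obtain ⟨h3, h4⟩ := search_spec h1 hn hf
  refine ⟨fun t ht => ?_, fun hnone => ?_⟩
  · obtain ⟨h5, h6⟩ := h3 t ht
    exact ⟨h5, (hc t h5).1 h6⟩
  · rintro ⟨t, ht, hct⟩
    exact h4 hnone ⟨t, ht, (hc t ht).2 hct⟩

/-! ### the decision version -/

section decision
open Classical

noncomputable def AD (g : Fin f → Fin s → ℝ) (i : Fin f) (z : List (Fin s → ℚ) × ℚ) (k m : ℕ) : Bool :=
  decide ((z.2 : ℝ) ≤ ∑ j, g i j * (((z.1.getD k 0 - z.1.getD m 0) j : ℚ) : ℝ))

theorem pt_AD (h : Comparable g) (i : Fin f) :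
    PT fun p : (List (Fin s → ℚ) × ℚ) × ℕ × ℕ => AD g i p.1 p.2.1 p.2.2 := by
  unfold AD
  exact pt_cmp h i (pt_vsub (PT.getD (by fun_prop) (by fun_prop) (PT.const _))
    (PT.getD (by fun_prop) (by fun_prop) (PT.const _))) (by fun_prop)

theorem toR_getD (P : List (Fin s → ℚ)) (k : ℕ) : toR (P.getD k 0) = (P.map toR).getD k 0 := by
  have : (0 : Fin s → ℝ) = toR 0 := by funext j; simp [toR]
  rw [this, List.getD_map]

theorem PT.decide_nodup {α β : Type} [Enc α] [Enc β] {l : α → List β} (hl : PT l) : PT fun a => decide (l a).Nodup := by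
  have : PT fun a => decide (∀ i < (l a).length, ∀ j < (l a).length, (l a)[i]? = (l a)[j]? → i = j) := by fun_prop
  exact this.congr fun a => by
    rw [Bool.eq_iff_iff, decide_eq_true_eq, decide_eq_true_eq, List.nodup_iff_getElem?_ne_getElem?]
    constructor
    · intro h i hi j hj hij
      rcases lt_trichotomy i j with h' | h' | h'
      · exact absurd hij (h i j h' hj)
      · exact h'
      · exact absurd hij.symm (h j i h' hi)
    · intro h i j hij hj heq
      exact hij.ne (h i (hij.trans hj) j hj heq)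

theorem inP_maxScatter (hs : 0 < s) (h : IsPolyBall B g) (hc : Comparable g) : InP (MaxScatter B) := by
  have hf := IPB.fpos hs h
  refine ⟨fun z => decide (3 ≤ z.1.length) && (decide z.1.Nodup && (decide (z.2 ≤ 0) ||
    (search (fun i => AD g i z) z.1.length).isSome)), ?_, fun z => ?_⟩
  · have h1 := pt_search (A := fun i z => AD g i z) (n := fun z => z.1.length) (pt_AD hc) (by fun_prop) (by fun_prop)
    have h2 := PT.decide_nodup (l := fun z : List (Fin s → ℚ) × ℚ => z.1) (by fun_prop)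
    fun_prop
  · obtain ⟨P, L⟩ := z
    rw [Bool.and_eq_true, Bool.and_eq_true, Bool.or_eq_true, decide_eq_true_eq, decide_eq_true_eq, decide_eq_true_eq]
    unfold MaxScatter
    refine and_congr_right fun h3 => and_congr_right fun _ => ?_
    by_cases hL : L ≤ 0
    · refine ⟨fun _ => Or.inl hL, fun _ => ⟨P, List.Perm.refl _, fun e _ => ?_⟩⟩
      exact (Rat.cast_nonpos.2 hL).trans (IPB.nonneg _)
    · have hL' : (0 : ℝ) < (L : ℝ) := Rat.cast_pos.2 (not_le.1 hL)
      simp only [hL, false_or]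
      obtain ⟨h1, h2⟩ := adj_iff (n := P.length) h hL' (A := fun i => AD g i (P, L)) (fun k => toR (P.getD k 0))
        (fun i k _ m _ => by
          unfold AD; rw [decide_eq_true_eq]; simp only [toR, Pi.sub_apply, Rat.cast_sub])
      obtain ⟨h4, h5⟩ := search_pts (P := P) (d := 0) (R := fun x y => (L : ℝ) ≤ bdist B (toR x) (toR y)) h1 (by
        simp only at h3; omega) hf h2
      rw [Option.isSome_iff_ne_none]
      constructor
      · rintro ⟨t, ht, hct⟩ hnone
        exact h5 hnone ⟨t, ht, hct⟩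
      · intro hne
        obtain ⟨t, ht⟩ := Option.ne_none_iff_exists'.1 hne
        exact ⟨_, (h4 t ht).2⟩

end decision

end Pool.Agent.H46.Sc
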