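import Pool.Agent.H46.Sc.HamFrom

/-! Local transition rules at a node of the sweep. -/

set_option autoImplicit false
set_option linter.unusedSectionVars false

namespace Pool.Agent.H46.Sc

open Finset Function
open Pos (code code_inj)

/-- configuration of a point: role code and level of the segment, for both half-edges -/
abbrev Cfg := (ℕ × ℕ) × (ℕ × ℕ)

def cu (c : Cfg) (r : ℕ) : ℕ := (if c.1.1 = r then 1 else 0) + (if c.2.1 = r then 1 else 0)
def cwit (c : Cfg) (r q : ℕ) : Prop :=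
  (c.1.1 = r ∧ (q = 0 ∨ c.2.2 < c.1.2)) ∨ (c.2.1 = r ∧ (q = 0 ∨ c.1.2 < c.2.2))
def cchk (c : Cfg) (r E : ℕ) : Prop := (c.1.1 = r → c.1.2 = E) ∧ (c.2.1 = r → c.2.2 = E)

/-- a node: depth, crossing number, level, flag -/
abbrev Nd := ℕ × ℕ × ℕ × Bool

def EvOwn (c : Cfg) (r q : ℕ) (x y : Nd) : Prop :=
  y.2.1 = x.2.1 + cu c r ∧ cchk c r y.2.2.1 ∧ (0 < x.2.1 → y.2.2.1 = x.2.2.1) ∧
    (y.2.2.2 = true → (0 < x.2.1 ∧ x.2.2.2 = true) ∨ cwit c r q)
def EvOpp (c : Cfg) (r q : ℕ) (x y : Nd) : Prop :=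
  x.2.1 = y.2.1 + cu c r ∧ cchk c r x.2.2.1 ∧
    (0 < y.2.1 → y.2.2.1 = x.2.2.1 ∧ (y.2.2.2 = true → x.2.2.2 = true ∨ cwit c r q)) ∧
    (y.2.1 = 0 → y.2.2.2 = false ∧ (0 < x.2.1 → x.2.2.2 = true ∨ cwit c r q))

variable {n f : ℕ}

/-- configuration of the point `p` -/
def cfg (κ : Fin n × Bool → Role f) (ε : Fin n × Bool → ℕ) (p : Fin n) : Cfg :=
  ((code (κ (p, false)), ε (p, false)), (code (κ (p, true)), ε (p, true)))

theorem code_eq {X Y : Role f} : code X = code Y ↔ X = Y := ⟨code_inj, fun h => by rw [h]⟩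

theorem cu_cfg (κ : Fin n × Bool → Role f) (ε : Fin n × Bool → ℕ) (p : Fin n) (r : Role f) :
    cu (cfg κ ε p) (code r) = (if κ (p, false) = r then 1 else 0) + (if κ (p, true) = r then 1 else 0) := by
  simp only [cu, cfg, code_eq]

/-- a half-edge that certifies the level of its segment -/
def Wit (ε : Fin n × Bool → ℕ) (h : Fin n × Bool) : Prop := h.1.1 = 0 ∨ ε (h.1, !h.2) < ε h

theorem cwit_cfg {κ : Fin n × Bool → Role f} {ε : Fin n × Bool → ℕ} {p : Fin n} {r : Role f} :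
    cwit (cfg κ ε p) (code r) p.1 ↔ ∃ b, κ (p, b) = r ∧ Wit ε (p, b) := by
  simp only [cwit, cfg, code_eq, Wit, Bool.exists_bool, Bool.not_false, Bool.not_true]

theorem cchk_cfg {κ : Fin n × Bool → Role f} {ε : Fin n × Bool → ℕ} {p : Fin n} {r : Role f} {E : ℕ} :
    cchk (cfg κ ε p) (code r) E ↔ ∀ b, κ (p, b) = r → ε (p, b) = E := by
  simp only [cchk, cfg, code_eq, Bool.forall_bool]

namespace Pos

variable (D : Pos (Fin n) f)

/-- half-edges processed at the node `X` at depth `a` -/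
def Pr (κ : Fin n × Bool → Role f) (X : Role f) (a : ℕ) (h : Fin n × Bool) : Prop :=
  (κ h = X ∧ D.d X h.1 < a) ∨ (κ h = bar X ∧ D.T ≤ D.d (bar X) h.1 + a)

/-- position of a half-edge in the coordinate of `X` -/
def loc (κ : Fin n × Bool → Role f) (X : Role f) (h : Fin n × Bool) : ℕ :=
  if κ h = X then D.d X h.1 + 1 else D.T - (D.d (bar X) h.1 + 1)

def Lnk (κ : Fin n × Bool → Role f) (X : Role f) (a b : ℕ) : Prop := ∀ x, min a b ≤ x → x ≤ max a b → 0 < D.H κ X x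

structure NodeOK (κ : Fin n × Bool → Role f) (ε : Fin n × Bool → ℕ) (X : Role f) (x : Nd) : Prop where
  h : (x.2.1 : ℤ) = D.H κ X x.1
  nonneg : ∀ y ≤ x.1, 0 ≤ D.H κ X y
  seg : ∀ h, D.Pr κ X x.1 h → (D.Lnk κ X (D.loc κ X h) x.1 ∧ ε h = x.2.2.1) ∨
    ∃ h', D.Pr κ X x.1 h' ∧ Wit ε h' ∧ ε h' = ε h ∧ D.Lnk κ X (D.loc κ X h) (D.loc κ X h')
  flag : x.2.2.2 = true → ∃ h', D.Pr κ X x.1 h' ∧ Wit ε h' ∧ ε h' = x.2.2.1 ∧ D.Lnk κ X (D.loc κ X h') x.1

variable {D} {κ : Fin n × Bool → Role f} {ε : Fin n × Bool → ℕ}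

theorem Pr.loc_le {X : Role f} {a : ℕ} {h : Fin n × Bool} (hp : D.Pr κ X a h) : D.loc κ X h ≤ a := by
  unfold loc
  rcases hp with ⟨h1, h2⟩ | ⟨h1, h2⟩
  · rw [if_pos h1]; exact h2
  · rw [if_neg (by rw [h1]; exact bar_ne X)]; omega

theorem Pr.mono {X : Role f} {a b : ℕ} (hab : a ≤ b) {h : Fin n × Bool} (hp : D.Pr κ X a h) : D.Pr κ X b h :=
  hp.imp (fun h => ⟨h.1, by have := h.2; omega⟩) fun h => ⟨h.1, by have := h.2; omega⟩

theorem Lnk.symm {X : Role f} {a b : ℕ} (h : D.Lnk κ X a b) : D.Lnk κ X b a := fun x h1 h2 =>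
  h x (by rwa [min_comm]) (by rwa [max_comm])
theorem Lnk.trans {X : Role f} {a b c : ℕ} (h : D.Lnk κ X a b) (h' : D.Lnk κ X b c) : D.Lnk κ X a c := fun x h1 h2 => by
  by_cases e : min a b ≤ x ∧ x ≤ max a b
  · exact h x e.1 e.2
  · exact h' x (by omega) (by omega)
theorem Lnk.right {X : Role f} {a b : ℕ} (h : D.Lnk κ X a b) : 0 < D.H κ X b := h b (by omega) (by omega)
theorem Lnk.left {X : Role f} {a b : ℕ} (h : D.Lnk κ X a b) : 0 < D.H κ X a := h a (by omega) (by omega)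
theorem Lnk.refl {X : Role f} {a : ℕ} (h : 0 < D.H κ X a) : D.Lnk κ X a a := fun x h1 h2 => by
  obtain rfl : x = a := by omega
  exact h
theorem Lnk.succ {X : Role f} {a : ℕ} (h : 0 < D.H κ X a) (h' : 0 < D.H κ X (a + 1)) : D.Lnk κ X a (a + 1) :=
  fun x h1 h2 => by
    have : x = a ∨ x = a + 1 := by omega
    rcases this with rfl | rfl <;> assumption

theorem NodeOK.own {X : Role f} {x y : Nd} {q : Fin n} (hx : D.NodeOK κ ε X x) (hy : y.1 = x.1 + 1)
    (hq : D.d X q = x.1) (ev : EvOwn (cfg κ ε q) (code X) q.1 x y) : D.NodeOK κ ε X y := by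
  obtain ⟨a, h, e, fl⟩ := x
  obtain ⟨a', h', e', fl'⟩ := y
  obtain ⟨e1, e2, e3, e4⟩ := ev
  obtain ⟨hh, hnn, hseg, hfl⟩ := hx
  dsimp only at *
  subst hq hy
  rw [cchk_cfg] at e2
  rw [cwit_cfg] at e4
  rw [cu_cfg] at e1
  have hH := H_own (D := D) κ X q
  have hH' : (h' : ℤ) = D.H κ X (D.d X q + 1) := by
    rw [hH, ← hh, e1]; push_cast; rfl
  have hstep : 0 < D.H κ X (D.d X q) → D.Lnk κ X (D.d X q) (D.d X q + 1) ∧ e' = e := fun hp => by
    refine ⟨Lnk.succ hp ?_, e3 (by omega)⟩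
    rw [hH]; split_ifs <;> omega
  have hnew : ∀ b, κ (q, b) = X → D.Pr κ X (D.d X q + 1) (q, b) ∧ D.loc κ X (q, b) = D.d X q + 1 ∧
      0 < D.H κ X (D.d X q + 1) := fun b hb => by
    refine ⟨Or.inl ⟨hb, by simp⟩, by simp [loc, hb], ?_⟩
    have := hnn _ le_rfl
    rw [hH]; cases b <;> simp only [hb, if_true] <;> split_ifs <;> omega
  have hold : ∀ g, D.Pr κ X (D.d X q + 1) g → D.Pr κ X (D.d X q) g ∨ (g.1 = q ∧ κ g = X) := by
    rintro g (⟨g1, g2⟩ | ⟨g1, g2⟩)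
    · by_cases e : D.d X g.1 < D.d X q
      · exact Or.inl (Or.inl ⟨g1, e⟩)
      · exact Or.inr ⟨D.inj X _ _ (by omega), g1⟩
    · have := D.ne X q g.1
      exact Or.inl (Or.inr ⟨g1, by omega⟩)
  refine ⟨hH', fun y hy => ?_, fun g hg => ?_, fun hf => ?_⟩
  · dsimp only at *
    by_cases e : y ≤ D.d X q
    · exact hnn y e
    · obtain rfl : y = D.d X q + 1 := by omega
      rw [← hH']; positivity
  · dsimp only at *
    rcases hold g hg with h1 | ⟨h1, h2⟩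
    · rcases hseg g h1 with ⟨h3, h4⟩ | ⟨g', h3, h4⟩
      · obtain ⟨h5, h6⟩ := hstep h3.right
        exact Or.inl ⟨h3.trans h5, by rw [h4, h6]⟩
      · exact Or.inr ⟨g', h3.mono (Nat.le_succ _), h4⟩
    · obtain ⟨p, b⟩ := g
      dsimp only at h1
      subst h1
      obtain ⟨-, h4, h5⟩ := hnew b h2
      exact Or.inl ⟨by rw [h4]; exact Lnk.refl h5, e2 b h2⟩
  · dsimp only at *
    rcases e4 hf with ⟨h1, h2⟩ | ⟨b, h1, h2⟩
    · obtain ⟨g, h3, h4, h5, h6⟩ := hfl h2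
      obtain ⟨h7, h8⟩ := hstep h6.right
      exact ⟨g, h3.mono (Nat.le_succ _), h4, by rw [h5, h8], h6.trans h7⟩
    · obtain ⟨h3, h4, h5⟩ := hnew b h1
      exact ⟨(q, b), h3, h2, e2 b h1, by rw [h4]; exact Lnk.refl h5⟩

theorem NodeOK.opp {X : Role f} {x y : Nd} {q : Fin n} (hx : D.NodeOK κ ε X x) (hy : y.1 = x.1 + 1)
    (hq : D.d (bar X) q + x.1 + 1 = D.T) (ev : EvOpp (cfg κ ε q) (code (bar X)) q.1 x y) : D.NodeOK κ ε X y := by
  obtain ⟨a, h, e, fl⟩ := x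
  obtain ⟨a', h', e', fl'⟩ := y
  obtain ⟨e1, e2, e3, e4⟩ := ev
  obtain ⟨hh, hnn, hseg, hfl⟩ := hx
  dsimp only at *
  subst hy
  rw [cchk_cfg] at e2
  rw [cwit_cfg] at e3 e4
  rw [cu_cfg] at e1
  have hH := H_opp (D := D) κ X q hq
  have hH' : (h' : ℤ) = D.H κ X (a + 1) := by
    have : (h : ℤ) = h' + ((if κ (q, false) = bar X then 1 else 0) + (if κ (q, true) = bar X then 1 else 0)) := by
      rw [e1]; push_cast; rfl
    linarith
  have hnew : ∀ b, κ (q, b) = bar X → D.Pr κ X (a + 1) (q, b) ∧ D.loc κ X (q, b) = a ∧ 0 < D.H κ X a := fun b hb => by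
    refine ⟨Or.inr ⟨hb, by simp only; omega⟩, ?_, ?_⟩
    · unfold loc; rw [if_neg (by rw [hb]; exact bar_ne X)]; simp only; omega
    · have h0 : (0 : ℤ) ≤ h' := by positivity
      rw [hH]; cases b <;> simp only [hb, if_true] <;> split_ifs <;> omega
  have hold : ∀ g, D.Pr κ X (a + 1) g → D.Pr κ X a g ∨ (g.1 = q ∧ κ g = bar X) := by
    rintro g (⟨g1, g2⟩ | ⟨g1, g2⟩)
    · have := D.ne X g.1 q
      exact Or.inl (Or.inl ⟨g1, by omega⟩)
    · by_cases e : D.T ≤ D.d (bar X) g.1 + a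
      · exact Or.inl (Or.inr ⟨g1, e⟩)
      · exact Or.inr ⟨D.inj (bar X) _ _ (by omega), g1⟩
  have hwit : (fl = true ∨ ∃ b, κ (q, b) = bar X ∧ Wit ε (q, b)) →
      ∃ g', D.Pr κ X (a + 1) g' ∧ Wit ε g' ∧ ε g' = e ∧ D.Lnk κ X (D.loc κ X g') a := by
    rintro (h1 | ⟨b, h1, h2⟩)
    · obtain ⟨g, h3, h4, h5, h6⟩ := hfl h1
      exact ⟨g, h3.mono (Nat.le_succ _), h4, h5, h6⟩
    · obtain ⟨h3, h4, h5⟩ := hnew b h1
      exact ⟨(q, b), h3, h2, e2 b h1, by rw [h4]; exact Lnk.refl h5⟩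
  have hseg' : ∀ g, D.Pr κ X (a + 1) g → (D.Lnk κ X (D.loc κ X g) a ∧ ε g = e) ∨
      ∃ h', D.Pr κ X (a + 1) h' ∧ Wit ε h' ∧ ε h' = ε g ∧ D.Lnk κ X (D.loc κ X g) (D.loc κ X h') := fun g hg => by
    rcases hold g hg with h1 | ⟨h1, h2⟩
    · rcases hseg g h1 with h3 | ⟨g', h3, h4⟩
      · exact Or.inl h3
      · exact Or.inr ⟨g', h3.mono (Nat.le_succ _), h4⟩
    · obtain ⟨p, b⟩ := g
      dsimp only at h1
      subst h1
      obtain ⟨-, h4, h5⟩ := hnew b h2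
      exact Or.inl ⟨by rw [h4]; exact Lnk.refl h5, e2 b h2⟩
  refine ⟨hH', fun y hy => ?_, fun g hg => ?_, fun hf => ?_⟩
  · dsimp only at *
    by_cases e : y ≤ a
    · exact hnn y e
    · obtain rfl : y = a + 1 := by omega
      rw [← hH']; positivity
  · dsimp only at *
    rcases hseg' g hg with ⟨h1, h2⟩ | h1
    · rcases Nat.eq_zero_or_pos h' with h0 | h0
      · obtain ⟨g', h3, h4, h5, h6⟩ := hwit ((e4 h0).2 (by have := h1.right; omega))
        exact Or.inr ⟨g', h3, h4, by rw [h5, h2], h1.trans h6.symm⟩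
      · refine Or.inl ⟨h1.trans (Lnk.succ h1.right (by omega)), by rw [h2, (e3 h0).1]⟩
    · exact Or.inr h1
  · dsimp only at *
    rcases Nat.eq_zero_or_pos h' with h0 | h0
    · rw [(e4 h0).1] at hf; cases hf
    · obtain ⟨g', h3, h4, h5, h6⟩ := hwit ((e3 h0).2 hf)
      exact ⟨g', h3, h4, by rw [h5, (e3 h0).1], h6.trans (Lnk.succ h6.right (by omega))⟩

/-- all lines are finished and the two sides agree -/
structure FinOK (D : Pos (Fin n) f) (st : Role f → Nd) : Prop where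
  done : ∀ X, (st X).1 + (st (bar X)).1 = D.T
  h : ∀ X, (st X).2.1 = (st (bar X)).2.1
  lev : ∀ X, 0 < (st X).2.1 → (st X).2.2.1 = (st (bar X)).2.2.1 ∧ ((st X).2.2.2 = true ∨ (st (bar X)).2.2.2 = true)

theorem FinOK.feas {st : Role f → Nd} (hn : ∀ X, D.NodeOK κ ε X (st X)) (hf : FinOK D st) : D.Feas κ := by
  have hz : ∀ X, D.H κ X D.T = 0 := fun X => by
    have h1 := hf.done X
    have h2 : D.H κ X (st X).1 = D.H κ (bar X) (D.T - (st X).1) + D.H κ X D.T := by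
      unfold H
      rw [sum_congr rfl fun h _ => D.w_flip X (κ h) h.1 (st X).1 (by omega), sum_add_distrib]
    have h3 : D.T - (st X).1 = (st (bar X)).1 := by omega
    rw [h3, ← (hn X).h, ← (hn (bar X)).h, hf.h X] at h2
    linarith
  refine ⟨fun X a ha => ?_, hz⟩
  by_cases h : a ≤ (st X).1
  · exact (hn X).nonneg a h
  · have h2 : D.H κ X a = D.H κ (bar X) (D.T - a) + D.H κ X D.T := by
      unfold H
      rw [sum_congr rfl fun h _ => D.w_flip X (κ h) h.1 a ha, sum_add_distrib]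
    rw [h2, hz, add_zero]
    have h1 := hf.done X
    exact (hn (bar X)).nonneg _ (by omega)

theorem Resp.link {χ : Fin n → Prop} {ψ : Role f → ℕ → Prop} (R : D.Resp κ χ ψ) {X : Role f} {a b : ℕ} (ha : a ≤ D.T)
    (hb : b ≤ D.T) (h : D.Lnk κ X a b) : ψ X a ↔ ψ X b := by
  rcases le_total a b with hab | hab
  · exact R.chain hab hb fun x h1 h2 => h x (by omega) (by omega)
  · exact (R.chain hab ha fun x h1 h2 => h x (by omega) (by omega)).symm

theorem Resp.loc_iff {χ : Fin n → Prop} {ψ : Role f → ℕ → Prop} (R : D.Resp κ χ ψ) {X : Role f} {a : ℕ}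
    {h : Fin n × Bool} (hp : D.Pr κ X a h) : χ h.1 ↔ ψ X (D.loc κ X h) := by
  unfold Pos.loc
  rcases hp with ⟨h1, h2⟩ | ⟨h1, h2⟩
  · rw [if_pos h1]; have := R.loc h; rwa [h1] at this
  · rw [if_neg (by rw [h1]; exact bar_ne X)]; exact R.loc' h1

theorem FinOK.conn {st : Role f → Nd} (hn : ∀ X, D.NodeOK κ ε X (st X)) (hf : FinOK D st) (p0 : Fin n)
    (hp0 : p0.1 = 0) : D.Conn κ := by
  intro χ ψ R
  have hT : ∀ X, (st X).1 ≤ D.T := fun X => by have := hf.done X; omega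
  have key : ∀ k, ∀ h : Fin n × Bool, ε h < k → (χ h.1 ↔ χ p0) := by
    intro k
    induction k with
    | zero => intro h hh; exact absurd hh (Nat.not_lt_zero _)
    | succ k ih =>
      intro h hk
      have hw : ∀ h', Wit ε h' → ε h' = ε h → (χ h'.1 ↔ χ p0) := by
        rintro h' (h1 | h1) h2
        · have : h'.1 = p0 := Fin.ext (by omega)
          rw [this]
        · exact ih (h'.1, !h'.2) (by omega)
      have : ∃ X, D.Pr κ X (st X).1 h := by
        have h1 := hf.done (κ h)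
        by_cases h2 : D.d (κ h) h.1 < (st (κ h)).1
        · exact ⟨κ h, Or.inl ⟨rfl, h2⟩⟩
        · exact ⟨bar (κ h), Or.inr ⟨by rw [bar_bar], by rw [bar_bar]; omega⟩⟩
      obtain ⟨X, hX⟩ := this
      rcases (hn X).seg h hX with ⟨h1, h2⟩ | ⟨h', h1, h2, h3, h4⟩
      · have hpos : 0 < (st X).2.1 := by have := h1.right; rw [← (hn X).h] at this; exact_mod_cast this
        obtain ⟨e1, e2⟩ := hf.lev X hpos
        have hpl := hX.loc_le
        have c1 := (R.loc_iff hX).trans (R.link (hpl.trans (hT X)) (hT X) h1)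
        rcases e2 with e2 | e2
        · obtain ⟨h', h5, h6, h7, h8⟩ := (hn X).flag e2
          have c2 := (R.loc_iff h5).trans (R.link (h5.loc_le.trans (hT X)) (hT X) h8)
          exact c1.trans (c2.symm.trans (hw h' h6 (by omega)))
        · obtain ⟨h', h5, h6, h7, h8⟩ := (hn (bar X)).flag e2
          have c2 := (R.loc_iff h5).trans (R.link (h5.loc_le.trans (hT _)) (hT _) h8)
          have c3 := R.flip X (st X).1 (hT X)
          have : D.T - (st X).1 = (st (bar X)).1 := by have := hf.done X; omega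
          rw [this] at c3
          exact c1.trans (c3.trans (c2.symm.trans (hw h' h6 (by omega))))
      · have c1 := (R.loc_iff hX).trans (R.link (hX.loc_le.trans (hT X)) (h1.loc_le.trans (hT X)) h4)
        exact c1.trans ((R.loc_iff h1).symm.trans (hw h' h2 h3))
  intro p q
  exact (key (ε (p, true) + 1) (p, true) (Nat.lt_succ_self _)).trans (key (ε (q, true) + 1) (q, true) (Nat.lt_succ_self _)).symm

theorem w_npr {X : Role f} {a y : ℕ} {h : Fin n × Bool} (hp : ¬ D.Pr κ X a h) (hy : y ≤ a) : D.w X (κ h) h.1 y = 0 := by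
  unfold Pr at hp
  push Not at hp
  rcases eq_or_ne (κ h) X with h1 | h1
  · have := hp.1 h1
    rw [h1, w_self, if_neg (by omega)]
  · rcases eq_or_ne (κ h) (bar X) with h2 | h2
    · have := hp.2 h2
      rw [h2, w_bar, if_neg (by omega)]; rfl
    · exact D.w_other h1 h2 _ _

/-- changing the configuration of a point none of whose half-edges have been processed -/
theorem NodeOK.recfg {κ' : Fin n × Bool → Role f} {ε' : Fin n × Bool → ℕ} {X : Role f} {x : Nd} {q : Fin n}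
    (hx : D.NodeOK κ ε X x) (h1 : ∀ h : Fin n × Bool, h.1 ≠ q → κ' h = κ h ∧ ε' h = ε h)
    (h2 : ∀ b, ¬ D.Pr κ X x.1 (q, b)) (h3 : ∀ b, ¬ D.Pr κ' X x.1 (q, b)) : D.NodeOK κ' ε' X x := by
  have hH : ∀ y ≤ x.1, D.H κ' X y = D.H κ X y := fun y hy => sum_congr rfl fun h _ => by
    by_cases e : h.1 = q
    · obtain ⟨p, b⟩ := h
      dsimp only at e; subst e
      rw [w_npr (h2 b) hy, w_npr (h3 b) hy]
    · rw [(h1 h e).1]
  have hne : ∀ h, D.Pr κ X x.1 h → h.1 ≠ q := fun h hh e => by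
    obtain ⟨p, b⟩ := h; dsimp only at e; subst e; exact h2 b hh
  have hne' : ∀ h, D.Pr κ' X x.1 h → h.1 ≠ q := fun h hh e => by
    obtain ⟨p, b⟩ := h; dsimp only at e; subst e; exact h3 b hh
  have hPr : ∀ h : Fin n × Bool, h.1 ≠ q → (D.Pr κ' X x.1 h ↔ D.Pr κ X x.1 h) := fun h hh => by
    unfold Pr; rw [(h1 h hh).1]
  have hloc : ∀ h : Fin n × Bool, h.1 ≠ q → D.loc κ' X h = D.loc κ X h := fun h hh => by
    unfold loc; rw [(h1 h hh).1]
  have hlnk : ∀ a b, a ≤ x.1 → b ≤ x.1 → (D.Lnk κ' X a b ↔ D.Lnk κ X a b) := fun a b ha hb => by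
    unfold Lnk
    exact forall_congr' fun y => forall_congr' fun _ => forall_congr' fun hy => by rw [hH y (by omega)]
  have hwit : ∀ h : Fin n × Bool, h.1 ≠ q → (Wit ε' h ↔ Wit ε h) := fun h hh => by
    unfold Wit; rw [(h1 h hh).2, (h1 (h.1, !h.2) hh).2]
  refine ⟨by rw [hx.h, hH _ le_rfl], fun y hy => by rw [hH y hy]; exact hx.nonneg y hy, fun h hh => ?_, fun hf => ?_⟩
  · have e := hne' h hh
    have hh' := (hPr h e).1 hh
    rw [hloc h e, (h1 h e).2]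
    rcases hx.seg h hh' with ⟨h4, h5⟩ | ⟨h', h4, h5, h6, h7⟩
    · exact Or.inl ⟨(hlnk _ _ hh'.loc_le le_rfl).2 h4, h5⟩
    · have e' := hne h' h4
      exact Or.inr ⟨h', (hPr h' e').2 h4, (hwit h' e').2 h5, by rw [(h1 h' e').2, h6],
        by rw [hloc h' e']; exact (hlnk _ _ hh'.loc_le h4.loc_le).2 h7⟩
  · obtain ⟨h', h4, h5, h6, h7⟩ := hx.flag hf
    have e' := hne h' h4
    exact ⟨h', (hPr h' e').2 h4, (hwit h' e').2 h5, by rw [(h1 h' e').2, h6],
        by rw [hloc h' e']; exact (hlnk _ _ h4.loc_le le_rfl).2 h7⟩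

end Pos

end Pool.Agent.H46.Sc
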