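import Pool.Agent.H46.Sc.Main

/-! The maximum scatter TSP under polyhedral norms: finding an optimal tour. -/

set_option autoImplicit false

namespace Pool.Agent.H46.Sc

open Function
open Pool.Agent.H46.CX
open Pool.Agent.H46.MS

variable {s f : ℕ} {B : Set (Fin s → ℝ)} {g : Fin f → Fin s → ℝ}

theorem zip_rotate_ne {V : Type} {t : List V} (ht : t.Nodup) (h2 : 2 ≤ t.length) {e : V × V}
    (he : e ∈ t.zip (t.rotate 1)) : e.1 ≠ e.2 := by
  obtain ⟨i, hi, rfl⟩ := List.mem_iff_getElem.1 he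
  rw [List.length_zip, List.length_rotate, min_self] at hi
  rw [List.getElem_zip]
  simp only [List.getElem_rotate]
  intro heq
  have := (ht.getElem_inj_iff).1 heq
  rcases Nat.lt_or_ge (i + 1) t.length with h | h
  · rw [Nat.mod_eq_of_lt h] at this; omega
  · have : i + 1 = t.length := by omega
    simp [this] at *
    omega

section opt
open Classical

/-- an instance together with a pair of indices, whose distance serves as threshold -/
noncomputable def AO (g : Fin f → Fin s → ℝ) (i : Fin f) (z : List (Fin s → ℚ) × ℕ × ℕ) (k m : ℕ) : Bool :=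
  decide (∀ l : Fin f, ∑ j, g l j * (((z.1.getD z.2.1 0 - z.1.getD z.2.2 0) j : ℚ) : ℝ) ≤
      ∑ j, g i j * (((z.1.getD k 0 - z.1.getD m 0) j : ℚ) : ℝ)) &&
    decide (∀ l : Fin f, ∑ j, g l j * (((z.1.getD z.2.2 0 - z.1.getD z.2.1 0) j : ℚ) : ℝ) ≤
      ∑ j, g i j * (((z.1.getD k 0 - z.1.getD m 0) j : ℚ) : ℝ))

theorem pt_diff {α : Type} [Enc α] {P : α → List (Fin s → ℚ)} {k m : α → ℕ} (hP : PT P) (hk : PT k) (hm : PT m) :
    PT fun a => (P a).getD (k a) 0 - (P a).getD (m a) 0 :=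
  pt_vsub (PT.getD hP hk (PT.const _)) (PT.getD hP hm (PT.const _))

theorem pt_AO (h : Comparable g) (i : Fin f) :
    PT fun p : (List (Fin s → ℚ) × ℕ × ℕ) × ℕ × ℕ => AO g i p.1 p.2.1 p.2.2 := by
  unfold AO
  refine PT.and (PT.decide_forall_fin (i := fun _ _ => inferInstance) fun l => pt_cmp2 h l i
    (pt_diff (by fun_prop) (by fun_prop) (by fun_prop)) (pt_diff (by fun_prop) (by fun_prop) (by fun_prop)))
    (PT.decide_forall_fin (i := fun _ _ => inferInstance) fun l => pt_cmp2 h l i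
    (pt_diff (by fun_prop) (by fun_prop) (by fun_prop)) (pt_diff (by fun_prop) (by fun_prop) (by fun_prop)))

noncomputable def feas (g : Fin f → Fin s → ℝ) (z : List (Fin s → ℚ) × ℕ × ℕ) : Option (List ℕ) :=
  search (fun i => AO g i z) z.1.length

theorem pt_feas (h : Comparable g) : PT (feas g) :=
  pt_search (A := fun i z => AO g i z) (n := fun z => z.1.length) (pt_AO h) (by fun_prop) (by fun_prop)

/-- the distance of the pair `c'` is at most the distance of the pair `c` -/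
noncomputable def leD (g : Fin f → Fin s → ℝ) (P : List (Fin s → ℚ)) (c' c : ℕ × ℕ) : Prop :=
  ∀ l : Fin f, ∃ i : Fin f,
    (∑ j, g l j * (((P.getD c'.1 0 - P.getD c'.2 0) j : ℚ) : ℝ) ≤ ∑ j, g i j * (((P.getD c.1 0 - P.getD c.2 0) j : ℚ) : ℝ) ∨
     ∑ j, g l j * (((P.getD c'.1 0 - P.getD c'.2 0) j : ℚ) : ℝ) ≤ ∑ j, g i j * (((P.getD c.2 0 - P.getD c.1 0) j : ℚ) : ℝ)) ∧
    (∑ j, g l j * (((P.getD c'.2 0 - P.getD c'.1 0) j : ℚ) : ℝ) ≤ ∑ j, g i j * (((P.getD c.1 0 - P.getD c.2 0) j : ℚ) : ℝ) ∨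
     ∑ j, g l j * (((P.getD c'.2 0 - P.getD c'.1 0) j : ℚ) : ℝ) ≤ ∑ j, g i j * (((P.getD c.2 0 - P.getD c.1 0) j : ℚ) : ℝ))

theorem pt_leD {α : Type} [Enc α] (h : Comparable g) {P : α → List (Fin s → ℚ)} {c' c : α → ℕ × ℕ} (hP : PT P)
    (hc' : PT c') (hc : PT c) : PT fun a => decide (leD g (P a) (c' a) (c a)) := by
  have key : ∀ l i, ∀ {k' m' k m : α → ℕ}, PT k' → PT m' → PT k → PT m →
      PT fun a => decide (∑ j, g l j * ((((P a).getD (k' a) 0 - (P a).getD (m' a) 0) j : ℚ) : ℝ) ≤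
        ∑ j, g i j * ((((P a).getD (k a) 0 - (P a).getD (m a) 0) j : ℚ) : ℝ)) := fun l i _ _ _ _ h1 h2 h3 h4 =>
    pt_cmp2 h l i (pt_diff hP h1 h2) (pt_diff hP h3 h4)
  unfold leD
  refine PT.decide_forall_fin (i := fun _ _ => inferInstance) fun l =>
    PT.decide_exists_fin (i := fun _ _ => inferInstance) fun i =>
    PT.decide_and (i := fun _ => inferInstance) (j := fun _ => inferInstance)
      (PT.decide_or (i := fun _ => inferInstance) (j := fun _ => inferInstance)
        (key l i hc'.fst hc'.snd hc.fst hc.snd) (key l i hc'.fst hc'.snd hc.snd hc.fst))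
      (PT.decide_or (i := fun _ => inferInstance) (j := fun _ => inferInstance)
        (key l i hc'.snd hc'.fst hc.fst hc.snd) (key l i hc'.snd hc'.fst hc.snd hc.fst))

/-- all pairs of distinct indices -/
def cand (n : ℕ) : List (ℕ × ℕ) :=
  ((List.range n).flatMap fun a => (List.range n).map fun b => (a, b)).filter fun c => decide (c.1 ≠ c.2)

theorem mem_cand {n : ℕ} {c : ℕ × ℕ} : c ∈ cand n ↔ c.1 < n ∧ c.2 < n ∧ c.1 ≠ c.2 := by
  unfold cand
  rw [List.mem_filter, List.mem_flatMap, decide_eq_true_eq]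
  constructor
  · rintro ⟨⟨a, ha, hc⟩, hne⟩
    obtain ⟨b, hb, rfl⟩ := List.mem_map.1 hc
    exact ⟨List.mem_range.1 ha, List.mem_range.1 hb, hne⟩
  · rintro ⟨h1, h2, h3⟩
    exact ⟨⟨c.1, List.mem_range.2 h1, List.mem_map.2 ⟨c.2, List.mem_range.2 h2, rfl⟩⟩, h3⟩

theorem pt_cand {α : Type} [Enc α] {n : α → ℕ} (hn : PT n) (hb : PB n) : PT fun a => cand (n a) := by
  unfold cand; fun_prop

/-- the algorithm: a pair of maximum distance among those whose distance is a feasible threshold -/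
noncomputable def best (g : Fin f → Fin s → ℝ) (P : List (Fin s → ℚ)) : Option (ℕ × ℕ) :=
  (cand P.length).find? fun c => (feas g (P, c)).isSome &&
    (cand P.length).all fun c' => (feas g (P, c')).isNone || decide (leD g P c' c)

noncomputable def opt (g : Fin f → Fin s → ℝ) (P : List (Fin s → ℚ)) : List (Fin s → ℚ) :=
  (((best g P).bind fun c => feas g (P, c)).getD (List.range P.length)).map fun k => P.getD k 0

theorem pt_opt (h : Comparable g) : PT (opt g) := by
  have hfe : ∀ {γ : Type} [Enc γ] {P : γ → List (Fin s → ℚ)} {c : γ → ℕ × ℕ}, PT P → PT c →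
      PT fun x => feas g (P x, c x) := fun hP hc => (pt_feas h).comp (hP.pair hc)
  have h1 : PT fun P : List (Fin s → ℚ) => cand P.length := pt_cand (by fun_prop) (by fun_prop)
  have h2 : PT (best g) := by
    unfold best
    refine PT.find? (F := fun P c => (feas g (P, c)).isSome &&
      (cand P.length).all fun c' => (feas g (P, c')).isNone || decide (leD g P c' c)) ?_ h1
    refine PT.and (PT.isSome (hfe PT.fst' PT.snd')) (PT.all (F := fun (p : List (Fin s → ℚ) × ℕ × ℕ) c' =>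
      (feas g (p.1, c')).isNone || decide (leD g p.1 c' p.2)) ?_ (h1.comp PT.fst'))
    exact PT.or (PT.isNone (hfe (by fun_prop) (by fun_prop))) (pt_leD h (by fun_prop) (by fun_prop) (by fun_prop))
  unfold opt
  refine PT.map (F := fun (P : List (Fin s → ℚ)) (k : ℕ) => P.getD k 0)
    (PT.getD (by fun_prop) (by fun_prop) (PT.const _)) (PT.ogetD ?_ (by fun_prop))
  exact PT.obind (F := fun P c => feas g (P, c)) (hfe PT.fst' PT.snd') h2

variable {P : List (Fin s → ℚ)}

theorem leD_iff (h : IsPolyBall B g) (hf : 0 < f) (c' c : ℕ × ℕ) :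
    leD g P c' c ↔ bdist B (toR (P.getD c'.1 0)) (toR (P.getD c'.2 0)) ≤ bdist B (toR (P.getD c.1 0)) (toR (P.getD c.2 0)) := by
  unfold leD
  have e : ∀ (i : Fin f) (x y : Fin s → ℚ), ∑ j, g i j * (((x - y) j : ℚ) : ℝ) = ∑ j, g i j * (toR x - toR y) j :=
    fun i x y => Finset.sum_congr rfl fun j _ => by simp [toR]
  have e' : ∀ (i : Fin f) (x y : Fin s → ℚ), ∑ j, g i j * (((y - x) j : ℚ) : ℝ) = -∑ j, g i j * (toR x - toR y) j :=
    fun i x y => by
      rw [← Finset.sum_neg_distrib]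
      exact Finset.sum_congr rfl fun j _ => by simp [toR]; ring
  simp only [e _ (P.getD c'.1 0) (P.getD c'.2 0), e' _ (P.getD c'.1 0) (P.getD c'.2 0), e _ (P.getD c.1 0) (P.getD c.2 0),
    e' _ (P.getD c.1 0) (P.getD c.2 0)]
  unfold bdist
  generalize toR (P.getD c'.1 0) - toR (P.getD c'.2 0) = x'
  generalize toR (P.getD c.1 0) - toR (P.getD c.2 0) = x
  have key : ∀ a b : ℝ, ((a ≤ b ∨ a ≤ -b) ∧ (-a ≤ b ∨ -a ≤ -b)) ↔ |a| ≤ |b| := fun a b => by
    rw [← le_abs, ← le_abs, abs_le']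
  simp only [key]
  obtain ⟨h1, i1, h1'⟩ := IPB.spec h hf x'
  obtain ⟨h2, i2, h2'⟩ := IPB.spec h hf x
  constructor
  · intro hh
    obtain ⟨i, hi⟩ := hh i1
    rw [h1']; exact hi.trans (h2 i)
  · intro hh l
    exact ⟨i2, by rw [← h2']; exact (h1 l).trans hh⟩

theorem feas_spec (h : IsPolyBall B g) (hf : 0 < f) (hP : P.Nodup) {c : ℕ × ℕ} (hc : c ∈ cand P.length) :
    (∀ t, feas g (P, c) = some t →
      Tour B P (bdist B (toR (P.getD c.1 0)) (toR (P.getD c.2 0))) (t.map fun k => P.getD k 0)) ∧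
    (feas g (P, c) = none → ¬ ∃ t, Tour B P (bdist B (toR (P.getD c.1 0)) (toR (P.getD c.2 0))) t) := by
  obtain ⟨c1, c2⟩ := c
  obtain ⟨hc1, hc2, hne⟩ := mem_cand.1 hc
  simp only at hc1 hc2 hne ⊢
  have hpos : 0 < bdist B (toR (P.getD c1 0)) (toR (P.getD c2 0)) := by
    refine IPB.pos h fun h0 => hne ?_
    have h1 : P.getD c1 0 = P.getD c2 0 := by
      funext j
      have := congrFun h0 j
      simp only [toR, Pi.sub_apply, Pi.zero_apply] at this
      exact_mod_cast sub_eq_zero.1 this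
    rw [List.getD_eq_getElem _ _ hc1, List.getD_eq_getElem _ _ hc2] at h1
    exact (hP.getElem_inj_iff).1 h1
  obtain ⟨h1, h2⟩ := adj_iff (n := P.length) h hpos (A := fun i => AO g i (P, c1, c2)) (fun k => toR (P.getD k 0))
    (fun i k _ m _ => by
      unfold AO bdist
      rw [Bool.and_eq_true, decide_eq_true_eq, decide_eq_true_eq, IPB.bnorm_le_iff h hf, ← forall_and]
      refine forall_congr' fun l => ?_
      have e : ∀ x y : Fin s → ℚ, ∑ j, g l j * (((x - y) j : ℚ) : ℝ) = ∑ j, g l j * (toR x - toR y) j :=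
        fun x y => Finset.sum_congr rfl fun j _ => by simp [toR]
      have e' : ∀ x y : Fin s → ℚ, ∑ j, g l j * (((y - x) j : ℚ) : ℝ) = -∑ j, g l j * (toR x - toR y) j :=
        fun x y => by
          rw [← Finset.sum_neg_distrib]
          exact Finset.sum_congr rfl fun j _ => by simp [toR]; ring
      have e2 : ∑ j, g i j * (((P.getD k 0 - P.getD m 0) j : ℚ) : ℝ) =
          ∑ j, g i j * (toR (P.getD k 0) j - toR (P.getD m 0) j) := Finset.sum_congr rfl fun j _ => by simp [toR]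
      simp only
      rw [e (P.getD c1 0), e' (P.getD c1 0), e2])
  obtain ⟨h4, h5⟩ := search_pts (P := P) (d := 0)
    (R := fun x y => bdist B (toR (P.getD c1 0)) (toR (P.getD c2 0)) ≤ bdist B (toR x) (toR y)) h1 (by omega) hf h2
  exact ⟨fun t ht => (h4 t ht).2, fun hnone ⟨t, ht, hct⟩ => h5 hnone ⟨t, ht, hct⟩⟩

/-- every tour has an edge whose length is a threshold met by the tour -/
theorem exists_cand (hP : P.Nodup) (h2 : 2 ≤ P.length) {L : ℝ} {t : List (Fin s → ℚ)} (ht : Tour B P L t) :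
    ∃ c ∈ cand P.length, L ≤ bdist B (toR (P.getD c.1 0)) (toR (P.getD c.2 0)) ∧
      Tour B P (bdist B (toR (P.getD c.1 0)) (toR (P.getD c.2 0))) t := by
  obtain ⟨hperm, hcyc⟩ := ht
  have hlen := hperm.length_eq
  have hnd : t.Nodup := hperm.nodup_iff.2 hP
  have hne : (t.zip (t.rotate 1)).toFinset.Nonempty := by
    rw [List.toFinset_nonempty_iff]
    intro h0
    have := congrArg List.length h0
    rw [List.length_zip, List.length_rotate, min_self, List.length_nil] at this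
    omega
  obtain ⟨e, he, hmin⟩ := Finset.exists_min_image _ (fun e => bdist B (toR e.1) (toR e.2)) hne
  rw [List.mem_toFinset] at he
  obtain ⟨h1, h3⟩ := List.of_mem_zip (a := e.1) (b := e.2) he
  obtain ⟨a, ha, hae⟩ := List.mem_iff_getElem.1 (hperm.mem_iff.1 h1)
  obtain ⟨b, hb, hbe⟩ := List.mem_iff_getElem.1 (hperm.mem_iff.1 (List.mem_rotate.1 h3))
  have ea : P.getD a 0 = e.1 := by rw [List.getD_eq_getElem _ _ ha, hae]
  have eb : P.getD b 0 = e.2 := by rw [List.getD_eq_getElem _ _ hb, hbe]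
  refine ⟨(a, b), mem_cand.2 ⟨ha, hb, ?_⟩, ?_, hperm, ?_⟩
  · intro hab
    simp only at hab
    rw [hab] at ea
    exact zip_rotate_ne hnd (by omega) he (ea.symm.trans eb)
  · simp only [ea, eb]; exact hcyc e he
  · simp only [ea, eb]
    exact fun e' he' => hmin e' (List.mem_toFinset.2 he')

theorem opt_spec (hs : 0 < s) (h : IsPolyBall B g) (hP : P.Nodup) (h2 : 2 ≤ P.length) :
    (opt g P).Perm P ∧ ∀ (L : ℝ) (t : List (Fin s → ℚ)), Tour B P L t → Tour B P L (opt g P) := by
  have hf := IPB.fpos hs h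
  have hex : ∀ (L : ℝ) (t : List (Fin s → ℚ)), Tour B P L t → ∃ c ∈ cand P.length,
      L ≤ bdist B (toR (P.getD c.1 0)) (toR (P.getD c.2 0)) ∧ (feas g (P, c)).isSome = true := fun L t ht => by
    obtain ⟨c, hc, h1, h3⟩ := exists_cand hP h2 ht
    exact ⟨c, hc, h1, by
      rw [Option.isSome_iff_ne_none]; exact fun hnone => (feas_spec h hf hP hc).2 hnone ⟨t, h3⟩⟩
  have h0 : Tour B P 0 P := ⟨List.Perm.refl _, fun e _ => IPB.nonneg _⟩
  obtain ⟨c0, hc0, -, hc0f⟩ := hex 0 P h0
  -- a feasible pair of maximum distance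
  obtain ⟨c1, hc1, hmax⟩ := Finset.exists_max_image
    ((cand P.length).toFinset.filter fun c => (feas g (P, c)).isSome = true)
    (fun c => bdist B (toR (P.getD c.1 0)) (toR (P.getD c.2 0)))
    ⟨c0, Finset.mem_filter.2 ⟨List.mem_toFinset.2 hc0, hc0f⟩⟩
  rw [Finset.mem_filter, List.mem_toFinset] at hc1
  obtain ⟨c, hc⟩ : ∃ c, best g P = some c := by
    rw [← Option.ne_none_iff_exists']
    intro hnone
    unfold best at hnone
    refine List.find?_eq_none.1 hnone c1 hc1.1 ?_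
    rw [Bool.and_eq_true, List.all_eq_true]
    refine ⟨hc1.2, fun c' hc' => ?_⟩
    rw [Bool.or_eq_true, decide_eq_true_eq, leD_iff h hf]
    rcases hfc : feas g (P, c') with _ | t
    · exact Or.inl rfl
    · exact Or.inr (hmax c' (Finset.mem_filter.2 ⟨List.mem_toFinset.2 hc', by rw [hfc]; rfl⟩))
  have hcm : c ∈ cand P.length := List.mem_of_find?_eq_some hc
  have hcc := List.find?_some hc
  rw [Bool.and_eq_true, List.all_eq_true] at hcc
  obtain ⟨hc2, hc3⟩ := hcc
  obtain ⟨t0, ht0⟩ := Option.isSome_iff_exists.1 hc2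
  have hopt : opt g P = t0.map fun k => P.getD k 0 := by
    unfold opt
    rw [hc, Option.bind_some, ht0, Option.getD_some]
  have htour := (feas_spec h hf hP hcm).1 t0 ht0
  rw [← hopt] at htour
  refine ⟨htour.1, fun L t ht => ⟨htour.1, ?_⟩⟩
  obtain ⟨c', hc', hL, hc'f⟩ := hex L t ht
  have hle : L ≤ bdist B (toR (P.getD c.1 0)) (toR (P.getD c.2 0)) := by
    have := hc3 c' hc'
    rw [Bool.or_eq_true, decide_eq_true_eq, leD_iff h hf] at this
    rcases this with h' | h'
    · rw [Option.isNone_iff_eq_none] at h'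
      rw [h'] at hc'f; simp at hc'f
    · exact hL.trans h'
  exact fun e he => hle.trans (htour.2 e he)

end opt

end Pool.Agent.H46.Sc
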