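import Pool.Agent.H46.Sc.DP2
import Pool.Agent.H46.CX.CXReach
import Pool.Agent.H46.CX.CXQ

/-! The dynamic program runs in polynomial time. -/

set_option autoImplicit false
set_option linter.unusedSectionVars false

namespace Pool.Agent.H46.Sc

open Function Relation
open Pool.Agent.H46.CX
open Pos (code code_inj)

variable {α β ι : Type} [Enc α] [Enc β]

theorem PT.decide_forall_fin' {P : ι → α → Prop} {i : ∀ x a, Decidable (P x a)}
    (h : ∀ x, PT fun a => @decide (P x a) (i x a)) (l : List ι) :
    ∀ k : ∀ a, Decidable (∀ x ∈ l, P x a), PT fun a => @decide (∀ x ∈ l, P x a) (k a) := by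
  classical
  induction l with
  | nil => intro k; exact (PT.const true).congr fun a => by simp
  | cons x l ih =>
    intro k
    exact ((h x).and (ih fun _ => inferInstance)).congr fun a => by
      rw [Bool.eq_iff_iff]; simp

theorem PT.decide_forall_fin [Finite ι] {P : ι → α → Prop} {i : ∀ x a, Decidable (P x a)}
    {k : ∀ a, Decidable (∀ x, P x a)} (h : ∀ x, PT fun a => @decide (P x a) (i x a)) :
    PT fun a => @decide (∀ x, P x a) (k a) := by
  classical
  cases nonempty_fintype ι
  exact (PT.decide_forall_fin' h (Finset.univ : Finset ι).toList fun _ => inferInstance).congr fun a => by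
    rw [Bool.eq_iff_iff]; simp

theorem PT.decide_exists_fin [Finite ι] {P : ι → α → Prop} {i : ∀ x a, Decidable (P x a)}
    {k : ∀ a, Decidable (∃ x, P x a)} (h : ∀ x, PT fun a => @decide (P x a) (i x a)) :
    PT fun a => @decide (∃ x, P x a) (k a) := by
  classical
  have := PT.decide_forall_fin (P := fun x a => ¬ P x a) (i := fun _ _ => inferInstance) (k := fun _ => inferInstance)
    fun x => PT.decide_not (h x)
  exact this.not.congr fun a => by rw [Bool.eq_iff_iff]; simp

variable {f : ℕ}

@[fun_prop] theorem pt_nd {s : α → St} (hs : PT s) (X : Role f) : PT fun a => nd (s a) X := by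
  unfold Sc.nd; fun_prop
@[fun_prop] theorem pt_dd {tab : α → List (List ℕ)} {p : α → ℕ} (ht : PT tab) (hp : PT p) (X : Role f) :
    PT fun a => dd (tab a) X (p a) := by
  unfold Sc.dd; fun_prop

section
open Classical
variable {tab : α → List (List ℕ)} {n : α → ℕ} {s s' : α → St} {p r q : α → ℕ} {c : α → Cfg}

@[fun_prop] theorem pt_prc' (ht : PT tab) (hn : PT n)
    (hs : PT s) (hp : PT p) (X : Role f) : PT fun a => decide (prc' (tab a) (n a) (s a) X (p a)) := by
  unfold Sc.prc' own' opp'; fun_prop

@[fun_prop] theorem pt_own' (ht : PT tab)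
    (hs : PT s) (hp : PT p) (X : Role f) : PT fun a => decide (own' (tab a) (s a) X (p a)) := by
  unfold Sc.own'; fun_prop

@[fun_prop] theorem pt_dne' (ht : PT tab) (hn : PT n) (hs : PT s) (hp : PT p) :
    PT fun a => decide (dne' f (tab a) (n a) (s a) (p a)) := by
  unfold Sc.dne'
  exact PT.decide_or (PT.decide_exists_fin fun X => pt_own' ht hs hp X) (PT.decide_forall_fin fun X => pt_prc' ht hn hs hp X)

@[fun_prop] theorem pt_rprc' (ht : PT tab) (hn : PT n) (hs : PT s) (hr : PT r) (hp : PT p) :
    PT fun a => decide (rprc' f (tab a) (n a) (s a) (r a) (p a)) := by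
  unfold Sc.rprc'
  exact PT.decide_exists_fin fun X => PT.decide_and (i := fun _ => inferInstance) (by fun_prop) (pt_prc' ht hn hs hp X)

@[fun_prop] theorem pt_Exc' (ht : PT tab) (hn : PT n) (hs : PT s) (hp : PT p) (hc : PT c) :
    PT fun a => decide (Exc' f (tab a) (n a) (s a) (p a) (c a)) := by
  have h0 := pt_dne' (f := f) ht hn hs hp
  have h1 := pt_rprc' (f := f) ht hn hs (r := fun a => (c a).1.1) (by fun_prop) hp
  have h2 := pt_rprc' (f := f) ht hn hs (r := fun a => (c a).2.1) (by fun_prop) hp
  unfold Sc.Exc'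
  exact PT.decide_not (PT.decide_or (PT.decide_and h0 (PT.decide_and h1 h2))
    (PT.decide_and (PT.decide_not h0) (PT.decide_and (PT.decide_not h1) (PT.decide_not h2))))

@[fun_prop] theorem pt_Cons (ht : PT tab) (hn : PT n) (hs : PT s) (hp : PT p) (hc : PT c) :
    PT fun a => decide (Cons f (tab a) (n a) (s a) (p a) (c a)) := by
  unfold Sc.Cons; fun_prop

@[fun_prop] theorem pt_cu (hc : PT c) (hr : PT r) : PT fun a => cu (c a) (r a) := by
  unfold Sc.cu; fun_prop

@[fun_prop] theorem pt_cwit (hc : PT c) (hr : PT r) (hq : PT q) : PT fun a => decide (cwit (c a) (r a) (q a)) := by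
  unfold Sc.cwit; fun_prop

@[fun_prop] theorem pt_cchk (hc : PT c) (hr : PT r) (hq : PT q) : PT fun a => decide (cchk (c a) (r a) (q a)) := by
  unfold Sc.cchk; fun_prop

variable {x y : α → Nd}

@[fun_prop] theorem pt_EvOwn (hc : PT c) (hr : PT r) (hq : PT q) (hx : PT x) (hy : PT y) :
    PT fun a => decide (EvOwn (c a) (r a) (q a) (x a) (y a)) := by
  unfold Sc.EvOwn; fun_prop

@[fun_prop] theorem pt_EvOpp (hc : PT c) (hr : PT r) (hq : PT q) (hx : PT x) (hy : PT y) :
    PT fun a => decide (EvOpp (c a) (r a) (q a) (x a) (y a)) := by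
  unfold Sc.EvOpp; fun_prop

@[fun_prop] theorem pt_Ev (ht : PT tab) (hn : PT n) (hs : PT s) (hs' : PT s') (X : Role f) (hq : PT q) (hc : PT c) :
    PT fun a => decide (Ev f (tab a) (n a) (s a) (s' a) X (q a) (c a)) := by
  unfold Sc.Ev; fun_prop

@[fun_prop] theorem pt_cfgU (hn : PT n) (hb : PB n) : PT fun a => cfgU f (n a) := by
  unfold Sc.cfgU; fun_prop

@[fun_prop] theorem pt_Step (ht : PT tab) (hn : PT n) (hb : PB n) (hs : PT s) (hs' : PT s') :
    PT fun a => decide (Step f (tab a) (n a) (s a) (s' a)) := by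
  unfold Sc.Step
  refine PT.decide_exists_fin (i := fun _ _ => inferInstance) fun X => PT.decide_and (i := fun _ => inferInstance)
    (j := fun _ => inferInstance) (by fun_prop) (PT.decide_and (i := fun _ => inferInstance)
    (j := fun _ => inferInstance) (by fun_prop) (PT.decide_and (i := fun _ => inferInstance)
    (j := fun _ => inferInstance) (PT.decide_forall_fin (i := fun _ _ => inferInstance) fun Y => ?_) ?_))
  · by_cases h : Y = X
    · exact (PT.const true).congr fun a => by simp [h]
    · have : PT fun a => decide (nd (s' a) Y = nd (s a) Y) := by fun_prop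
      exact this.congr fun a => by simp [h]
  · refine PT.decide_exists (P := fun a q => (∀ x ∈ (s a).2, x.1 ≠ q → x ∈ (s' a).2) ∧ (∀ x ∈ (s' a).2, x.1 ≠ q → x ∈ (s a).2) ∧
      ∃ c ∈ Sc.cfgU f (n a), Sc.Cons f (tab a) (n a) (s a) q c ∧ Sc.Cons f (tab a) (n a) (s' a) q c ∧
        Sc.Ev f (tab a) (n a) (s a) (s' a) X q c) (i := fun _ _ => inferInstance) ?_ (by fun_prop)
    refine PT.decide_and (i := fun _ => inferInstance) (j := fun _ => inferInstance) (by fun_prop)
      (PT.decide_and (i := fun _ => inferInstance) (j := fun _ => inferInstance) (by fun_prop) ?_)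
    refine PT.decide_exists (P := fun (a : α × ℕ) c => Sc.Cons f (tab a.1) (n a.1) (s a.1) a.2 c ∧
      Sc.Cons f (tab a.1) (n a.1) (s' a.1) a.2 c ∧ Sc.Ev f (tab a.1) (n a.1) (s a.1) (s' a.1) X a.2 c)
      (i := fun _ _ => inferInstance) ?_ (by fun_prop)
    exact PT.decide_and (i := fun _ => inferInstance) (j := fun _ => inferInstance)
      (pt_Cons (by fun_prop) (by fun_prop) (by fun_prop) (by fun_prop) (by fun_prop))
      (PT.decide_and (i := fun _ => inferInstance) (j := fun _ => inferInstance)
        (pt_Cons (by fun_prop) (by fun_prop) (by fun_prop) (by fun_prop) (by fun_prop))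
        (pt_Ev (by fun_prop) (by fun_prop) (by fun_prop) (by fun_prop) X (by fun_prop) (by fun_prop)))

@[fun_prop] theorem pt_Fin' (hn : PT n) (hs : PT s) : PT fun a => decide (Fin' f (n a) (s a)) := by
  unfold Sc.Fin'
  exact PT.decide_forall_fin (i := fun _ _ => inferInstance) fun X => by fun_prop

@[fun_prop] theorem pt_lists {U : α → List β} (hU : PT U) (k : ℕ) : PT fun a => lists (U a) k := by
  induction k with
  | zero => exact PT.const _
  | succ k ih =>
    unfold Sc.lists
    exact PT.flatMap (F := fun a u => (Sc.lists (U a) k).map (u :: ·)) (PT.map (F := fun (a : α × β) l => a.2 :: l)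
      (by fun_prop) (ih.comp PT.fst')) hU

@[fun_prop] theorem pt_listsLe {U : α → List β} (hU : PT U) (k : ℕ) : PT fun a => listsLe (U a) k := by
  induction k with
  | zero => exact PT.const _
  | succ k ih =>
    unfold Sc.listsLe
    exact PT.cons (PT.const _) (PT.flatMap (F := fun a u => (Sc.listsLe (U a) k).map (u :: ·))
      (PT.map (F := fun (a : α × β) l => a.2 :: l) (by fun_prop) (ih.comp PT.fst')) hU)

@[fun_prop] theorem pt_ndU (hn : PT n) (hb : PB n) : PT fun a => ndU (n a) := by
  unfold Sc.ndU; fun_prop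

@[fun_prop] theorem pt_stU (hn : PT n) (hb : PB n) : PT fun a => stU f (n a) := by
  unfold Sc.stU; fun_prop

@[fun_prop] theorem pt_edges (ht : PT tab) (hn : PT n) (hb : PB n) : PT fun a => edges f (tab a) (n a) := by
  unfold Sc.edges
  exact PT.filter (F := fun a (x : St × St) => decide (Step f (tab a) (n a) x.1 x.2))
    (pt_Step (by fun_prop) (by fun_prop) (by fun_prop) (by fun_prop) (by fun_prop)) (by fun_prop)

@[fun_prop] theorem pt_Acc (ht : PT tab) (hn : PT n) (hb : PB n) : PT fun a => decide (Acc f (tab a) (n a)) := by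
  have : PT fun a => decide (∃ s ∈ Sc.stU f (n a), reachB (Sc.edges f (tab a) (n a), s0 f, s) = true ∧ Sc.Fin' f (n a) s) := by
    fun_prop
  exact this.congr fun a => by
    rw [Bool.eq_iff_iff, decide_eq_true_eq, decide_eq_true_eq]
    simp only [reachB_iff]; rfl

end

end Pool.Agent.H46.Sc
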