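import Pool.Agent.H46.Sc.Aug
import Pool.Agent.H46.Sc.MSDefs

/-! Finding a Hamiltonian cycle in polynomial time. -/

set_option autoImplicit false
set_option linter.unusedSectionVars false

namespace Pool.Agent.H46.Sc

open Function
open Pool.Agent.H46.CX
open Pool.Agent.H46.MS (Cyc)

theorem cyc_cons {V : Type} {R : V → V → Prop} {x : V} {c : List V} : Cyc R (x :: c) ↔ List.IsChain R (x :: c ++ [x]) := by
  rw [List.isChain_cons_append_singleton_iff_forall₂, List.forall₂_iff_zip, Cyc, List.rotate_cons_succ, List.rotate_zero]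
  constructor
  · exact fun h => ⟨by simp, fun h' => h _ h'⟩
  · exact fun h e he => h.2 he

theorem hamfin_iff {n : ℕ} (R : ℕ → ℕ → Prop) {x : ℕ} (hx : x < n) : (Ham fun p q : Fin n => R p q) ↔
    ∃ c : List ℕ, (x :: c).Perm (List.range n) ∧ List.IsChain R (x :: c ++ [x]) := by
  rw [ham_iff_list _ (⟨x, hx⟩ : Fin n)]
  constructor
  · rintro ⟨c, h1, h2, h3⟩
    refine ⟨c.map Fin.val, ?_, ?_⟩
    · have e : x :: c.map Fin.val = ((⟨x, hx⟩ : Fin n) :: c).map Fin.val := rfl
      rw [e]
      refine (List.perm_ext_iff_of_nodup (h1.map Fin.val_injective) List.nodup_range).2 fun y => ?_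
      rw [List.mem_map, List.mem_range]
      exact ⟨fun ⟨z, _, hz⟩ => hz ▸ z.2, fun hy => ⟨⟨y, hy⟩, h2 _, rfl⟩⟩
    · have e : x :: c.map Fin.val ++ [x] = ((⟨x, hx⟩ : Fin n) :: c ++ [(⟨x, hx⟩ : Fin n)]).map Fin.val := by simp
      rw [e, List.isChain_map]; exact h3
  · rintro ⟨c, h1, h2⟩
    have hc : ∀ y ∈ c, y < n := fun y hy => List.mem_range.1 (h1.mem_iff.1 (List.mem_cons_of_mem _ hy))
    obtain ⟨c', rfl⟩ : ∃ c' : List (Fin n), c'.map Fin.val = c := ⟨c.pmap Fin.mk hc, by simp [List.map_pmap]⟩
    refine ⟨c', ?_, fun v => ?_, ?_⟩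
    · have e : x :: c'.map Fin.val = ((⟨x, hx⟩ : Fin n) :: c').map Fin.val := rfl
      rw [e] at h1
      exact List.Nodup.of_map _ (h1.nodup_iff.2 List.nodup_range)
    · have e : x :: c'.map Fin.val = ((⟨x, hx⟩ : Fin n) :: c').map Fin.val := rfl
      rw [e] at h1
      have := h1.mem_iff.2 (List.mem_range.2 v.2)
      rw [List.mem_map] at this
      obtain ⟨z, hz, hzv⟩ := this
      rwa [← Fin.ext hzv]
    · have e : x :: c'.map Fin.val ++ [x] = ((⟨x, hx⟩ : Fin n) :: c' ++ [(⟨x, hx⟩ : Fin n)]).map Fin.val := by simp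
      rw [e, List.isChain_map] at h2; exact h2

theorem ham_iff_cyc {n : ℕ} (R : ℕ → ℕ → Prop) (hn : 0 < n) : (Ham fun p q : Fin n => R p q) ↔
    ∃ t : List ℕ, t.Perm (List.range n) ∧ Cyc R t := by
  constructor
  · intro h
    obtain ⟨c, h1, h2⟩ := (hamfin_iff R hn).1 h
    exact ⟨0 :: c, h1, cyc_cons.2 h2⟩
  · rintro ⟨t, h1, h2⟩
    obtain ⟨x, c, rfl⟩ : ∃ x c, t = x :: c := List.exists_cons_of_ne_nil (by
      rintro rfl; have := h1.length_eq; simp at this; omega)
    exact (hamfin_iff R (List.mem_range.1 (h1.mem_iff.1 List.mem_cons_self))).2 ⟨c, h1, cyc_cons.1 h2⟩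

variable {f : ℕ} {α : Type}

open Classical in
noncomputable def hamB (A : Fin f → ℕ → ℕ → Bool) (n : ℕ) : Bool := decide (Acc f (tabOf A n) n)

theorem hamB_iff {A : Fin f → ℕ → ℕ → Bool} {n : ℕ} (h : ∀ i, Val (A i) n) (hn : 0 < n) (hf : 0 < f) :
    hamB A n = true ↔ Ham fun p q : Fin n => AdjA A p q := by
  classical
  unfold hamB
  rw [decide_eq_true_eq, acc_tabOf h hn hf]; rfl

open Classical in
noncomputable def adjB (A : Fin f → ℕ → ℕ → Bool) (x y : ℕ) : Bool := decide (AdjA A x y)

/-- one step of the search: extend the path by a vertex that keeps it extendable -/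
noncomputable def stepS (A : Fin f → ℕ → ℕ → Bool) (st : List ℕ × List ℕ) : List ℕ × List ℕ :=
  ((st.2.find? fun u => adjB A (st.1.headD 0) u && hamB (aug A (u :: 0 :: st.2.erase u)) ((u :: 0 :: st.2.erase u).length + 1)).map
    fun u => (u :: st.1, st.2.erase u)).getD st

noncomputable def search (A : Fin f → ℕ → ℕ → Bool) (n : ℕ) : Option (List ℕ) :=
  if hamB A n = true then some ((stepS A)^[n] ([0], (List.range n).tail)).1 else none

structure SInv (A : Fin f → ℕ → ℕ → Bool) (n : ℕ) (st : List ℕ × List ℕ) : Prop where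
  perm : (st.1 ++ st.2).Perm (List.range n)
  last : ∃ l, st.1 = l ++ [0]
  chain : List.IsChain (AdjA A) st.1
  hp : HP (AdjA A) (st.1.headD 0) 0 st.2

theorem SInv.step {A : Fin f → ℕ → ℕ → Bool} {n : ℕ} {st : List ℕ × List ℕ} (hA : ∀ i, Val (A i) n)
    (h : SInv A n st) : SInv A n (stepS A st) ∧ (stepS A st).2.length = st.2.length - 1 := by
  classical
  obtain ⟨P, S⟩ := st
  obtain ⟨hperm, ⟨l, hl⟩, hchain, hhp⟩ := h
  dsimp only at *
  have hnd : (P ++ S).Nodup := hperm.nodup_iff.2 List.nodup_range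
  have h0 : 0 ∈ P := by rw [hl]; simp
  have horacle : ∀ u ∈ S, (hamB (aug A (u :: 0 :: S.erase u)) ((u :: 0 :: S.erase u).length + 1) = true ↔
      HP (AdjA A) u 0 (S.erase u)) := fun u hu => by
    have hu0 : u ≠ 0 := fun e => (List.nodup_append.1 hnd).2.2 0 h0 u hu e.symm
    have hSnd := (List.nodup_append.1 hnd).2.1
    have hnd' : (u :: 0 :: S.erase u).Nodup := by
      refine List.nodup_cons.2 ⟨?_, List.nodup_cons.2 ⟨fun h => ?_, hSnd.erase _⟩⟩
      · rw [List.mem_cons, not_or]; exact ⟨hu0, hSnd.not_mem_erase⟩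
      · exact (List.nodup_append.1 hnd).2.2 0 h0 0 (List.mem_of_mem_erase h) rfl
    have hlt : ∀ x ∈ u :: 0 :: S.erase u, x < n := fun x hx => by
      have hx' : x ∈ P ++ S := by
        rw [List.mem_cons, List.mem_cons] at hx
        rcases hx with rfl | rfl | hx
        · exact List.mem_append_right _ hu
        · exact List.mem_append_left _ h0
        · exact List.mem_append_right _ (List.mem_of_mem_erase hx)
      exact List.mem_range.1 (hperm.mem_iff.1 hx')
    rw [hamB_iff (val_aug hA hlt (by simp)) (by simp) (by omega), ham_aug_iff hnd']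
  unfold stepS
  simp only
  rcases hfind : S.find? (fun u => adjB A (P.headD 0) u &&
      hamB (aug A (u :: 0 :: S.erase u)) ((u :: 0 :: S.erase u).length + 1)) with _ | u
  · -- nothing found: `S` must be empty
    simp only [Option.map_none, Option.getD_none]
    obtain ⟨p, hp, hpc⟩ := hhp
    have hS : S = [] := by
      by_contra hne
      cases p with
      | nil => exact hne hp.symm.eq_nil
      | cons u p =>
        have hu : u ∈ S := hp.mem_iff.1 List.mem_cons_self
        rw [List.cons_append, List.isChain_cons_cons] at hpc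
        have := List.find?_eq_none.1 hfind u hu
        apply this
        rw [Bool.and_eq_true]
        refine ⟨by unfold adjB; rw [decide_eq_true_eq]; exact hpc.1, (horacle u hu).2 ⟨p, ?_, hpc.2⟩⟩
        exact (List.perm_cons u).1 (hp.trans (List.perm_cons_erase hu))
    exact ⟨⟨hperm, ⟨l, hl⟩, hchain, ⟨p, hp, hpc⟩⟩, by rw [hS]; rfl⟩
  · simp only [Option.map_some, Option.getD_some]
    have hu : u ∈ S := List.mem_of_find?_eq_some hfind
    have hcond := List.find?_some hfind
    rw [Bool.and_eq_true] at hcond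
    obtain ⟨h1, h2⟩ := hcond
    unfold adjB at h1
    rw [decide_eq_true_eq] at h1
    refine ⟨⟨?_, ⟨u :: l, by rw [hl]; rfl⟩, ?_, (horacle u hu).1 h2⟩, List.length_erase_of_mem hu⟩
    · simp only
      have e1 : (u :: P ++ S.erase u).Perm (P ++ (u :: S.erase u)) := List.perm_middle.symm
      exact e1.trans (((List.perm_cons_erase hu).symm.append_left P).trans hperm)
    · simp only
      rw [hl] at h1 ⊢
      cases l with
      | nil =>
        rw [List.nil_append, List.isChain_cons_cons]
        exact ⟨adjA_symm.1 h1, List.IsChain.singleton _⟩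
      | cons x l =>
        rw [List.cons_append, List.isChain_cons_cons]
        refine ⟨adjA_symm.1 h1, ?_⟩
        rw [hl] at hchain; exact hchain

theorem search_spec {A : Fin f → ℕ → ℕ → Bool} {n : ℕ} (hA : ∀ i, Val (A i) n) (hn : 0 < n) (hf : 0 < f) :
    (∀ t, search A n = some t → t.Perm (List.range n) ∧ Cyc (AdjA A) t) ∧
      (search A n = none → ¬ ∃ t : List ℕ, t.Perm (List.range n) ∧ Cyc (AdjA A) t) := by
  unfold search
  constructor
  · intro t ht
    split_ifs at ht with hh
    rw [hamB_iff hA hn hf] at hh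
    obtain ⟨c, h1, h2⟩ := (hamfin_iff _ hn).1 hh
    have hr : List.range n = 0 :: (List.range n).tail := by
      cases n with
      | zero => omega
      | succ n => rw [List.range_succ_eq_map]; rfl
    have hinit : SInv A n ([0], (List.range n).tail) := by
      refine ⟨?_, ⟨[], rfl⟩, List.IsChain.singleton _, c, ?_, h2⟩
      · simp only [List.cons_append, List.nil_append]; rw [← hr]
      · rw [hr] at h1; exact (List.perm_cons _).1 h1
    have key : ∀ k, SInv A n ((stepS A)^[k] ([0], (List.range n).tail)) ∧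
        ((stepS A)^[k] ([0], (List.range n).tail)).2.length = n - 1 - k := fun k => by
      induction k with
      | zero => exact ⟨hinit, by simp⟩
      | succ k ih =>
        rw [iterate_succ_apply']
        obtain ⟨h3, h4⟩ := ih.1.step hA
        exact ⟨h3, by rw [h4, ih.2]; omega⟩
    obtain ⟨⟨h3, ⟨l, h4⟩, h5, ⟨p, h6, h7⟩⟩, h8⟩ := key n
    have hS : ((stepS A)^[n] ([0], (List.range n).tail)).2 = [] := List.eq_nil_of_length_eq_zero (by rw [h8]; omega)
    rw [hS] at h3 h6
    rw [List.append_nil] at h3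
    obtain rfl := h6.eq_nil
    rw [Option.some.injEq] at ht
    rw [ht] at h3 h4 h5 h7
    refine ⟨h3, ?_⟩
    cases t with
    | nil => simp at h4
    | cons x t =>
      rw [cyc_cons, List.isChain_append]
      refine ⟨h5, List.IsChain.singleton _, fun y hy z hz => ?_⟩
      rw [h4, List.getLast?_concat] at hy
      simp at hy hz
      subst hy hz
      rw [List.nil_append, List.isChain_cons_cons] at h7
      exact adjA_symm.1 h7.1
  · intro h
    split_ifs at h with hh
    rw [hamB_iff hA hn hf, ham_iff_cyc _ hn] at hh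
    exact hh

/-! ### polynomial time -/

variable [Enc α]

theorem size_perm {β : Type} [Enc β] {l m : List β} (h : l.Perm m) : CX.size l = CX.size m := by
  induction h with
  | nil => rfl
  | cons x _ ih => simp [ih]
  | swap x y l => simp; omega
  | trans _ _ ih1 ih2 => exact ih1.trans ih2

variable {A : Fin f → α → ℕ → ℕ → Bool} {n : α → ℕ} (hA : ∀ i, PT fun p : α × ℕ × ℕ => A i p.1 p.2.1 p.2.2)
include hA

theorem pt_aug (i : Fin (f + 1)) :
    PT fun p : (α × List ℕ) × ℕ × ℕ => aug (fun i => A i p.1.1) p.1.2 i p.2.1 p.2.2 := by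
  unfold aug
  by_cases h : i.1 < f
  · simp only [h, dif_pos]
    have := (hA ⟨i.1, h⟩).comp (g := fun p : (α × List ℕ) × ℕ × ℕ => (p.1.1, p.1.2.getD p.2.1 0, p.1.2.getD p.2.2 0))
      (by fun_prop)
    fun_prop
  · simp only [h, dif_neg, not_false_eq_true]
    fun_prop

theorem pt_adjB : PT fun p : α × ℕ × ℕ => adjB (fun i => A i p.1) p.2.1 p.2.2 := by
  classical
  unfold adjB AdjA
  refine PT.decide_exists_fin (i := fun _ _ => inferInstance) fun i => ?_
  have h1 := hA i
  have h2 := (hA i).comp (g := fun p : α × ℕ × ℕ => (p.1, p.2.2, p.2.1)) (by fun_prop)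
  exact PT.decide_or (PT.decide_eq (k := fun _ => inferInstance) h1 (PT.const _))
    (PT.decide_eq (k := fun _ => inferInstance) h2 (PT.const _))

theorem pt_oracle : PT fun p : α × List ℕ => hamB (aug (fun i => A i p.1) p.2) (p.2.length + 1) := by
  unfold hamB
  exact pt_accA (α := α × List ℕ) (A := fun i p => aug (fun i => A i p.1) p.2 i) (n := fun p => p.2.length + 1)
    (pt_aug hA) (by fun_prop) (by fun_prop)

theorem pt_stepS : PT fun p : α × (List ℕ × List ℕ) => stepS (fun i => A i p.1) p.2 := by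
  unfold stepS
  have h1 : PT fun q : (α × (List ℕ × List ℕ)) × ℕ =>
      hamB (aug (fun i => A i q.1.1) (q.2 :: 0 :: q.1.2.2.erase q.2)) ((q.2 :: 0 :: q.1.2.2.erase q.2).length + 1) :=
    (pt_oracle hA).comp (g := fun q : (α × (List ℕ × List ℕ)) × ℕ => (q.1.1, q.2 :: 0 :: q.1.2.2.erase q.2)) (by fun_prop)
  have h2 : PT fun q : (α × (List ℕ × List ℕ)) × ℕ => adjB (fun i => A i q.1.1) (q.1.2.1.headD 0) q.2 :=
    (pt_adjB hA).comp (g := fun q : (α × (List ℕ × List ℕ)) × ℕ => (q.1.1, q.1.2.1.headD 0, q.2)) (by fun_prop)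
  refine PT.ogetD (PT.omap (F := fun (p : α × (List ℕ × List ℕ)) u => (u :: p.2.1, p.2.2.erase u)) (by fun_prop) ?_)
    (by fun_prop)
  exact PT.find? (F := fun (p : α × (List ℕ × List ℕ)) u => adjB (fun i => A i p.1) (p.2.1.headD 0) u &&
    hamB (aug (fun i => A i p.1) (u :: 0 :: p.2.2.erase u)) ((u :: 0 :: p.2.2.erase u).length + 1)) (h2.and h1) (by fun_prop)

theorem pt_search (hn : PT n) (hb : PB n) : PT fun a => search (fun i => A i a) (n a) := by
  unfold search
  have hstep : ∀ a (st : List ℕ × List ℕ), CX.size (stepS (fun i => A i a) st) = CX.size st := fun a st => by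
    unfold stepS
    rcases hfind : st.2.find? (fun u => adjB (fun i => A i a) (st.1.headD 0) u &&
      hamB (aug (fun i => A i a) (u :: 0 :: st.2.erase u)) ((u :: 0 :: st.2.erase u).length + 1)) with _ | u
    · rfl
    · simp only [Option.map_some, Option.getD_some]
      have hu : u ∈ st.2 := List.mem_of_find?_eq_some hfind
      have := size_perm (List.perm_cons_erase hu)
      obtain ⟨P, S⟩ := st
      simp only [size_pair, size_cons] at *
      omega
  have hit : PT fun a => ((stepS fun i => A i a)^[n a] ([0], (List.range (n a)).tail)) :=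
    PT.iterate (F := fun a => stepS fun i => A i a) (i := fun a => ([0], (List.range (n a)).tail))
      (B := fun a => CX.size (([0], (List.range (n a)).tail) : List ℕ × List ℕ)) (pt_stepS hA) (by fun_prop) hn hb
      (by fun_prop) fun a k _ => by
        have : ∀ k, CX.size ((stepS fun i => A i a)^[k] ([0], (List.range (n a)).tail)) =
            CX.size (([0], (List.range (n a)).tail) : List ℕ × List ℕ) := fun k => by
          induction k with
          | zero => rfl
          | succ k ih => rw [iterate_succ_apply', hstep, ih]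
        exact (this k).le
  have hh : PT fun a => hamB (fun i => A i a) (n a) := pt_accA hA hn hb
  fun_prop

end Pool.Agent.H46.Sc
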